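import Pool.Agent.Lib.WnG.Defs

/-!
# The uniform exponent `λ̂_n` of a number with very good convergents

`hlam_ge`: Dirichlet.  `hlam_le_conv`: good convergents `p / q` with `|q ξ - p| ≤ C q^(-w)`, `w ≥ n`, force
`q^n ∣ x_0` for every approximation `x` at the level `X = δ q^n`.
-/

set_option autoImplicit false

open Set

namespace Pool.Agent.WnG

namespace LamHatAux

/-- Dirichlet -/
theorem dirichlet (n : ℕ) (ξ : ℝ) {M : ℕ} (hM : 1 ≤ M) :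
    ∃ x : Fin (n + 1) → ℤ, 1 ≤ x 0 ∧ x 0 ≤ (M : ℤ) ^ n ∧
      ∀ j : Fin n, |(x 0 : ℝ) * ξ ^ ((j : ℕ) + 1) - x j.succ| ≤ 1 / M := by
  have hM0 : (0 : ℝ) < M := by exact_mod_cast hM
  have hlt : ∀ y : ℝ, ⌊(M : ℝ) * Int.fract y⌋.toNat < M := by
    intro y
    have h1 : (M : ℝ) * Int.fract y < M := by
      have := Int.fract_lt_one y
      nlinarith
    have h2 : ⌊(M : ℝ) * Int.fract y⌋ < (M : ℤ) := by
      rw [Int.floor_lt]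
      exact_mod_cast h1
    have h3 : 0 ≤ ⌊(M : ℝ) * Int.fract y⌋ :=
      Int.floor_nonneg.2 (mul_nonneg hM0.le (Int.fract_nonneg y))
    omega
  let f : Fin (M ^ n + 1) → Fin n → Fin M := fun k j =>
    ⟨⌊(M : ℝ) * Int.fract ((k : ℕ) * ξ ^ ((j : ℕ) + 1))⌋.toNat, hlt _⟩
  have hcard : Fintype.card (Fin n → Fin M) < Fintype.card (Fin (M ^ n + 1)) := by
    rw [Fintype.card_fun, Fintype.card_fin, Fintype.card_fin, Fintype.card_fin]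
    omega
  obtain ⟨k, k', hne, hf⟩ := Fintype.exists_ne_map_eq_of_card_lt f hcard
  wlog hlt' : k < k' generalizing k k' with H
  · exact H k' k hne.symm hf.symm (lt_of_le_of_ne (not_lt.1 hlt') hne.symm)
  have hkk : (k : ℕ) < (k' : ℕ) := hlt'
  have hk' : (k' : ℕ) < M ^ n + 1 := k'.2
  refine ⟨Fin.cons (((k' : ℕ) : ℤ) - ((k : ℕ) : ℤ)) (fun j =>
    ⌊((k' : ℕ) : ℝ) * ξ ^ ((j : ℕ) + 1)⌋ - ⌊((k : ℕ) : ℝ) * ξ ^ ((j : ℕ) + 1)⌋), ?_, ?_, ?_⟩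
  · rw [Fin.cons_zero]
    omega
  · rw [Fin.cons_zero]
    have h1 : (((M ^ n : ℕ) : ℤ)) = (M : ℤ) ^ n := by push_cast; rfl
    rw [← h1]
    omega
  · intro j
    rw [Fin.cons_zero, Fin.cons_succ]
    have h1 := congrArg Fin.val (congrFun hf j)
    have h2 : ⌊(M : ℝ) * Int.fract (((k : ℕ) : ℝ) * ξ ^ ((j : ℕ) + 1))⌋ =
        ⌊(M : ℝ) * Int.fract (((k' : ℕ) : ℝ) * ξ ^ ((j : ℕ) + 1))⌋ := by
      have h3 : ⌊(M : ℝ) * Int.fract (((k : ℕ) : ℝ) * ξ ^ ((j : ℕ) + 1))⌋.toNat =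
        ⌊(M : ℝ) * Int.fract (((k' : ℕ) : ℝ) * ξ ^ ((j : ℕ) + 1))⌋.toNat := h1
      have h4 : 0 ≤ ⌊(M : ℝ) * Int.fract (((k : ℕ) : ℝ) * ξ ^ ((j : ℕ) + 1))⌋ :=
        Int.floor_nonneg.2 (mul_nonneg hM0.le (Int.fract_nonneg _))
      have h5 : 0 ≤ ⌊(M : ℝ) * Int.fract (((k' : ℕ) : ℝ) * ξ ^ ((j : ℕ) + 1))⌋ :=
        Int.floor_nonneg.2 (mul_nonneg hM0.le (Int.fract_nonneg _))
      omega
    have h3 := Int.abs_sub_lt_one_of_floor_eq_floor h2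
    rw [← mul_sub, abs_mul, abs_of_pos hM0] at h3
    have h4 : (((((k' : ℕ) : ℤ) - ((k : ℕ) : ℤ) : ℤ)) : ℝ) * ξ ^ ((j : ℕ) + 1) -
        ((⌊((k' : ℕ) : ℝ) * ξ ^ ((j : ℕ) + 1)⌋ - ⌊((k : ℕ) : ℝ) * ξ ^ ((j : ℕ) + 1)⌋ : ℤ) : ℝ) =
        -(Int.fract (((k : ℕ) : ℝ) * ξ ^ ((j : ℕ) + 1)) -
          Int.fract (((k' : ℕ) : ℝ) * ξ ^ ((j : ℕ) + 1))) := by
      unfold Int.fract
      push_cast
      ring
    rw [h4, abs_neg, le_div_iff₀ hM0]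
    linarith


theorem simAp_of_lt {n : ℕ} (hn : 1 ≤ n) (ξ s : ℝ) (hs : s < 1 / (n:ℝ)) :
    ∃ X₀ : ℝ, ∀ X : ℝ, X₀ ≤ X → SimAp n ξ s X := by
  have hnR : (1:ℝ) ≤ n := by exact_mod_cast hn
  have hn0 : (0:ℝ) < n := by linarith
  have hd : 0 < 1 / (n:ℝ) - s := sub_pos.2 hs
  refine ⟨max 1 (2 ^ (1 / (1 / (n:ℝ) - s))), fun X hX => ?_⟩
  have hX1 : 1 ≤ X := (le_max_left _ _).trans hX
  have hX0 : 0 < X := by linarith
  have hX2 : (2:ℝ) ^ (1 / (1 / (n:ℝ) - s)) ≤ X := (le_max_right _ _).trans hX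
  have hZ1 : 1 ≤ X ^ (1 / (n:ℝ)) := Real.one_le_rpow hX1 (by positivity)
  set M : ℕ := ⌊X ^ (1 / (n:ℝ))⌋₊ with hM
  have hM1 : 1 ≤ M := Nat.floor_pos.2 hZ1
  have hM1' : (1:ℝ) ≤ M := by exact_mod_cast hM1
  have hMle : (M:ℝ) ≤ X ^ (1 / (n:ℝ)) := Nat.floor_le (by linarith)
  have hMlt : X ^ (1 / (n:ℝ)) < M + 1 := Nat.lt_floor_add_one _
  obtain ⟨x, h1, h2, h3⟩ := dirichlet n ξ hM1
  have hMn : (M:ℝ) ^ n ≤ X := by
    calc (M:ℝ) ^ n ≤ (X ^ (1 / (n:ℝ))) ^ n := pow_le_pow_left₀ (by linarith) hMle n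
      _ = X := by
        rw [← Real.rpow_natCast, ← Real.rpow_mul hX0.le, one_div_mul_cancel hn0.ne',
          Real.rpow_one]
  have hx1 : (1:ℝ) ≤ (x 0 : ℝ) := by exact_mod_cast h1
  have hx2 : (x 0 : ℝ) ≤ (M:ℝ) ^ n := by exact_mod_cast h2
  refine ⟨x, by omega, ?_, fun j => (h3 j).trans ?_⟩
  · rw [abs_of_pos (by linarith)]
    exact hx2.trans hMn
  · have h4 : (2:ℝ) ≤ X ^ (1 / (n:ℝ) - s) := by
      have := Real.rpow_le_rpow (Real.rpow_pos_of_pos (by norm_num : (0:ℝ) < 2) _).le hX2 hd.le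
      rw [← Real.rpow_mul (by norm_num), one_div_mul_cancel hd.ne', Real.rpow_one] at this
      exact this
    have h5 : X ^ (1 / (n:ℝ) - s) = X ^ (1 / (n:ℝ)) * X ^ (-s) := by
      rw [← Real.rpow_add hX0]
      congr 1
    have h6 : 0 < X ^ (-s) := Real.rpow_pos_of_pos hX0 _
    rw [div_le_iff₀ (by linarith)]
    have h7 : 2 ≤ X ^ (1 / (n:ℝ)) * X ^ (-s) := by rw [← h5]; exact h4
    have h8 : X ^ (1 / (n:ℝ)) * X ^ (-s) ≤ (2 * M) * X ^ (-s) :=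
      mul_le_mul_of_nonneg_right (by linarith) h6.le
    nlinarith

end LamHatAux

open LamHatAux

theorem hlam_ge {n : ℕ} (hn : 1 ≤ n) (ξ : ℝ) : ((1 / (n:ℝ) : ℝ) : EReal) ≤ hlam n ξ := by
  by_contra hcon
  rw [not_le] at hcon
  obtain ⟨r, hr1, hr2⟩ := EReal.lt_iff_exists_real_btwn.1 hcon
  rw [EReal.coe_lt_coe_iff] at hr2
  have hmem : (r : EReal) ∈ {l : EReal | ∃ r : ℝ, l = r ∧ ∃ X₀ : ℝ, ∀ X : ℝ, X₀ ≤ X →
      SimAp n ξ r X} := ⟨r, rfl, simAp_of_lt hn ξ r hr2⟩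
  exact absurd (le_sSup hmem) (not_le.2 hr1)

theorem hlam_le_conv {n : ℕ} (hn : 1 ≤ n) {w ξ : ℝ} (hnw : (n:ℝ) ≤ w) (hξ1 : |ξ| ≤ 1)
    (hconv : ∀ N : ℝ, ∃ p q : ℤ, N ≤ q ∧ 0 < q ∧ |p| ≤ q ∧ IsCoprime p q ∧
      |(q:ℝ) * ξ - p| ≤ 2 ^ (w - 1) * (q:ℝ) ^ (-w)) :
    hlam n ξ ≤ ((1 / (n:ℝ) : ℝ) : EReal) := by
  have hnR : (1:ℝ) ≤ n := by exact_mod_cast hn
  have hn0 : (0:ℝ) < n := by linarith
  unfold hlam
  apply sSup_le
  rintro _ ⟨l, rfl, X₁, hX₁⟩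
  rw [EReal.coe_le_coe_iff]
  by_contra hcon
  rw [not_le] at hcon
  have hl0 : 0 < l := lt_trans (by positivity) hcon
  have hnl : 0 < n * l - 1 := by
    rw [div_lt_iff₀ hn0] at hcon
    linarith
  have h2 : (0:ℝ) < 2 ^ (w - 1) := Real.rpow_pos_of_pos (by norm_num) _
  set δ : ℝ := min (1 / 2) (1 / (4 * 2 ^ (w - 1))) with hδ
  have hδ0 : 0 < δ := lt_min (by norm_num) (by positivity)
  have hδ1 : δ < 1 := lt_of_le_of_lt (min_le_left _ _) (by norm_num)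
  have hδ2 : δ * 2 ^ (w - 1) ≤ 1 / 4 := by
    have : δ ≤ 1 / (4 * 2 ^ (w - 1)) := min_le_right _ _
    rw [le_div_iff₀ (by positivity)] at this
    linarith
  set D : ℝ := 8 * δ ^ (-l) with hD
  have hD0 : 0 < D := by
    have := Real.rpow_pos_of_pos hδ0 (-l)
    positivity
  obtain ⟨p, q, hNq, hq, hpq, hco, hqp⟩ := hconv (max (X₁ / δ) (D ^ (1 / (n * l - 1))))
  have hq0 : (0:ℝ) < q := by exact_mod_cast hq
  have hq1 : (1:ℝ) ≤ q := by exact_mod_cast hq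
  have hpq' : |(p:ℝ)| ≤ q := by exact_mod_cast hpq
  have hqX : X₁ / δ ≤ q := (le_max_left _ _).trans hNq
  have hqD : D ^ (1 / (n * l - 1)) ≤ q := (le_max_right _ _).trans hNq
  set X : ℝ := δ * (q:ℝ) ^ n with hX
  have hX0 : 0 < X := by positivity
  have hqn : (q:ℝ) ≤ (q:ℝ) ^ n := le_self_pow₀ hq1 (by omega)
  have hXX : X₁ ≤ X := by
    rw [div_le_iff₀ hδ0] at hqX
    rw [hX]
    nlinarith
  obtain ⟨x, hx0, hxX, hxe⟩ := hX₁ X hXX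
  -- the errors
  have hE : ∀ (j : ℕ) (hj : j < n + 1), |(x 0 : ℝ) * ξ ^ j - x ⟨j, hj⟩| ≤ X ^ (-l) := by
    intro j hj
    rcases j with _ | j
    · have e : (⟨0, hj⟩ : Fin (n + 1)) = 0 := rfl
      rw [e, pow_zero, mul_one, sub_self, abs_zero]
      exact (Real.rpow_pos_of_pos hX0 _).le
    · exact hxe ⟨j, by omega⟩
  have herr : (q:ℝ) * X ^ (-l) ≤ 1 / 8 := by
    have e1 : X ^ (-l) = δ ^ (-l) * (q:ℝ) ^ (-(n * l)) := by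
      rw [hX, Real.mul_rpow hδ0.le (by positivity), ← Real.rpow_natCast, ← Real.rpow_mul hq0.le]
      congr 2
      ring
    have e2 : (q:ℝ) ^ (-(n * l)) * q = ((q:ℝ) ^ (n * l - 1))⁻¹ := by
      rw [← Real.rpow_neg hq0.le, ← Real.rpow_add_one hq0.ne']
      congr 1
      ring
    have e3 : D ≤ (q:ℝ) ^ (n * l - 1) := by
      have := Real.rpow_le_rpow (Real.rpow_pos_of_pos hD0 _).le hqD hnl.le
      rw [← Real.rpow_mul hD0.le, one_div_mul_cancel hnl.ne', Real.rpow_one] at this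
      exact this
    have e4 : (q:ℝ) * X ^ (-l) = δ ^ (-l) * ((q:ℝ) ^ (n * l - 1))⁻¹ := by
      rw [e1, ← e2]
      ring
    rw [e4]
    have e5 : 0 < δ ^ (-l) := Real.rpow_pos_of_pos hδ0 _
    calc δ ^ (-l) * ((q:ℝ) ^ (n * l - 1))⁻¹ ≤ δ ^ (-l) * D⁻¹ :=
          mul_le_mul_of_nonneg_left (inv_anti₀ hD0 e3) e5.le
      _ = 1 / 8 := by
          rw [hD]
          field_simp
  have hmain : |(x 0 : ℝ)| * |(q:ℝ) * ξ - p| ≤ 1 / 4 := by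
    calc |(x 0 : ℝ)| * |(q:ℝ) * ξ - p| ≤ X * (2 ^ (w - 1) * (q:ℝ) ^ (-w)) :=
          mul_le_mul hxX hqp (abs_nonneg _) hX0.le
      _ = (δ * 2 ^ (w - 1)) * ((q:ℝ) ^ n * (q:ℝ) ^ (-w)) := by rw [hX]; ring
      _ ≤ (δ * 2 ^ (w - 1)) * 1 := by
          apply mul_le_mul_of_nonneg_left _ (by positivity)
          rw [← Real.rpow_natCast, ← Real.rpow_add hq0]
          exact Real.rpow_le_one_of_one_le_of_nonpos hq1 (by linarith)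
      _ ≤ 1 / 4 := by linarith
  have hrel : ∀ (j : ℕ) (hj : j + 1 < n + 1),
      q * x ⟨j + 1, hj⟩ = p * x ⟨j, by omega⟩ := by
    intro j hj
    have h3 := hE (j + 1) hj
    have h4 := hE j (by omega)
    have e : ((q * x ⟨j + 1, hj⟩ - p * x ⟨j, by omega⟩ : ℤ) : ℝ) =
        (x 0 : ℝ) * ξ ^ j * ((q:ℝ) * ξ - p) - q * ((x 0 : ℝ) * ξ ^ (j + 1) - x ⟨j + 1, hj⟩) +
          p * ((x 0 : ℝ) * ξ ^ j - x ⟨j, by omega⟩) := by
      push_cast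
      ring
    have hξj : |ξ ^ j| ≤ 1 := by
      rw [abs_pow]
      exact pow_le_one₀ (abs_nonneg _) hξ1
    have h5 : |(x 0 : ℝ) * ξ ^ j * ((q:ℝ) * ξ - p)| ≤ 1 / 4 := by
      rw [abs_mul, abs_mul]
      calc |(x 0 : ℝ)| * |ξ ^ j| * |(q:ℝ) * ξ - p| ≤ |(x 0 : ℝ)| * 1 * |(q:ℝ) * ξ - p| := by
            gcongr
        _ = |(x 0 : ℝ)| * |(q:ℝ) * ξ - p| := by ring
        _ ≤ 1 / 4 := hmain
    have h6 : |(q:ℝ) * ((x 0 : ℝ) * ξ ^ (j + 1) - x ⟨j + 1, hj⟩)| ≤ 1 / 8 := by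
      rw [abs_mul, abs_of_pos hq0]
      exact (mul_le_mul_of_nonneg_left h3 hq0.le).trans herr
    have h7 : |(p:ℝ) * ((x 0 : ℝ) * ξ ^ j - x ⟨j, by omega⟩)| ≤ 1 / 8 := by
      rw [abs_mul]
      exact (mul_le_mul hpq' h4 (abs_nonneg _) hq0.le).trans herr
    have h8 : |((q * x ⟨j + 1, hj⟩ - p * x ⟨j, by omega⟩ : ℤ) : ℝ)| < 1 := by
      rw [e]
      calc _ ≤ |(x 0 : ℝ) * ξ ^ j * ((q:ℝ) * ξ - p) -
            q * ((x 0 : ℝ) * ξ ^ (j + 1) - x ⟨j + 1, hj⟩)| +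
            |(p:ℝ) * ((x 0 : ℝ) * ξ ^ j - x ⟨j, by omega⟩)| := abs_add_le _ _
        _ ≤ (|(x 0 : ℝ) * ξ ^ j * ((q:ℝ) * ξ - p)| +
            |(q:ℝ) * ((x 0 : ℝ) * ξ ^ (j + 1) - x ⟨j + 1, hj⟩)|) +
            |(p:ℝ) * ((x 0 : ℝ) * ξ ^ j - x ⟨j, by omega⟩)| := by
            gcongr
            exact abs_sub _ _
        _ < 1 := by linarith
    have h9 : |q * x ⟨j + 1, hj⟩ - p * x ⟨j, by omega⟩| < 1 := by exact_mod_cast h8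
    have h10 := Int.abs_lt_one_iff.1 h9
    linarith
  have hpow : ∀ (j : ℕ) (hj : j < n + 1), q ^ j * x ⟨j, hj⟩ = p ^ j * x 0 := by
    intro j
    induction j with
    | zero =>
      intro hj
      have e : (⟨0, hj⟩ : Fin (n + 1)) = 0 := rfl
      rw [e, pow_zero, pow_zero]
    | succ j ih =>
      intro hj
      have h3 := ih (by omega)
      have h4 := hrel j hj
      calc q ^ (j + 1) * x ⟨j + 1, hj⟩ = q ^ j * (q * x ⟨j + 1, hj⟩) := by ring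
        _ = p * (q ^ j * x ⟨j, by omega⟩) := by rw [h4]; ring
        _ = p ^ (j + 1) * x 0 := by rw [h3]; ring
  have hdvd : q ^ n ∣ x 0 := by
    have h3 := hpow n (by omega)
    have h4 : IsCoprime (q ^ n) (p ^ n) := hco.symm.pow
    exact h4.dvd_of_dvd_mul_left (Dvd.intro _ h3)
  have h3 : q ^ n ≤ |x 0| := Int.le_of_dvd (abs_pos.2 hx0) ((dvd_abs _ _).2 hdvd)
  have h4 : (q:ℝ) ^ n ≤ |(x 0 : ℝ)| := by exact_mod_cast h3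
  have h5 : X < (q:ℝ) ^ n := by
    rw [hX]
    have : 0 < (q:ℝ) ^ n := by positivity
    nlinarith
  linarith

end Pool.Agent.WnG
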