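import Pool.Agent.Lib.WnG.Defs
import Pool.Agent.Lib.WnF.LamV

/-!
# The upper bound `1 / n` for `λ̂_n`

If `|P(ξ)| > X^(-r)` for all integer polynomials `P ≠ 0` of degree `≤ n` and height `≤ X`, for every
`r > n` and all large `X`, then `λ̂_n(ξ) ≤ 1 / n` (Siegel's lemma).
-/

set_option autoImplicit false

namespace Pool.Agent.WnG

open Pool.Agent.WnF

namespace LamLowAux

/-- the linear polynomial `x₀ T - x₁` -/
theorem lin_poly (n : ℕ) (hn : 1 ≤ n) (ξ : ℝ) (x₀ x₁ : ℤ) (h0 : x₀ ≠ 0) :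
    ∃ P : Fin (n + 1) → ℤ, P ≠ 0 ∧ (∀ i, |(P i : ℝ)| ≤ max |(x₀ : ℝ)| |(x₁ : ℝ)|) ∧
      pv P ξ = (x₀ : ℝ) * ξ - x₁ := by
  obtain ⟨m, rfl⟩ : ∃ m, n = m + 1 := ⟨n - 1, by omega⟩
  refine ⟨Fin.cons (-x₁) (Fin.cons x₀ (fun _ => 0)), ?_, ?_, ?_⟩
  · intro h
    have := congrFun h 1
    simp only [Pi.zero_apply] at this
    have e : (1 : Fin (m + 1 + 1)) = Fin.succ 0 := rfl
    rw [e, Fin.cons_succ, Fin.cons_zero] at this
    exact h0 this
  · intro i
    refine Fin.cases ?_ (fun i => Fin.cases ?_ (fun i => ?_) i) i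
    · rw [Fin.cons_zero]
      push_cast
      rw [abs_neg]
      exact le_max_right _ _
    · rw [Fin.cons_succ, Fin.cons_zero]
      exact le_max_left _ _
    · rw [Fin.cons_succ, Fin.cons_succ]
      simp only [Int.cast_zero, abs_zero]
      exact (abs_nonneg _).trans (le_max_left _ _)
  · unfold pv
    rw [Fin.sum_univ_succ, Fin.sum_univ_succ]
    simp only [Fin.cons_zero, Fin.cons_succ, Fin.val_zero, Fin.val_succ, pow_zero, mul_one,
      zero_add, pow_one, Int.cast_zero, zero_mul, Finset.sum_const_zero, add_zero, Int.cast_neg]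
    ring

/-- the coordinates of an approximation are bounded by `2 (|ξ|+1)^n |x₀|` -/
theorem coord_le (n : ℕ) (ξ : ℝ) (x : Fin (n + 1) → ℤ) (h0 : x 0 ≠ 0) (e : ℝ) (he : e ≤ 1)
    (h : ∀ j : Fin n, |(x 0 : ℝ) * ξ ^ ((j : ℕ) + 1) - x j.succ| ≤ e) (i : Fin (n + 1)) :
    |(x i : ℝ)| ≤ 2 * (|ξ| + 1) ^ n * |(x 0 : ℝ)| := by
  have hξ : 0 ≤ |ξ| := abs_nonneg ξ
  have hx1 : (1:ℝ) ≤ |(x 0 : ℝ)| := by exact_mod_cast Int.one_le_abs h0
  have hpow1 : 1 ≤ (|ξ| + 1) ^ n := one_le_pow₀ (by linarith)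
  set X : ℝ := |(x 0 : ℝ)| with hX
  have hX0 : 0 < X := by linarith
  refine Fin.cases (by nlinarith) (fun j => ?_) i
  have h3 := h j
  have h4 : |(x 0 : ℝ) * ξ ^ ((j : ℕ) + 1)| ≤ X * (|ξ| + 1) ^ n := by
    rw [abs_mul, abs_pow]
    apply mul_le_mul le_rfl _ (by positivity) hX0.le
    calc |ξ| ^ ((j:ℕ) + 1) ≤ (|ξ| + 1) ^ ((j:ℕ) + 1) :=
          pow_le_pow_left₀ hξ (by linarith) _
      _ ≤ (|ξ| + 1) ^ n := pow_le_pow_right₀ (by linarith) (by omega)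
  have h5 : (1 : ℝ) ≤ X * (|ξ| + 1) ^ n := by nlinarith
  calc |(x j.succ : ℝ)| = |(x 0 : ℝ) * ξ ^ ((j : ℕ) + 1)
        - ((x 0 : ℝ) * ξ ^ ((j : ℕ) + 1) - x j.succ)| := by congr 1; ring
    _ ≤ |(x 0 : ℝ) * ξ ^ ((j : ℕ) + 1)|
        + |(x 0 : ℝ) * ξ ^ ((j : ℕ) + 1) - x j.succ| := abs_sub _ _
    _ ≤ X * (|ξ| + 1) ^ n + 1 := by linarith
    _ ≤ 2 * (|ξ| + 1) ^ n * X := by linarith

end LamLowAux

open LamLowAux LamVAux

theorem hlam_le_low (n : ℕ) (hn : 1 ≤ n) (ξ : ℝ) (hirr : Irrational ξ)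
    (hlow : ∀ r : ℝ, (n:ℝ) < r → ∃ X₀ : ℝ, ∀ X : ℝ, X₀ ≤ X → ∀ P : Fin (n + 1) → ℤ, P ≠ 0 →
      (∀ i, |(P i : ℝ)| ≤ X) → X ^ (-r) < |pv P ξ|) :
    hlam n ξ ≤ ((1 / (n:ℝ) : ℝ) : EReal) := by
  have _ := hirr
  have hnR : (1:ℝ) ≤ n := by exact_mod_cast hn
  have hn0 : (0:ℝ) < n := by linarith
  have hξ : 0 ≤ |ξ| := abs_nonneg ξ
  unfold hlam
  apply sSup_le
  rintro _ ⟨l, rfl, X₁, hX₁⟩
  rw [EReal.coe_le_coe_iff]
  by_contra hcon
  rw [not_le] at hcon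
  have hl0 : 0 < l := lt_trans (by positivity) hcon
  set δ : ℝ := n * l - 1 with hδ
  have hδ0 : 0 < δ := by
    rw [div_lt_iff₀ hn0] at hcon
    rw [hδ]
    linarith
  obtain ⟨H₀, hH₀⟩ := hlow (n + δ / 2) (by linarith)
  obtain ⟨H₁, hH₁⟩ := hlow (n + 1) (by linarith)
  set C1 : ℝ := 2 * (|ξ| + 1) ^ n with hC1
  have hpow1 : 1 ≤ (|ξ| + 1) ^ n := one_le_pow₀ (by linarith)
  have hC11 : 1 ≤ C1 := by rw [hC1]; linarith
  set K : ℝ := ((n : ℝ) + 1) * C1 with hK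
  have hK1 : 1 ≤ K := by rw [hK]; nlinarith
  have hK0 : 0 < K := by linarith
  set Cst : ℝ := ((n : ℝ) + 1) * K ^ (l + 1) with hCst
  have hCst0 : 0 < Cst := by
    rw [hCst]
    have := Real.rpow_pos_of_pos hK0 (l + 1)
    positivity
  set Ym : ℝ := max H₀ (Cst ^ (2 / δ)) with hYm
  -- the first coordinates are bounded
  have hbd : ∀ X : ℝ, 1 ≤ X → ∀ x : Fin (n + 1) → ℤ, x 0 ≠ 0 → |(x 0 : ℝ)| ≤ X →
      (∀ j : Fin n, |(x 0 : ℝ) * ξ ^ ((j : ℕ) + 1) - x j.succ| ≤ X ^ (-l)) →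
      |(x 0 : ℝ)| ≤ Ym ^ n := by
    intro Q hQ1 x hx0 hxQ hxe
    have hx1 : (1:ℝ) ≤ |(x 0 : ℝ)| := by exact_mod_cast Int.one_le_abs hx0
    have hQe : Q ^ (-l) ≤ 1 := Real.rpow_le_one_of_one_le_of_nonpos hQ1 (by linarith)
    have hxb := coord_le n ξ x hx0 _ hQe hxe
    set X : ℝ := |(x 0 : ℝ)| with hX
    have hX0 : 0 < X := by linarith
    have hxe' : ∀ j : Fin n, |(x 0 : ℝ) * ξ ^ ((j : ℕ) + 1) - x j.succ| ≤ X ^ (-l) := by
      intro j
      refine (hxe j).trans ?_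
      rw [Real.rpow_neg (by linarith), Real.rpow_neg hX0.le]
      exact inv_anti₀ (Real.rpow_pos_of_pos hX0 _) (Real.rpow_le_rpow hX0.le hxQ hl0.le)
    obtain ⟨P, hP0, hPx, hPb⟩ := siegel hn x (C1 * X) (by nlinarith) hxb
    set Y : ℝ := (((n : ℝ) + 1) * (C1 * X)) ^ (1 / (n : ℝ)) with hY
    have hKX : ((n : ℝ) + 1) * (C1 * X) = K * X := by rw [hK]; ring
    have hKX1 : 1 ≤ K * X := by nlinarith
    have hY1 : 1 ≤ Y := by
      rw [hY, hKX]
      exact Real.one_le_rpow hKX1 (by positivity)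
    have hY0 : 0 < Y := by linarith
    have hYn : Y ^ n = K * X := by
      rw [hY, hKX, ← Real.rpow_natCast, ← Real.rpow_mul (by linarith)]
      have : 1 / (n : ℝ) * n = 1 := by field_simp
      rw [this, Real.rpow_one]
    have hval : |pv P ξ| ≤ (n + 1) * Y * X ^ (-(l + 1)) := by
      have e1 : (x 0 : ℝ) * pv P ξ = ∑ i, (P i : ℝ) * ((x 0 : ℝ) * ξ ^ (i : ℕ) - x i) := by
        unfold pv
        rw [Finset.mul_sum]
        have e2 : ∑ i, (P i : ℝ) * ((x 0 : ℝ) * ξ ^ (i : ℕ) - x i) =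
            ∑ i, (x 0 : ℝ) * ((P i : ℝ) * ξ ^ (i : ℕ)) - ∑ i, (x i : ℝ) * P i := by
          rw [← Finset.sum_sub_distrib]
          exact Finset.sum_congr rfl fun i _ => by ring
        rw [e2, hPx, sub_zero]
      have e3 : X * |pv P ξ| ≤ ∑ i : Fin (n + 1), Y * X ^ (-l) := by
        rw [hX, ← abs_mul, e1]
        refine (Finset.abs_sum_le_sum_abs _ _).trans (Finset.sum_le_sum fun i _ => ?_)
        rw [abs_mul]
        refine mul_le_mul (hPb i) ?_ (abs_nonneg _) hY0.le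
        refine Fin.cases ?_ (fun j => ?_) i
        · simp only [Fin.val_zero, pow_zero, mul_one, sub_self, abs_zero]
          exact (Real.rpow_pos_of_pos hX0 _).le
        · have := hxe' j
          simpa using this
      rw [Finset.sum_const, Finset.card_univ, Fintype.card_fin, nsmul_eq_mul] at e3
      push_cast at e3
      have e4 : X ^ (-(l + 1)) = X ^ (-l) / X := by
        rw [neg_add, Real.rpow_add hX0, Real.rpow_neg_one, div_eq_mul_inv]
      rw [e4, ← mul_div_assoc, le_div_iff₀ hX0]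
      linarith
    have hYYm : Y ≤ Ym := by
      rcases lt_or_ge Y H₀ with hlt | hge
      · exact hlt.le.trans (le_max_left _ _)
      · have hg := hH₀ Y hge P hP0 hPb
        have g4 : Y ^ (-((n:ℝ) + δ / 2)) ≤ (n + 1) * Y * X ^ (-(l + 1)) := hg.le.trans hval
        have hXY : X = Y ^ n / K := by rw [hYn]; field_simp
        have g5 : X ^ (-(l + 1)) = K ^ (l + 1) * Y ^ (-(n * (l + 1))) := by
          rw [hXY, Real.div_rpow (by positivity) hK0.le, ← Real.rpow_natCast Y n,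
            ← Real.rpow_mul hY0.le, Real.rpow_neg hK0.le, div_inv_eq_mul, mul_comm]
          congr 2
          ring
        have g6 : (n + 1) * Y * X ^ (-(l + 1)) = Cst * Y ^ (1 - n * (l + 1)) := by
          rw [g5, hCst]
          have : Y ^ (1 - n * (l + 1)) = Y * Y ^ (-(n * (l + 1))) := by
            rw [sub_eq_add_neg, Real.rpow_add hY0, Real.rpow_one]
          rw [this]
          ring
        rw [g6] at g4
        have g7 : Y ^ (δ / 2) ≤ Cst := by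
          have k1 : Y ^ (-((n:ℝ) + δ / 2)) = Y ^ (δ / 2) * Y ^ (1 - n * (l + 1)) := by
            rw [← Real.rpow_add hY0]
            congr 1
            rw [hδ]
            ring
          rw [k1] at g4
          exact le_of_mul_le_mul_right g4 (Real.rpow_pos_of_pos hY0 _)
        have g8 : Y = (Y ^ (δ / 2)) ^ (2 / δ) := by
          rw [← Real.rpow_mul hY0.le]
          have : δ / 2 * (2 / δ) = 1 := by field_simp
          rw [this, Real.rpow_one]
        calc Y = (Y ^ (δ / 2)) ^ (2 / δ) := g8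
          _ ≤ Cst ^ (2 / δ) := Real.rpow_le_rpow (Real.rpow_pos_of_pos hY0 _).le g7 (by positivity)
          _ ≤ Ym := le_max_right _ _
    calc X ≤ K * X := by nlinarith
      _ = Y ^ n := hYn.symm
      _ ≤ Ym ^ n := pow_le_pow_left₀ hY0.le hYYm n
  -- a fixed linear polynomial would be too small
  set B : ℝ := max 1 (max H₁ (C1 * Ym ^ n)) with hB
  have hB1 : 1 ≤ B := le_max_left _ _
  have hB0 : 0 < B := by linarith
  set X : ℝ := max X₁ (max 1 (B ^ (((n:ℝ) + 1) / l))) with hXd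
  have hX1 : 1 ≤ X := (le_max_left _ _).trans (le_max_right _ _)
  obtain ⟨x, hx0, hxX, hxe⟩ := hX₁ X (le_max_left _ _)
  have hxB := hbd X hX1 x hx0 hxX hxe
  have hXe : X ^ (-l) ≤ 1 := Real.rpow_le_one_of_one_le_of_nonpos hX1 (by linarith)
  have hxb := coord_le n ξ x hx0 _ hXe hxe
  have hall : ∀ i, |(x i : ℝ)| ≤ B := fun i => by
    refine (hxb i).trans ?_
    refine (mul_le_mul_of_nonneg_left hxB (by linarith)).trans ?_
    exact (le_max_right _ _).trans (le_max_right _ _)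
  obtain ⟨P, hP0, hPb, hPv⟩ := lin_poly n hn ξ (x 0) (x (Fin.succ ⟨0, hn⟩)) hx0
  have h1 := hH₁ B ((le_max_left _ _).trans (le_max_right _ _)) P hP0
    (fun i => (hPb i).trans (max_le (hall _) (hall _)))
  have h2 := hxe ⟨0, hn⟩
  simp only [zero_add, pow_one] at h2
  rw [hPv] at h1
  have h3 : B ^ (-((n:ℝ) + 1)) < X ^ (-l) := h1.trans_le h2
  have h4 : B ^ (((n:ℝ) + 1) / l) ≤ X := (le_max_right _ _).trans (le_max_right _ _)
  have h5 : B ^ ((n:ℝ) + 1) ≤ X ^ l := by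
    have := Real.rpow_le_rpow (Real.rpow_pos_of_pos hB0 _).le h4 hl0.le
    rw [← Real.rpow_mul hB0.le, div_mul_cancel₀ _ hl0.ne'] at this
    exact this
  have h6 : X ^ (-l) ≤ B ^ (-((n:ℝ) + 1)) := by
    rw [Real.rpow_neg (by linarith), Real.rpow_neg hB0.le]
    exact inv_anti₀ (Real.rpow_pos_of_pos hB0 _) h5
  exact absurd h3 (not_lt.2 h6)

end Pool.Agent.WnG
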