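import Pool.Agent.Lib.WnG.Defs
import Pool.Agent.Lib.WnF.DUpper
import Mathlib.RingTheory.Polynomial.RationalRoot
import Mathlib.RingTheory.Localization.Rat

/-!
# `ŵ_n ≤ n` for numbers with convergents of quality `w ≥ n`

PROOF. Let `r > n` be admissible and `p/q` a convergent with `|q ξ - p| ≤ 2^(w-1) q^(-w)`. A polynomial `F` of height `≤ X = δ q` with
`|F(ξ)| ≤ X^(-r)` satisfies `|F(p/q)| ≤ X^(-r) + C X q^(-w-1) < q^(-n)`, so `F(p/q) = 0` and `q` divides its leading coefficient, which is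
at most `δ q < q` in absolute value: `F = 0`.
-/

set_option autoImplicit false

open Set

namespace Pool.Agent.WnG

open Pool.Agent.WnF (hp)
open Pool.Agent.WnF.DUpperAux

theorem root_lead {F : Polynomial ℤ} {p q : ℤ} (hq : 0 < q) (hpq : IsCoprime p q)
    (h : Polynomial.aeval ((p:ℝ) / q) F = 0) : q ∣ F.leadingCoeff := by
  have h1 : Polynomial.aeval ((p:ℚ) / q) F = 0 := by
    have h2 : Polynomial.aeval (algebraMap ℚ ℝ ((p:ℚ) / q)) F =
        algebraMap ℚ ℝ (Polynomial.aeval ((p:ℚ) / q) F) :=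
      Polynomial.aeval_algebraMap_apply ℝ ((p:ℚ) / q) F
    have h3 : algebraMap ℚ ℝ ((p:ℚ) / q) = (p:ℝ) / q := by simp
    rw [h3, h] at h2
    have h4 : (algebraMap ℚ ℝ) (Polynomial.aeval ((p:ℚ) / q) F) = (algebraMap ℚ ℝ) 0 := by
      rw [← h2, map_zero]
    exact (algebraMap ℚ ℝ).injective h4
  have h2 := den_dvd_of_is_root h1
  have h3 : (((p:ℚ) / q).den : ℤ) = q := by
    apply Rat.den_div_eq_of_coprime hq
    exact Int.isCoprime_iff_gcd_eq_one.1 hpq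
  have h4 := Rat.isFractionRingDen ((p:ℚ) / q)
  have h5 : ((p:ℚ) / q).den = q.natAbs := by
    have : (q.natAbs : ℤ) = q := Int.natAbs_of_nonneg hq.le
    omega
  rw [h5] at h4
  rw [← Int.natAbs_dvd_natAbs, ← h4, Int.natAbs_dvd_natAbs]
  exact h2

/-- the polynomial with given coefficients -/
noncomputable def toP {n : ℕ} (P : Fin (n + 1) → ℤ) : Polynomial ℤ :=
  ∑ i : Fin (n + 1), Polynomial.C (P i) * Polynomial.X ^ (i : ℕ)

theorem toP_coeff {n : ℕ} (P : Fin (n + 1) → ℤ) (k : ℕ) :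
    (toP P).coeff k = if h : k < n + 1 then P ⟨k, h⟩ else 0 := by
  unfold toP
  rw [Polynomial.finset_sum_coeff]
  split_ifs with h
  · rw [Finset.sum_eq_single ⟨k, h⟩]
    · rw [Polynomial.coeff_C_mul_X_pow, if_pos rfl]
    · intro i _ hi
      rw [Polynomial.coeff_C_mul_X_pow, if_neg]
      intro hk
      exact hi (Fin.ext hk.symm)
    · intro h
      exact absurd (Finset.mem_univ _) h
  · refine Finset.sum_eq_zero fun i _ => ?_
    rw [Polynomial.coeff_C_mul_X_pow, if_neg]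
    have := i.2
    omega

theorem toP_aeval {n : ℕ} (P : Fin (n + 1) → ℤ) (x : ℝ) :
    Polynomial.aeval x (toP P) = ∑ j : Fin (n + 1), (P j : ℝ) * x ^ (j : ℕ) := by
  unfold toP
  rw [map_sum]
  refine Finset.sum_congr rfl fun i _ => ?_
  rw [map_mul, Polynomial.aeval_C, map_pow, Polynomial.aeval_X]
  simp

theorem toP_deg {n : ℕ} (P : Fin (n + 1) → ℤ) : (toP P).natDegree ≤ n := by
  rw [Polynomial.natDegree_le_iff_coeff_eq_zero]
  intro k hk
  rw [toP_coeff, dif_neg (by omega)]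

theorem toP_le {n : ℕ} (P : Fin (n + 1) → ℤ) {X : ℝ} (hX : 0 ≤ X) (h : ∀ j, |(P j : ℝ)| ≤ X) (k : ℕ) :
    |((toP P).coeff k : ℝ)| ≤ X := by
  rw [toP_coeff]
  split_ifs with hk
  · exact h _
  · simpa using hX

theorem hwn_le_conv {n : ℕ} {w ξ : ℝ} (hnw : (n:ℝ) ≤ w) (hξ1 : |ξ| ≤ 1)
    (h1 : ∀ N : ℝ, ∃ p q : ℤ, N ≤ q ∧ 0 < q ∧ |p| ≤ q ∧ IsCoprime p q ∧
      |(q:ℝ) * ξ - p| ≤ 2 ^ (w - 1) * (q:ℝ) ^ (-w)) : hwn n ξ ≤ ((n : ℝ) : EReal) := by
  refine sSup_le ?_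
  rintro _ ⟨r, rfl, X₁, hX₁⟩
  rw [EReal.coe_le_coe_iff]
  by_contra hr
  push Not at hr
  have hn0 : (0:ℝ) ≤ n := Nat.cast_nonneg n
  have hr0 : 0 < r := by linarith
  set A : ℝ := ((n:ℝ) + 1) ^ 2 * 2 ^ n * 2 ^ (w - 1) with hA
  have hA0 : 0 < A := by positivity
  set δ : ℝ := min (1 / 2) (1 / (4 * A)) with hδ
  have hδ0 : 0 < δ := lt_min (by norm_num) (by positivity)
  have hδ1 : δ ≤ 1 / 2 := min_le_left _ _
  have hδA : A * δ ≤ 1 / 4 := by
    have : δ ≤ 1 / (4 * A) := min_le_right _ _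
    calc A * δ ≤ A * (1 / (4 * A)) := mul_le_mul_of_nonneg_left this hA0.le
      _ = 1 / 4 := by field_simp
  obtain ⟨N1, hN1⟩ := Filter.eventually_atTop.1
    ((tendsto_rpow_atTop (sub_pos.2 hr)).eventually_ge_atTop (4 * δ ^ (-r)))
  obtain ⟨p, q, hq, hq0, hpq', hpq, hle⟩ := h1 (max (max N1 (X₁ / δ)) 1)
  have hqr : (0:ℝ) < q := by exact_mod_cast hq0
  have hq1 : N1 ≤ q := ((le_max_left _ _).trans (le_max_left _ _)).trans hq
  have hq2 : X₁ / δ ≤ q := ((le_max_right _ _).trans (le_max_left _ _)).trans hq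
  have hq3 : (1:ℝ) ≤ q := (le_max_right _ _).trans hq
  have hX₁' : X₁ ≤ δ * q := by
    rw [div_le_iff₀ hδ0] at hq2
    linarith
  obtain ⟨P, hP1, hP2, hP3⟩ := hX₁ (δ * q) hX₁'
  have hX0 : 0 < δ * (q:ℝ) := by positivity
  set F := toP P with hF
  have hFc : ∀ k, |(F.coeff k : ℝ)| ≤ δ * q := fun k => toP_le P hX0.le hP1 k
  have hhp : hp F ≤ δ * q := ciSup_le hFc
  have hF0 : F ≠ 0 := by
    intro h0
    have h2 : ∑ j : Fin (n + 1), (P j : ℝ) * ξ ^ (j : ℕ) = 0 := by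
      rw [← toP_aeval, ← hF, h0, map_zero]
    rw [h2, abs_zero] at hP2
    exact lt_irrefl _ hP2
  have hroot : Polynomial.aeval ((p:ℝ) / q) F = 0 := by
    by_contra hne
    have h2 := val_ge F n (toP_deg P) p q hq0 hne
    have hpabs : |(p:ℝ) / q| ≤ 2 := by
      rw [abs_div, abs_of_pos hqr, div_le_iff₀ hqr]
      have : (|p| : ℤ) ≤ q := hpq'
      have h3 : ((|p| : ℤ) : ℝ) ≤ q := by exact_mod_cast this
      rw [Int.cast_abs] at h3
      linarith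
    have h3 := diff_le F n (toP_deg P) ξ ((p:ℝ) / q) (by linarith) hpabs
    have h4 : |ξ - (p:ℝ) / q| ≤ 2 ^ (w - 1) * (q:ℝ) ^ (-w) / q := by
      have e : ξ - (p:ℝ) / q = (q * ξ - p) / q := by field_simp
      rw [e, abs_div, abs_of_pos hqr]
      gcongr
    have h5 : ((n:ℝ) + 1) ^ 2 * 2 ^ n * hp F * |ξ - (p:ℝ) / q| ≤ (1 / 4) * (q:ℝ) ^ (-w) := by
      have hhp0 : 0 ≤ hp F := (abs_nonneg _).trans (coeff_le_hp F 0)
      calc ((n:ℝ) + 1) ^ 2 * 2 ^ n * hp F * |ξ - (p:ℝ) / q|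
          ≤ ((n:ℝ) + 1) ^ 2 * 2 ^ n * (δ * q) * (2 ^ (w - 1) * (q:ℝ) ^ (-w) / q) := by gcongr
        _ = (A * δ) * (q:ℝ) ^ (-w) := by
            rw [hA]
            field_simp
        _ ≤ (1 / 4) * (q:ℝ) ^ (-w) := by gcongr
    have h6 : (q:ℝ) ^ (-w) ≤ (q:ℝ) ^ (-(n:ℝ)) :=
      Real.rpow_le_rpow_of_exponent_le hq3 (by linarith)
    have h7 : (δ * (q:ℝ)) ^ (-r) ≤ (1 / 4) * (q:ℝ) ^ (-(n:ℝ)) := by
      have e1 := hN1 q hq1
      rw [Real.mul_rpow hδ0.le hqr.le]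
      have e2 : (q:ℝ) ^ (-(n:ℝ)) = (q:ℝ) ^ (r - n) * (q:ℝ) ^ (-r) := by
        rw [← Real.rpow_add hqr]; congr 1; ring
      rw [e2]
      have e3 : 0 < (q:ℝ) ^ (-r) := by positivity
      nlinarith
    have h8 : ((q:ℝ) ^ n)⁻¹ = (q:ℝ) ^ (-(n:ℝ)) := by
      rw [Real.rpow_neg hqr.le, Real.rpow_natCast]
    rw [h8] at h2
    have h9 : |Polynomial.aeval ((p:ℝ) / q) F| ≤ |Polynomial.aeval ξ F| +
        |Polynomial.aeval ξ F - Polynomial.aeval ((p:ℝ) / q) F| := by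
      have e : Polynomial.aeval ((p:ℝ) / q) F = Polynomial.aeval ξ F -
        (Polynomial.aeval ξ F - Polynomial.aeval ((p:ℝ) / q) F) := by ring
      calc |Polynomial.aeval ((p:ℝ) / q) F| = |Polynomial.aeval ξ F -
            (Polynomial.aeval ξ F - Polynomial.aeval ((p:ℝ) / q) F)| := by rw [← e]
        _ ≤ _ := abs_sub _ _
    have h10 : |Polynomial.aeval ξ F| ≤ (δ * (q:ℝ)) ^ (-r) := by
      rw [hF, toP_aeval]
      exact hP3
    have h11 : 0 < (q:ℝ) ^ (-(n:ℝ)) := by positivity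
    linarith
  have hdvd := root_lead hq0 hpq hroot
  have hlc : F.leadingCoeff ≠ 0 := Polynomial.leadingCoeff_ne_zero.2 hF0
  have h2 : q ≤ |F.leadingCoeff| := by
    have h3 := Int.natAbs_dvd_natAbs.2 hdvd
    have h4 := Nat.le_of_dvd (Int.natAbs_pos.2 hlc) h3
    have h5 : (q.natAbs : ℤ) = q := Int.natAbs_of_nonneg hq0.le
    rw [Int.abs_eq_natAbs]
    omega
  have h3 : (q:ℝ) ≤ |(F.leadingCoeff : ℝ)| := by exact_mod_cast h2
  have h4 := hFc F.natDegree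
  have h5 : (F.coeff F.natDegree : ℝ) = (F.leadingCoeff : ℝ) := rfl
  rw [h5] at h4
  nlinarith

end Pool.Agent.WnG
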