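import Pool.Agent.Lib.WnG.Val2
import Pool.Agent.Lib.WnG.Val3

/-!
# `w_n` and `ŵ_n` of one number, for all `n`
-/

set_option autoImplicit false

namespace Pool.Agent.WnG

open Pool.Agent.WnF (wx)

theorem all_two (w : ℝ) (hw : 1 ≤ w) : ∃ ξ : ℝ, Transcendental ℚ ξ ∧ ∀ n : ℕ, 1 ≤ n →
    wx n ξ = ((max w n : ℝ) : EReal) ∧ hwn n ξ = ((n : ℝ) : EReal) := by
  obtain ⟨ξ, hξ, hξ1, hconv, hgood⟩ := exists_all0 w hw
  refine ⟨ξ, hξ, fun n hn => ⟨?_, ?_⟩⟩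
  · refine wx_val hn hw hξ (fun N => ?_) (hgood n)
    obtain ⟨p, q, a, b, -, -, e, f⟩ := hconv N
    refine ⟨p, q, a, lt_of_lt_of_le ?_ e, f⟩
    have : (0:ℝ) < q := by exact_mod_cast b
    positivity
  · refine le_antisymm ?_ (hwn_ge hn hξ)
    rcases le_total (n:ℝ) w with h | h
    · refine hwn_le_conv h hξ1 fun N => ?_
      obtain ⟨p, q, a, b, c, d, -, f⟩ := hconv N
      exact ⟨p, q, a, b, c, d, f⟩
    · exact hwn_le_good hw h (hgood n)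

end Pool.Agent.WnG
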