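import Pool.Agent.Lib.WnG.Val
import Pool.Agent.Lib.WnF.DUpper

/-!
# `w_n^* ≤ max (w, n)`

PROOF. Let `r > max (w, n)` and suppose there are infinitely many `α` with `0 < |ξ - α| ≤ H(α)^(-r-1)`. The heights are unbounded, and for the
minimal polynomial `P` of `α`, `H = H(P)` large, `|P(ξ)| ≤ C H |ξ - α| ≤ C H^(-r)`, against `good_low`.
-/

set_option autoImplicit false

open Set

namespace Pool.Agent.WnG

open Pool.Agent.WnF (hp pv)

/-- The algebraic numbers `α` of degree `≤ n` with `0 < |ξ - α| ≤ H(α)^(-r-1)`. -/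
def algs (n : ℕ) (ξ r : ℝ) : Set ℂ :=
  {α | ∃ P : Polynomial ℤ, Irreducible P ∧ P.natDegree ≤ n ∧ Polynomial.aeval α P = 0 ∧
    0 < ‖(ξ : ℂ) - α‖ ∧ ‖(ξ : ℂ) - α‖ ≤ (hp P) ^ (-r - 1)}

/-- The exponent `w_n^*(ξ)`. -/
noncomputable def wst (n : ℕ) (ξ : ℝ) : EReal :=
  sSup {l : EReal | ∃ r : ℝ, l = r ∧ (algs n ξ r).Infinite}

namespace Val4Aux

open Pool.Agent.WnF.DUpperAux

theorem pow_sub_leC (x y : ℂ) (hx : ‖x‖ ≤ 2) (hy : ‖y‖ ≤ 2) (i : ℕ) :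
    ‖x ^ i - y ^ i‖ ≤ i * 2 ^ i * ‖x - y‖ := by
  induction i with
  | zero => simp
  | succ i ih =>
    have e : x ^ (i + 1) - y ^ (i + 1) = x * (x ^ i - y ^ i) + y ^ i * (x - y) := by ring
    rw [e]
    refine (norm_add_le _ _).trans ?_
    rw [norm_mul, norm_mul, norm_pow]
    have h1 : ‖y‖ ^ i ≤ 2 ^ i := pow_le_pow_left₀ (norm_nonneg _) hy i
    have h2 : ‖x‖ * ‖x ^ i - y ^ i‖ ≤ 2 * (i * 2 ^ i * ‖x - y‖) :=
      mul_le_mul hx ih (norm_nonneg _) (by norm_num)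
    have h3 : ‖y‖ ^ i * ‖x - y‖ ≤ 2 ^ i * ‖x - y‖ := mul_le_mul_of_nonneg_right h1 (norm_nonneg _)
    have h4 : 0 ≤ 2 ^ i * ‖x - y‖ := by positivity
    have e2 : ((i + 1 : ℕ) : ℝ) * 2 ^ (i + 1) * ‖x - y‖ =
        2 * (i * 2 ^ i * ‖x - y‖) + 2 * (2 ^ i * ‖x - y‖) := by
      push_cast
      ring
    rw [e2]
    linarith

theorem ev_eqC (P : Polynomial ℤ) (n : ℕ) (hn : P.natDegree ≤ n) (x : ℂ) :
    Polynomial.aeval x P = ∑ i ∈ Finset.range (n + 1), (P.coeff i : ℂ) * x ^ i := by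
  rw [Polynomial.aeval_eq_sum_range' (Nat.lt_succ_of_le hn)]
  refine Finset.sum_congr rfl fun i _ => ?_
  rw [zsmul_eq_mul]

theorem diff_leC (P : Polynomial ℤ) (n : ℕ) (hn : P.natDegree ≤ n) (x y : ℂ) (hx : ‖x‖ ≤ 2)
    (hy : ‖y‖ ≤ 2) : ‖Polynomial.aeval x P - Polynomial.aeval y P‖ ≤
      ((n:ℝ) + 1) ^ 2 * 2 ^ n * hp P * ‖x - y‖ := by
  rw [ev_eqC P n hn, ev_eqC P n hn, ← Finset.sum_sub_distrib]
  refine (norm_sum_le _ _).trans ?_
  have h0 : 0 ≤ hp P := (abs_nonneg _).trans (coeff_le_hp P 0)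
  have h1 : ∀ i ∈ Finset.range (n + 1), ‖(P.coeff i : ℂ) * x ^ i - (P.coeff i : ℂ) * y ^ i‖ ≤
      ((n:ℝ) + 1) * 2 ^ n * hp P * ‖x - y‖ := by
    intro i hi
    rw [Finset.mem_range] at hi
    have hi' : (i:ℝ) ≤ n + 1 := by exact_mod_cast hi.le
    have h2 : (2:ℝ) ^ i ≤ 2 ^ n := pow_le_pow_right₀ (by norm_num) (by omega)
    rw [← mul_sub, norm_mul]
    have h3 : ‖(P.coeff i : ℂ)‖ ≤ hp P := by
      rw [Complex.norm_intCast]
      exact coeff_le_hp P i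
    calc ‖(P.coeff i : ℂ)‖ * ‖x ^ i - y ^ i‖ ≤ hp P * (i * 2 ^ i * ‖x - y‖) :=
          mul_le_mul h3 (pow_sub_leC x y hx hy i) (norm_nonneg _) h0
      _ ≤ hp P * (((n:ℝ) + 1) * 2 ^ n * ‖x - y‖) := by
          apply mul_le_mul_of_nonneg_left _ h0
          apply mul_le_mul_of_nonneg_right _ (norm_nonneg _)
          exact mul_le_mul hi' h2 (by positivity) (by positivity)
      _ = _ := by ring
  refine (Finset.sum_le_sum h1).trans (le_of_eq ?_)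
  rw [Finset.sum_const, Finset.card_range, nsmul_eq_mul]
  push_cast
  ring

/-- finitely many integer polynomials of bounded degree and height -/
theorem finite_hp (n : ℕ) (B : ℝ) : {P : Polynomial ℤ | P.natDegree ≤ n ∧ hp P ≤ B}.Finite := by
  have hinj : Set.InjOn (fun P : Polynomial ℤ => fun i : Fin (n + 1) => P.coeff (i : ℕ))
      {P : Polynomial ℤ | P.natDegree ≤ n ∧ hp P ≤ B} := by
    intro P hP Q hQ h
    ext k
    rcases Nat.lt_or_ge k (n + 1) with hk | hk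
    · exact congrFun h ⟨k, hk⟩
    · rw [Polynomial.coeff_eq_zero_of_natDegree_lt (lt_of_le_of_lt hP.1 (by omega)),
        Polynomial.coeff_eq_zero_of_natDegree_lt (lt_of_le_of_lt hQ.1 (by omega))]
  refine Set.Finite.of_finite_image ?_ hinj
  refine (Set.finite_Icc (fun _ : Fin (n + 1) => -⌈B⌉) (fun _ => ⌈B⌉)).subset ?_
  rintro _ ⟨P, hP, rfl⟩
  have h1 : ∀ i : Fin (n + 1), |P.coeff (i : ℕ)| ≤ ⌈B⌉ := by
    intro i
    have h2 : |(P.coeff (i : ℕ) : ℝ)| ≤ ⌈B⌉ := ((coeff_le_hp P i).trans hP.2).trans (Int.le_ceil B)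
    exact_mod_cast h2
  rw [Set.mem_Icc]
  exact ⟨fun i => (abs_le.1 (h1 i)).1, fun i => (abs_le.1 (h1 i)).2⟩

/-- the heights are unbounded -/
theorem unbdd {n : ℕ} {ξ r : ℝ} (h : (algs n ξ r).Infinite) (B : ℝ) :
    ∃ α : ℂ, ∃ P : Polynomial ℤ, Irreducible P ∧ P.natDegree ≤ n ∧ Polynomial.aeval α P = 0 ∧
      0 < ‖(ξ : ℂ) - α‖ ∧ ‖(ξ : ℂ) - α‖ ≤ (hp P) ^ (-r - 1) ∧ B < hp P := by
  by_contra hcon
  push Not at hcon
  apply h
  have hfin : (⋃ P ∈ {P : Polynomial ℤ | P.natDegree ≤ n ∧ hp P ≤ B},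
      {α : ℂ | P ≠ 0 ∧ Polynomial.aeval α P = 0}).Finite := by
    refine (finite_hp n B).biUnion fun P _ => ?_
    rcases eq_or_ne P 0 with h0 | h0
    · refine Set.Finite.subset Set.finite_empty ?_
      rintro α ⟨h1, _⟩
      exact absurd h0 h1
    · refine Set.Finite.subset ((P.map (Int.castRingHom ℂ)).roots.toFinset.finite_toSet) ?_
      rintro α ⟨_, h1⟩
      rw [Finset.mem_coe, Multiset.mem_toFinset, Polynomial.mem_roots_map_of_injective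
        (RingHom.injective_int (Int.castRingHom ℂ)) h0]
      rw [← h1]
      rfl
  refine hfin.subset ?_
  rintro α ⟨P, h1, h2, h3, h4, h5⟩
  rw [Set.mem_iUnion₂]
  exact ⟨P, ⟨h2, hcon α P h1 h2 h3 h4 h5⟩, h1.ne_zero, h3⟩

end Val4Aux

open Val4Aux Pool.Agent.WnF.DUpperAux

theorem wst_le (n : ℕ) {w ξ : ℝ} (hw : 1 ≤ w) (hξ1 : |ξ| ≤ 1)
    (h2 : ∀ ε : ℝ, 0 < ε → ∃ H₀ : ℝ, ∀ H : ℝ, H₀ ≤ H → Good n w ξ ε H) :
    wst n ξ ≤ ((max w n : ℝ) : EReal) := by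
  refine sSup_le ?_
  rintro _ ⟨r, rfl, hinf⟩
  rw [EReal.coe_le_coe_iff]
  by_contra hr
  push Not at hr
  have hM : 1 ≤ max w (n:ℝ) := hw.trans (le_max_left _ _)
  obtain ⟨r', hr1, hr2⟩ := exists_between hr
  obtain ⟨X₀, hX₀, h⟩ := good_low n hw h2 hr1
  set A : ℝ := ((n:ℝ) + 1) ^ 2 * 2 ^ n with hA
  have hA0 : 0 < A := by positivity
  obtain ⟨N1, hN1⟩ := Filter.eventually_atTop.1
    ((tendsto_rpow_atTop (sub_pos.2 hr2)).eventually_ge_atTop A)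
  obtain ⟨α, P, hP, hdeg, hroot, hpos, hle, hB⟩ := unbdd hinf (max (max N1 X₀) 1)
  have hH1 : N1 ≤ hp P := ((le_max_left _ _).trans (le_max_left _ _)).trans hB.le
  have hH2 : X₀ ≤ hp P := ((le_max_right _ _).trans (le_max_left _ _)).trans hB.le
  have hH3 : 1 ≤ hp P := (le_max_right _ _).trans hB.le
  have hH0 : 0 < hp P := by linarith
  have hsmall : ‖(ξ : ℂ) - α‖ ≤ 1 :=
    hle.trans (Real.rpow_le_one_of_one_le_of_nonpos hH3 (by linarith))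
  have hξn : ‖(ξ : ℂ)‖ ≤ 1 := by rw [Complex.norm_real]; exact hξ1
  have hαn : ‖α‖ ≤ 2 := by
    have e : α = (ξ : ℂ) - ((ξ : ℂ) - α) := by ring
    calc ‖α‖ = ‖(ξ : ℂ) - ((ξ : ℂ) - α)‖ := by rw [← e]
      _ ≤ ‖(ξ : ℂ)‖ + ‖(ξ : ℂ) - α‖ := norm_sub_le _ _
      _ ≤ 2 := by linarith
  have h3 := diff_leC P n hdeg (ξ : ℂ) α (by linarith) hαn
  rw [hroot, sub_zero] at h3
  have h4 : ‖Polynomial.aeval (ξ : ℂ) P‖ = |Polynomial.aeval ξ P| := by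
    have e : Polynomial.aeval (ξ : ℂ) P = ((Polynomial.aeval ξ P : ℝ) : ℂ) :=
      Polynomial.aeval_algebraMap_apply ℂ ξ P
    rw [e, Complex.norm_real, Real.norm_eq_abs]
  rw [h4] at h3
  have hPv : pv (fun i : Fin (n + 1) => P.coeff (i : ℕ)) ξ = Polynomial.aeval ξ P := by
    rw [ev_eq P n hdeg]
    unfold pv
    exact Fin.sum_univ_eq_sum_range (fun i => (P.coeff i : ℝ) * ξ ^ i) (n + 1)
  have hP0 : (fun i : Fin (n + 1) => P.coeff (i : ℕ)) ≠ 0 := by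
    intro h0
    apply hP.ne_zero
    ext k
    rcases Nat.lt_or_ge k (n + 1) with hk | hk
    · exact congrFun h0 ⟨k, hk⟩
    · rw [Polynomial.coeff_eq_zero_of_natDegree_lt (lt_of_le_of_lt hdeg (by omega)), Polynomial.coeff_zero]
  have h5 := h (hp P) hH2 (fun i : Fin (n + 1) => P.coeff (i : ℕ)) hP0 (fun i => coeff_le_hp P i)
  rw [hPv] at h5
  have h6 : |Polynomial.aeval ξ P| ≤ (hp P) ^ (-r') := by
    refine h3.trans ?_
    calc ((n:ℝ) + 1) ^ 2 * 2 ^ n * hp P * ‖(ξ : ℂ) - α‖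
        ≤ ((n:ℝ) + 1) ^ 2 * 2 ^ n * hp P * (hp P) ^ (-r - 1) := by gcongr
      _ = A * (hp P) ^ (-r) := by
          have e : (hp P) ^ (-r) = hp P * (hp P) ^ (-r - 1) := by
            rw [← Real.rpow_one_add' hH0.le (by linarith)]
            congr 1
            ring
          rw [e, hA]
          ring
      _ ≤ (hp P) ^ (r - r') * (hp P) ^ (-r) := by
          apply mul_le_mul_of_nonneg_right (hN1 _ hH1)
          positivity
      _ = _ := by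
          rw [← Real.rpow_add hH0]
          congr 1
          ring
  linarith

end Pool.Agent.WnG
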