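import Pool.Agent.Lib.WnG.DConcl
import Pool.Agent.Lib.WnG.AllMain
import Pool.Agent.Lib.WnG.Val4

/-!
# `w_n^* = max (w, n)` for the number of `exists_all2`
-/

set_option autoImplicit false

open Set

namespace Pool.Agent.WnG

open Pool.Agent.WnF (wx Appr hp)

/-- Approximations at arbitrarily large `X` give infinitely many algebraic numbers. -/
theorem algs_of_appr {n : ℕ} {ξ v : ℝ} (hv : 0 < v) (h : ∀ N : ℝ, ∃ X : ℝ, N ≤ X ∧ Appr n ξ v X) :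
    (algs n ξ v).Infinite := by
  intro hfin
  -- a positive lower bound for the distances
  obtain ⟨δ, hδ, hδ2⟩ : ∃ δ : ℝ, 0 < δ ∧ ∀ α ∈ algs n ξ v, δ ≤ ‖(ξ : ℂ) - α‖ := by
    rcases (algs n ξ v).eq_empty_or_nonempty with he | hne
    · exact ⟨1, one_pos, fun α hα => by rw [he] at hα; exact absurd hα (notMem_empty _)⟩
    · obtain ⟨β, hβ, hmin⟩ := Set.exists_min_image (algs n ξ v) (fun α => ‖(ξ : ℂ) - α‖) hfin hne
      obtain ⟨-, -, -, -, h1, -⟩ := hβ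
      exact ⟨‖(ξ : ℂ) - β‖, h1, hmin⟩
  obtain ⟨N₀, hN₀⟩ := Filter.eventually_atTop.1
    ((tendsto_rpow_atTop hv).eventually_gt_atTop (1 / δ))
  obtain ⟨X, hX, R, hR1, hR2, hR3, α, hα1, hα2, hα3⟩ := h (max N₀ 1)
  have hX1 : 1 ≤ X := (le_max_right _ _).trans hX
  have hX0 : 0 < X := by linarith
  have hXN := hN₀ X ((le_max_left _ _).trans hX)
  have h1 := Pool.Agent.WnF.DLevelAux.one_le_hp R hR1.ne_zero
  have hn : ‖(ξ : ℂ) - (α : ℂ)‖ = |ξ - α| := by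
    rw [← Complex.ofReal_sub, Complex.norm_real, Real.norm_eq_abs]
  have hmem : (α : ℂ) ∈ algs n ξ v := by
    refine ⟨R, hR1, hR2, ?_, ?_, ?_⟩
    · have e : Polynomial.aeval (α : ℂ) R = ((Polynomial.aeval α R : ℝ) : ℂ) :=
        Polynomial.aeval_algebraMap_apply ℂ α R
      rw [e, hα1, Complex.ofReal_zero]
    · rw [hn]
      exact hα2
    · rw [hn]
      refine hα3.trans ?_
      have e : (hp R) ^ (-v - 1) = (hp R)⁻¹ * (hp R) ^ (-v) := by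
        rw [Real.rpow_sub_one (by linarith), div_eq_inv_mul]
      rw [e]
      exact mul_le_mul_of_nonneg_left (Real.rpow_le_rpow_of_nonpos (by linarith) hR3 (by linarith)) (by positivity)
  have h2 := hδ2 _ hmem
  rw [hn] at h2
  have h3 : |ξ - α| ≤ X ^ (-v) := by
    refine hα3.trans (mul_le_of_le_one_left (by positivity) (inv_le_one_of_one_le₀ h1))
  have h4 : X ^ (-v) < δ := by
    rw [Real.rpow_neg hX0.le, inv_lt_comm₀ (by positivity) hδ]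
    rw [one_div] at hXN
    exact hXN
  linarith

theorem wst_ge {n : ℕ} {w ξ : ℝ} (hw : 1 ≤ w)
    (h : ∀ v : ℝ, v < max w n → ∀ N : ℝ, ∃ X : ℝ, N ≤ X ∧ Appr n ξ v X) :
    ((max w n : ℝ) : EReal) ≤ wst n ξ := by
  have hM : 1 ≤ max w (n:ℝ) := hw.trans (le_max_left _ _)
  refine le_of_forall_lt fun c hc => ?_
  obtain ⟨x, hx1, hx2⟩ := EReal.lt_iff_exists_real_btwn.1 hc
  have hx2' : x < max w (n:ℝ) := EReal.coe_lt_coe_iff.1 hx2
  set v : ℝ := max x (1 / 2) with hv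
  have hv0 : 0 < v := lt_of_lt_of_le (by norm_num) (le_max_right _ _)
  have hvM : v < max w (n:ℝ) := max_lt hx2' (by linarith)
  have h5 : ((v : ℝ) : EReal) ≤ wst n ξ := le_sSup ⟨_, rfl, algs_of_appr hv0 (h v hvM)⟩
  refine lt_of_lt_of_le (lt_of_lt_of_le hx1 ?_) h5
  exact EReal.coe_le_coe_iff.2 (le_max_left _ _)

/-- `w_n`, `w_n^*` and `ŵ_n` of one number for all `n`, together with the data for the other exponents. -/
theorem all_three (w : ℝ) (hw : 1 ≤ w) : ∃ ξ : ℝ, Transcendental ℚ ξ ∧ |ξ| ≤ 1 ∧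
    (∀ N : ℝ, ∃ p q : ℤ, N ≤ q ∧ 0 < q ∧ |p| ≤ q ∧ IsCoprime p q ∧
      1 / 3 * (q:ℝ) ^ (-w) ≤ |(q:ℝ) * ξ - p| ∧ |(q:ℝ) * ξ - p| ≤ 2 ^ (w - 1) * (q:ℝ) ^ (-w)) ∧
    (∀ n : ℕ, ∀ ε : ℝ, 0 < ε → ∃ H₀ : ℝ, ∀ H : ℝ, H₀ ≤ H → Good n w ξ ε H) ∧ ∀ n : ℕ, 1 ≤ n →
    wx n ξ = ((max w n : ℝ) : EReal) ∧ wst n ξ = ((max w n : ℝ) : EReal) ∧ hwn n ξ = ((n : ℝ) : EReal) := by
  obtain ⟨ξ, hξ, hξ1, hconv, hgood, happr⟩ := exists_all2 w hw
  refine ⟨ξ, hξ, hξ1, hconv, hgood, fun n hn => ⟨?_, ?_, ?_⟩⟩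
  · refine wx_val hn hw hξ (fun N => ?_) (hgood n)
    obtain ⟨p, q, a, b, -, -, e, f⟩ := hconv N
    refine ⟨p, q, a, lt_of_lt_of_le ?_ e, f⟩
    have : (0:ℝ) < q := by exact_mod_cast b
    positivity
  · exact le_antisymm (wst_le n hw hξ1 (hgood n)) (wst_ge hw (happr n hn))
  · refine le_antisymm ?_ (hwn_ge hn hξ)
    rcases le_total (n:ℝ) w with h | h
    · refine hwn_le_conv h hξ1 fun N => ?_
      obtain ⟨p, q, a, b, c, d, -, f⟩ := hconv N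
      exact ⟨p, q, a, b, c, d, f⟩
    · exact hwn_le_good hw h (hgood n)

end Pool.Agent.WnG
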