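import Pool.Agent.Lib.WnG.Val2
import Pool.Agent.Lib.WnG.Val3
import Pool.Agent.Lib.WnG.Star
import Pool.Agent.Lib.WnG.LamLow
import Pool.Agent.Lib.WnG.LamHat

/-!
# The four exponents of one number, for all `n`
-/

set_option autoImplicit false

namespace Pool.Agent.WnG

open Pool.Agent.WnF (wx)

theorem all_four (w : ℝ) (hw : 1 ≤ w) : ∃ ξ : ℝ, Transcendental ℚ ξ ∧ ∀ n : ℕ, 1 ≤ n →
    wx n ξ = ((max w n : ℝ) : EReal) ∧ wst n ξ = ((max w n : ℝ) : EReal) ∧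
    hwn n ξ = ((n : ℝ) : EReal) ∧ hlam n ξ = ((1 / n : ℝ) : EReal) := by
  obtain ⟨ξ, hξ, hξ1, hconv, hgood, happr⟩ := exists_all2 w hw
  have hconv' : ∀ N : ℝ, ∃ p q : ℤ, N ≤ q ∧ 0 < q ∧ |p| ≤ q ∧ IsCoprime p q ∧
      |(q:ℝ) * ξ - p| ≤ 2 ^ (w - 1) * (q:ℝ) ^ (-w) := by
    intro N
    obtain ⟨p, q, a, b, c, d, -, f⟩ := hconv N
    exact ⟨p, q, a, b, c, d, f⟩
  have hirr : Irrational ξ := hξ.irrational
  refine ⟨ξ, hξ, fun n hn => ⟨?_, ?_, ?_, ?_⟩⟩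
  · refine wx_val hn hw hξ (fun N => ?_) (hgood n)
    obtain ⟨p, q, a, b, -, -, e, f⟩ := hconv N
    refine ⟨p, q, a, lt_of_lt_of_le ?_ e, f⟩
    have : (0:ℝ) < q := by exact_mod_cast b
    positivity
  · exact le_antisymm (wst_le n hw hξ1 (hgood n)) (wst_ge hw (happr n hn))
  · refine le_antisymm ?_ (hwn_ge hn hξ)
    rcases le_total (n:ℝ) w with h | h
    · exact hwn_le_conv h hξ1 hconv'
    · exact hwn_le_good hw h (hgood n)
  · refine le_antisymm ?_ (hlam_ge hn ξ)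
    rcases le_total (n:ℝ) w with h | h
    · exact hlam_le_conv hn h hξ1 hconv'
    · refine hlam_le_low n hn ξ hirr fun r hr => ?_
      obtain ⟨X₀, -, h1⟩ := good_low n hw (hgood n) (r := r) (by rw [max_eq_right h]; exact hr)
      exact ⟨X₀, h1⟩

end Pool.Agent.WnG
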