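import Pool.Agent.Lib.WnG.DConcl
import Pool.Agent.Lib.WnF.DConcl

/-!
# One number for all degrees: uniform approximations by algebraic numbers

`exists_all3`: the number of `exists_all2`, with the dually bad points of the degrees `n ≤ w` (`WnF.DBadPt`) avoided as well.
The intervals `[Q_k^(B e_k), Q_(k+1)^(1/(2(n+1)))]` cover a half-line.
-/

set_option autoImplicit false

open MeasureTheory Set

namespace Pool.Agent.WnG

open Pool.Agent.WnF (Small St sc pv sq Rare stab_eta dualP one_le_sc sc_le dist_conv Appr hp DSmall dstab_eta dualQ root lt_two_sc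
  DBadPt be be_nonneg)
open Pool.Agent.WnF.DLevelAux (ev q_pos xi_bounds rational one_le_hp find_h)

/-- The value of `ŵ_n^*`: `w/(w+1-n)` for `n ≤ w`, and `n` for `n > w`. -/
noncomputable def vst (n : ℕ) (w : ℝ) : ℝ := if (n:ℝ) ≤ w then w / (w + 1 - n) else n

/-- The constant `3 (1 + |β|)`. -/
noncomputable def Bn (n : ℕ) (w : ℝ) : ℝ := 3 * (1 + |be n w|)

theorem Bn_ge (n : ℕ) (w : ℝ) : 3 ≤ Bn n w := by
  unfold Bn
  have := abs_nonneg (be n w)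
  linarith

/-- The dually bad points of the degrees `n ≤ w`. -/
def Dbp (n : ℕ) (w c ε Q : ℝ) (x : ℝ × ℝ) : Prop := 1 ≤ n ∧ (n:ℝ) ≤ w ∧ DBadPt n w c ε Q x

theorem dbp_rare (n : ℕ) (w : ℝ) (_hw : 1 ≤ w) : ∃ c : ℝ, 0 < c ∧ c ≤ 1 ∧
    ∀ ε : ℝ, 0 < ε → Rare (Dbp n w c ε) := by
  by_cases hcase : 1 ≤ n ∧ (n:ℝ) ≤ w
  swap
  · refine ⟨1, one_pos, le_rfl, fun ε _ => ⟨0, 1, one_pos, fun Q _ => ?_⟩⟩
    have e : {x : ℝ × ℝ | x ∈ sq ∧ ∃ κ' : ℝ, |κ' - x.1| ≤ 1 / (8 * Q ^ 2) ∧ Dbp n w 1 ε Q (κ', x.2)} = ∅ := by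
      rw [Set.eq_empty_iff_forall_notMem]
      rintro x ⟨_, _, _, h1, h2, _⟩
      exact hcase ⟨h1, h2⟩
    rw [e, measure_empty]
    exact zero_le
  obtain ⟨hn, hwn⟩ := hcase
  obtain ⟨c, hc, hc1, h⟩ := Pool.Agent.WnF.dbad_rare n hn w hwn
  refine ⟨c, hc, hc1, fun ε hε => ?_⟩
  have e : Dbp n w c ε = DBadPt n w c ε := by
    funext Q x
    exact propext ⟨fun h => h.2.2, fun h => ⟨hn, hwn, h⟩⟩
  rw [e]
  exact h ε hε

/-- One level, degrees `n ≥ w`, all `X` in the interval. -/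
theorem dlevelX (n : ℕ) (hn : 1 ≤ n) (w : ℝ) (hw : 1 ≤ w) (hwn : w ≤ (n:ℝ)) (c : ℝ) (hc : 0 < c) (hc1 : c ≤ 1)
    (v : ℝ) (hv : v < n) : ∃ e₀ N₀ : ℝ, 0 < e₀ ∧
    ∀ (S : St) (ε Q' s s' ξ : ℝ), 0 < ε → ε ≤ e₀ → N₀ ≤ (sc S.q) ^ ε → sc S.q ≤ Q' →
      s ∈ Icc (0:ℝ) 1 → s' ∈ Icc (0:ℝ) 1 → ¬ DBad n w c ε (sc S.q) (S.κ, s) →
      Transcendental ℚ ξ → ξ = S.mob (S.E w * (2 + s')) → |s' - s| ≤ 1 / Q' →
      ∀ X : ℝ, (sc S.q) ^ (3 * ε) ≤ X → X ≤ Q' ^ (1 / (2 * ((n:ℝ) + 1))) → Appr n ξ v X := by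
  have hn1 : (1:ℝ) ≤ n := by exact_mod_cast hn
  obtain ⟨K, C1, A, N1, hK, hC1, hA, hL⟩ := caseL n hn w hw hwn c hc hc1
  set v' : ℝ := max v 0 with hv'd
  have hv'0 : 0 ≤ v' := le_max_right _ _
  have hv' : v' < n := max_lt hv (by linarith)
  obtain ⟨g, hg⟩ : ∃ g : ℝ, g = n - v' := ⟨_, rfl⟩
  have hg0 : 0 < g := by linarith
  obtain ⟨Na, _, hNa⟩ := ev (K * A * A ^ v' * 2 ^ (2 * v')) (g / 2) (by linarith)
  refine ⟨min 1 (g / (2 * (1 + v'))), max (max Na (A * 4)) (max N1 (C1 ^ 2)), ?_, ?_⟩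
  · exact lt_min one_pos (by positivity)
  intro S ε Q' s s' ξ hε hεe hN hQQ' hs hs' hbad htr hξ hss X hX1 hX2
  have hε1 : ε ≤ 1 := hεe.trans (min_le_left _ _)
  have hεg : ε * (1 + v') ≤ g / 2 := by
    have h1 : ε ≤ g / (2 * (1 + v')) := hεe.trans (min_le_right _ _)
    rw [le_div_iff₀ (by positivity)] at h1
    linarith
  have hQ1 := one_le_sc S.q
  set Q : ℝ := sc S.q with hQ
  have hQ0 : 0 < Q := by linarith
  have hQe1 : 1 ≤ Q ^ ε := Real.one_le_rpow hQ1 hε.le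
  have hQeQ : Q ^ ε ≤ Q := by
    calc Q ^ ε ≤ Q ^ (1:ℝ) := Real.rpow_le_rpow_of_exponent_le hQ1 hε1
      _ = Q := Real.rpow_one Q
  have hNa' : Na ≤ Q ^ ε := ((le_max_left _ _).trans (le_max_left _ _)).trans hN
  have hAA : A * 4 ≤ Q ^ ε := ((le_max_right _ _).trans (le_max_left _ _)).trans hN
  have hN1' : N1 ≤ Q ^ ε := ((le_max_left _ _).trans (le_max_right _ _)).trans hN
  have hC1' : C1 ^ 2 ≤ Q ^ ε := ((le_max_right _ _).trans (le_max_right _ _)).trans hN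
  have hA0 : 0 < A := by linarith
  -- X is large
  have hXbig : A * (2 * Q ^ ε) ^ (2:ℝ) ≤ X := by
    refine le_trans ?_ hX1
    have h1 : (2 * Q ^ ε) ^ (2:ℝ) = 4 * (Q ^ ε) ^ (2:ℝ) := by
      rw [Real.mul_rpow (by norm_num) (by linarith)]
      norm_num
    have h3 : Q ^ (3 * ε) = Q ^ ε * (Q ^ ε) ^ (2:ℝ) := by
      rw [← Real.rpow_mul hQ0.le, ← Real.rpow_add hQ0]
      congr 1
      ring
    rw [h1, h3, ← mul_assoc]
    exact mul_le_mul_of_nonneg_right hAA (by positivity)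
  have hAX : A ≤ X := by
    refine le_trans ?_ hXbig
    have : 1 ≤ (2 * Q ^ ε) ^ (2:ℝ) := Real.one_le_rpow (by linarith) (by linarith)
    nlinarith
  have hX0 : 0 < X := by linarith
  have ha1 : 1 ≤ 1 + ε := by linarith
  obtain ⟨h, hh1, hh2⟩ := find_h A (1 + ε) X hA ha1 hAX
  set H : ℝ := (2:ℝ) ^ h with hH
  have hH1 : 1 ≤ H := one_le_pow₀ (by norm_num)
  have hH0 : 0 < H := by linarith
  set a : ℝ := 1 + ε with ha
  have hHa : H ≤ H ^ a := Real.self_le_rpow_of_one_le hH1 ha1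
  have hHX : 2 * H ≤ X := by
    refine le_trans ?_ hh1
    exact mul_le_mul hA hHa hH0.le hA0.le
  have hHQ : Q ^ ε ≤ H := by
    by_contra hlt
    push Not at hlt
    have h1 : A * (2 * H) ^ a ≤ A * (2 * Q ^ ε) ^ (2:ℝ) := by
      apply mul_le_mul_of_nonneg_left _ hA0.le
      calc (2 * H) ^ a ≤ (2 * Q ^ ε) ^ a :=
            Real.rpow_le_rpow (by positivity) (by linarith) (by linarith)
        _ ≤ (2 * Q ^ ε) ^ (2:ℝ) :=
            Real.rpow_le_rpow_of_exponent_le (by linarith) (by rw [ha]; linarith)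
    linarith
  have hQ'0 : 0 < Q' := by linarith
  have hC1H : C1 * H ^ (n + 1) * |s' - s| ≤ 1 := by
    have h1 : H ^ (n + 1) ≤ √Q' := by
      calc H ^ (n + 1) ≤ X ^ (n + 1) := pow_le_pow_left₀ hH0.le (by linarith) _
        _ ≤ (Q' ^ (1 / (2 * ((n:ℝ) + 1)))) ^ (n + 1) := pow_le_pow_left₀ hX0.le hX2 _
        _ = √Q' := by
            rw [← Real.rpow_natCast, ← Real.rpow_mul hQ'0.le, Real.sqrt_eq_rpow]
            congr 1
            push_cast
            field_simp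
    have h2 : C1 ≤ √Q' := Real.le_sqrt_of_sq_le (by linarith)
    have h3 : √Q' * √Q' = Q' := Real.mul_self_sqrt hQ'0.le
    calc C1 * H ^ (n + 1) * |s' - s| ≤ √Q' * √Q' * (1 / Q') := by
          apply mul_le_mul (mul_le_mul h2 h1 (by positivity) (by positivity)) hss (abs_nonneg _)
            (by positivity)
      _ = 1 := by rw [h3]; field_simp
  have hX1' : 1 ≤ X := by linarith
  have h2a : (2:ℝ) ^ (a * v') ≤ 2 ^ (2 * v') := by
    apply Real.rpow_le_rpow_of_exponent_le (by norm_num)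
    apply mul_le_mul_of_nonneg_right _ hv'0
    rw [ha]
    linarith
  obtain ⟨R, hR1, hR2, hR3, α, hα1, hα2, hα3⟩ := hL S ε s s' ξ h hε hs hs' hbad htr hξ hHQ
    hC1H (hN1'.trans hHQ)
  refine appr_mono (le_max_left v 0) hX1' ⟨R, hR1, hR2, hR3.trans hh1, α, hα1, hα2, hα3.trans ?_⟩
  have h1 := one_le_hp R hR1.ne_zero
  have h3 : (A * H ^ a)⁻¹ ≤ (hp R)⁻¹ := inv_anti₀ (by linarith) hR3
  have h4 : ((A * (2 * H) ^ a) ^ v')⁻¹ ≤ X ^ (-v') := by
    rw [Real.rpow_neg hX0.le]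
    exact inv_anti₀ (Real.rpow_pos_of_pos hX0 _) (Real.rpow_le_rpow hX0.le hh2.le hv'0)
  refine le_trans ?_ (mul_le_mul h3 h4 (by positivity) (by positivity))
  rw [← mul_inv, ← div_eq_mul_inv, div_le_iff₀ (by positivity), inv_mul_eq_div,
    le_div_iff₀ (by positivity)]
  have e1 : (A * (2 * H) ^ a) ^ v' = A ^ v' * (2 ^ (a * v') * H ^ (a * v')) := by
    rw [Real.mul_rpow hA0.le (by positivity), ← Real.rpow_mul (by positivity),
      Real.mul_rpow (by norm_num) hH0.le]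
  rw [e1]
  have h5 : K * A * A ^ v' * 2 ^ (2 * v') ≤ H ^ (g / 2) := hNa H (hNa'.trans hHQ)
  calc K * (A * H ^ a * (A ^ v' * (2 ^ (a * v') * H ^ (a * v'))))
      = (K * A * A ^ v' * 2 ^ (a * v')) * (H ^ a * H ^ (a * v')) := by ring
    _ ≤ (K * A * A ^ v' * 2 ^ (2 * v')) * (H ^ a * H ^ (a * v')) := by
        apply mul_le_mul_of_nonneg_right _ (by positivity)
        exact mul_le_mul_of_nonneg_left h2a (by positivity)
    _ ≤ H ^ (g / 2) * (H ^ a * H ^ (a * v')) := mul_le_mul_of_nonneg_right h5 (by positivity)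
    _ = H ^ (g / 2 + (a + a * v')) := by
        rw [Real.rpow_add hH0 (g / 2) (a + a * v'), Real.rpow_add hH0 a (a * v')]
    _ ≤ H ^ ((n:ℝ) + 1) := by
        apply Real.rpow_le_rpow_of_exponent_le hH1
        have e2 : a + a * v' = n + 1 - g + ε * (1 + v') := by
          rw [ha, hg]
          ring
        linarith
    _ = H ^ (n + 1) := by
        rw [← Real.rpow_natCast]
        push_cast
        rfl

/-- One level, all degrees. -/
theorem dlevU (n : ℕ) (hn : 1 ≤ n) (w : ℝ) (hw : 1 ≤ w) (c : ℝ) (hc : 0 < c) (hc1 : c ≤ 1)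
    (c2 : ℝ) (hc2 : 0 < c2) (hc21 : c2 ≤ 1) (v : ℝ) (hv : v < vst n w) : ∃ e₀ N₀ : ℝ, 0 < e₀ ∧
    ∀ (S : St) (ε Q' s s' ξ : ℝ), 0 < ε → ε ≤ e₀ → N₀ ≤ (sc S.q) ^ ε → sc S.q ≤ Q' →
      s ∈ Icc (0:ℝ) 1 → s' ∈ Icc (0:ℝ) 1 → ¬ DBad n w c ε (sc S.q) (S.κ, s) →
      ¬ Dbp n w c2 ε (sc S.q) (S.κ, s) →
      Transcendental ℚ ξ → ξ = S.mob (S.E w * (2 + s')) → |s' - s| ≤ 1 / Q' →
      ∀ X : ℝ, (sc S.q) ^ (Bn n w * ε) ≤ X → X ≤ Q' ^ (1 / (2 * ((n:ℝ) + 1))) → Appr n ξ v X := by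
  unfold vst at hv
  by_cases hnw : (n:ℝ) ≤ w
  · rw [if_pos hnw] at hv
    obtain ⟨e₀, N₀, he₀, h⟩ := Pool.Agent.WnF.dlevel n hn w hnw c2 hc2 hc21 v hv
    refine ⟨e₀, N₀, he₀, ?_⟩
    intro S ε Q' s s' ξ hε hεe hN hQQ' hs hs' _ hbad2 htr hξ hss X hX1 hX2
    refine h S ε Q' s s' ξ hε hεe hN hQQ' hs hs' (fun hb => hbad2 ⟨hn, hnw, hb⟩) htr hξ hss X (le_trans ?_ hX1) hX2
    refine Real.rpow_le_rpow_of_exponent_le (one_le_sc _) ?_
    unfold Bn
    have h1 := le_abs_self (be n w)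
    nlinarith
  · rw [if_neg hnw] at hv
    push Not at hnw
    obtain ⟨e₀, N₀, he₀, h⟩ := dlevelX n hn w hw hnw.le c hc hc1 v hv
    refine ⟨e₀, N₀, he₀, ?_⟩
    intro S ε Q' s s' ξ hε hεe hN hQQ' hs hs' hbad _ htr hξ hss X hX1 hX2
    refine h S ε Q' s s' ξ hε hεe hN hQQ' hs hs' hbad htr hξ hss X (le_trans ?_ hX1) hX2
    refine Real.rpow_le_rpow_of_exponent_le (one_le_sc _) ?_
    have h1 := Bn_ge n w
    nlinarith

open ConclAux

/-- One number for all degrees, with the uniform approximations by algebraic numbers. -/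
theorem exists_all3 (w : ℝ) (hw : 1 ≤ w) : ∃ ξ : ℝ, Transcendental ℚ ξ ∧ |ξ| ≤ 1 ∧
    (∀ N : ℝ, ∃ p q : ℤ, N ≤ q ∧ 0 < q ∧ |p| ≤ q ∧ IsCoprime p q ∧
      1 / 3 * (q:ℝ) ^ (-w) ≤ |(q:ℝ) * ξ - p| ∧ |(q:ℝ) * ξ - p| ≤ 2 ^ (w - 1) * (q:ℝ) ^ (-w)) ∧
    (∀ n : ℕ, ∀ ε : ℝ, 0 < ε → ∃ H₀ : ℝ, ∀ H : ℝ, H₀ ≤ H → Good n w ξ ε H) ∧
    (∀ n : ℕ, 1 ≤ n → ∀ v : ℝ, v < max w n → ∀ N : ℝ, ∃ X : ℝ, N ≤ X ∧ Appr n ξ v X) ∧
    ∀ n : ℕ, 1 ≤ n → ∀ v : ℝ, v < vst n w → ∃ X₀ : ℝ, ∀ X : ℝ, X₀ ≤ X → Appr n ξ v X := by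
  choose c1 hc1 hc1' hrare using fun n : ℕ => bad_rare n w hw
  choose d hd hd1 hdrare using fun n : ℕ => dbad_rare n w hw
  choose d2 hd2 hd21 hd2rare using fun n : ℕ => dbp_rare n w hw
  choose C hC hst using fun n : ℕ => stab_eta n w hw
  choose c2 hc2 hdu using fun n : ℕ => dualP n w hw
  have hDp : ∀ n : ℕ, 1 ≤ 2 * ((n:ℝ) + 1) * Bn n w := fun n => by
    have h1 := Bn_ge n w
    have h2 : (0:ℝ) ≤ n := Nat.cast_nonneg n
    nlinarith
  set e0 : ℕ → ℝ := fun n => (1 - sgp n w) / (n + 3) / (2 * ((n:ℝ) + 1) * Bn n w) with he0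
  have he0p : ∀ n, 0 < e0 n := fun n =>
    div_pos (div_pos (by linarith [sgp_lt_one (n := n) hw]) (by positivity)) (by linarith [hDp n])
  set e : ℕ → ℕ → ℝ := fun n k => e0 n / (k + 1) with he
  have hep : ∀ n k : ℕ, 0 < e n k := fun n k => div_pos (he0p n) (by positivity)
  have hek : ∀ n k : ℕ, e n k ≤ e0 n := fun n k => div_le_self (he0p n).le (by
    have : (0:ℝ) ≤ k := Nat.cast_nonneg k
    linarith)
  have hee : ∀ n : ℕ, ((n:ℝ) + 3) * e0 n ≤ 1 - sgp n w := fun n => by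
    have h1 : 0 ≤ (1 - sgp n w) / ((n:ℝ) + 3) :=
      div_nonneg (by linarith [sgp_lt_one (n := n) hw]) (by positivity)
    have h2 : e0 n ≤ (1 - sgp n w) / ((n:ℝ) + 3) := div_le_self h1 (hDp n)
    calc ((n:ℝ) + 3) * e0 n ≤ ((n:ℝ) + 3) * ((1 - sgp n w) / ((n:ℝ) + 3)) :=
          mul_le_mul_of_nonneg_left h2 (by positivity)
      _ = 1 - sgp n w := by field_simp
  have heB : ∀ n k : ℕ, Bn n w * e n k ≤ 1 / (2 * ((n:ℝ) + 1)) := fun n k => by
    have h0 := Bn_ge n w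
    have h1 : Bn n w * e n k ≤ Bn n w * e0 n := mul_le_mul_of_nonneg_left (hek n k) (by linarith)
    have h2 : Bn n w * e0 n = (1 - sgp n w) / ((n:ℝ) + 3) / (2 * ((n:ℝ) + 1)) := by
      rw [he0]
      have h3 : Bn n w ≠ 0 := by linarith
      field_simp
    have h4 : (1 - sgp n w) / ((n:ℝ) + 3) ≤ 1 := by
      rw [div_le_one (by positivity)]
      have h5 := sgp_nonneg n w
      have h6 : (0:ℝ) ≤ n := Nat.cast_nonneg n
      linarith
    rw [h2] at h1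
    exact h1.trans (div_le_div_of_nonneg_right h4 (by positivity))
  have hek1 : ∀ n k : ℕ, ((n:ℝ) + 3) * e n k ≤ 1 - sgp n w := fun n k =>
    (mul_le_mul_of_nonneg_left (hek n k) (by positivity)).trans (hee n)
  have hanti : ∀ n k l : ℕ, k ≤ l → e n l ≤ e n k := fun n k l hkl => by
    have : (k:ℝ) ≤ l := by exact_mod_cast hkl
    exact div_le_div_of_nonneg_left (he0p n).le (by positivity) (by linarith)
  set Bf : ℕ → ℕ → ℝ := fun n k => max ((k:ℝ) + 1) (max (2 * C n * 2 ^ (n + 3) / c1 n)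
    ((2 ^ (n + 2) / (c1 n * c2 n)) ^ (1 / (2 * e n k)))) with hBf
  have hBf1 : ∀ n k : ℕ, (k:ℝ) + 1 ≤ Bf n k := fun n k => le_max_left _ _
  have hBf2 : ∀ n k : ℕ, 2 * C n * 2 ^ (n + 3) / c1 n ≤ Bf n k := fun n k =>
    (le_max_left _ _).trans (le_max_right _ _)
  have hBf3 : ∀ n k : ℕ, (2 ^ (n + 2) / (c1 n * c2 n)) ^ (1 / (2 * e n k)) ≤ Bf n k := fun n k =>
    (le_max_right _ _).trans (le_max_right _ _)
  have hBfp : ∀ n k : ℕ, 1 ≤ Bf n k := fun n k => by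
    have : (0:ℝ) ≤ k := Nat.cast_nonneg k
    linarith [hBf1 n k]
  obtain ⟨ξ, hξT, S, s, hSs⟩ := selection w hw
    (fun k Q x => ∃ n, n < k + 1 ∧ (BadPt n w (c1 n) (e n k) Q x ∨
      (DBad n w (d n) (e n k) Q x ∨ Dbp n w (d2 n) (e n k) Q x)))
    (fun k => rare_lt (fun n => rare_or (hrare n (e n k) (hep n k))
      (rare_or (hdrare n (e n k) (hep n k)) (hd2rare n (e n k) (hep n k)))) (k + 1))
    (fun k => ∑ n ∈ Finset.range (k + 1), Bf n k ^ (1 / e n k))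
  -- heights
  have hN : ∀ n k, n < k + 1 → Bf n k ^ (1 / e n k) ≤ sc (S k).q := by
    intro n k hn
    refine le_trans ?_ (hSs k).1
    exact Finset.single_le_sum (f := fun n => Bf n k ^ (1 / e n k))
      (fun m _ => Real.rpow_nonneg (zero_le_one.trans (hBfp m k)) _) (Finset.mem_range.2 hn)
  have hQ : ∀ n k, n < k + 1 → Bf n k ≤ (sc (S k).q) ^ (e n k) := by
    intro n k hn
    have h1 := hN n k hn
    have h2 : (0:ℝ) ≤ Bf n k := zero_le_one.trans (hBfp n k)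
    calc Bf n k = (Bf n k ^ (1 / e n k)) ^ (e n k) := by
          rw [← Real.rpow_mul h2, one_div_mul_cancel (hep n k).ne', Real.rpow_one]
      _ ≤ _ := Real.rpow_le_rpow (Real.rpow_nonneg h2 _) h1 (hep n k).le
  have le_sc_k : ∀ k : ℕ, (k:ℝ) + 1 ≤ sc (S k).q := by
    intro k
    have h1 := hN 0 k (Nat.succ_pos k)
    have he1 : e 0 k ≤ 1 := by
      have h5 := hek1 0 k
      have h6 := hep 0 k
      have h7 := sgp_nonneg 0 w
      push_cast at h5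
      linarith
    have h3 : Bf 0 k ≤ Bf 0 k ^ (1 / e 0 k) := by
      conv_lhs => rw [← Real.rpow_one (Bf 0 k)]
      refine Real.rpow_le_rpow_of_exponent_le (hBfp 0 k) ?_
      rw [le_div_iff₀ (hep 0 k)]
      linarith
    have h4 := hBf1 0 k
    linarith
  refine ⟨ξ, hξT, ?_, fun N => ?_, fun n ε hε => ?_, fun n hn v hv N => ?_, fun n hn v hv => ?_⟩
  · obtain ⟨_, _, _, _, _, s', hs', hξ, _⟩ := hSs 0
    rw [hξ]
    exact (xi_bounds (S 0) w hw s' hs'.1).1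
  · obtain ⟨k, hk⟩ := exists_nat_ge N
    have h0 := (S k).q_pos
    have hp0 := (S k).p0
    have hpq := (S k).pq
    have hdet := (S k).det
    refine ⟨(S k).p, (S k).q, ?_, by omega, ?_, ?_, ?_, ?_⟩
    · have h2 := sc_le (S k).q (S k).q_pos
      linarith [le_sc_k k]
    · rw [abs_of_nonneg hp0]
      exact hpq.le
    · exact ⟨(S k).q', -(S k).p', by linear_combination hdet⟩
    · exact WnF.DConclAux.conv_lower (S k) w hw ξ (hSs k).2.2.2.2.1
    · exact (dist_conv (S k) w hw ξ (hSs k).2.2.2.2.1).2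
  · -- the level
    obtain ⟨K, hKn, hK⟩ : ∃ K : ℕ, n ≤ K ∧ 3 * e n K ≤ ε := by
      obtain ⟨K, hK⟩ := exists_nat_ge (3 * e0 n / ε)
      refine ⟨max K n, le_max_right _ _, ?_⟩
      have hK2 : (K:ℝ) ≤ ((max K n : ℕ) : ℝ) := by exact_mod_cast le_max_left _ _
      have h0 := he0p n
      show 3 * (e0 n / (((max K n : ℕ) : ℝ) + 1)) ≤ ε
      rw [← mul_div_assoc, div_le_iff₀ (by positivity)]
      rw [div_le_iff₀ hε] at hK
      nlinarith
    refine ⟨(sc (S K).q) ^ (e n K), fun H hH => ?_⟩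
    have hH1 : 1 ≤ H := (hBfp n K).trans ((hQ n K (by omega)).trans hH)
    set Pk : ℕ → Prop := fun k => n ≤ k ∧ (sc (S k).q) ^ (e n k) ≤ H with hPk
    classical
    set k : ℕ := Nat.findGreatest Pk ⌊H⌋₊ with hk
    have hbd : ∀ k, Pk k → k + 1 ≤ ⌊H⌋₊ := by
      intro k hk
      refine Nat.le_floor ?_
      push_cast
      exact (hBf1 n k).trans ((hQ n k (by have := hk.1; omega)).trans hk.2)
    have hKP : Pk K := ⟨hKn, hH⟩
    have hKb : K ≤ ⌊H⌋₊ := (Nat.le_succ K).trans (hbd K hKP)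
    have hkP : Pk k := Nat.findGreatest_spec hKb hKP
    have hKk : K ≤ k := Nat.le_findGreatest hKb hKP
    have hnk : ¬ Pk (k + 1) := by
      intro h
      have h1 : k + 1 ≤ ⌊H⌋₊ := (Nat.le_succ _).trans (hbd (k + 1) h)
      exact Nat.findGreatest_is_greatest (Nat.lt_succ_self k) h1 h
    have hnk1 : n < k + 1 := by omega
    have hlt : H ≤ (sc (S (k + 1)).q) ^ (e n (k + 1)) := by
      by_contra hcon
      push Not at hcon
      exact hnk ⟨by omega, hcon.le⟩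
    obtain ⟨_, _, hs, hb, _, s', hs', hξ, hss⟩ := hSs k
    have hb' : ¬ BadPt n w (c1 n) (e n k) (sc (S k).q) ((S k).κ, s k) :=
      fun h => hb ⟨n, hnk1, Or.inl h⟩
    have hσ0 := sgp_nonneg n w
    refine good_mono hH1 (le_trans (by linarith [hanti n K k hKk]) hK)
      (level (hc1 n) (hc1' n) (hC n) (hc2 n) (hst n) (hdu n) (hep n k) (hek1 n k)
        ((hek1 n (k + 1)).trans (by linarith))
        (S k) hs hs' hb' hξ (one_le_sc _) hss hkP.2 hlt hH1 ((hBf2 n k).trans ((hQ n k hnk1).trans hkP.2)) ?_)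
    have h1 := (hBf3 n k).trans ((hQ n k hnk1).trans hkP.2)
    have hcc : 0 < c1 n * c2 n := mul_pos (hc1 n) (hc2 n)
    have h2 : (0:ℝ) ≤ 2 ^ (n + 2) / (c1 n * c2 n) := by positivity
    calc 2 ^ (n + 2) / (c1 n * c2 n) = ((2 ^ (n + 2) / (c1 n * c2 n)) ^ (1 / (2 * e n k))) ^ (2 * e n k) := by
          have : 2 * e n k ≠ 0 := by
            have := hep n k
            positivity
          rw [← Real.rpow_mul h2, one_div_mul_cancel this, Real.rpow_one]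
      _ ≤ H ^ (2 * e n k) := Real.rpow_le_rpow (Real.rpow_nonneg h2 _) h1 (by
          have := hep n k
          positivity)

  · -- approximations by algebraic numbers
    have hgoal : ∃ _k : ℕ, ∃ X : ℝ, N ≤ X ∧ Appr n ξ v X := by
      rcases lt_max_iff.1 hv with hvw | hvn
      · obtain ⟨N₀, hN₀⟩ := ratl n hn w hw v hvw
        obtain ⟨k, hk⟩ := exists_nat_ge (max N₀ N)
        refine ⟨k, ((S k).q : ℝ), ?_, ?_⟩
        · have h1 := le_sc_k k
          have h2 := sc_le (S k).q (S k).q_pos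
          linarith [(le_max_right N₀ N).trans hk]
        · obtain ⟨_, _, _, _, _, s', hs', hξ, _⟩ := hSs k
          rw [hξ]
          exact hN₀ (S k) s' hs'.1 (by linarith [le_sc_k k, (le_max_left N₀ N).trans hk])
      · by_cases hwn : w ≤ (n:ℝ)
        swap
        · push Not at hwn
          obtain ⟨N₀, hN₀⟩ := ratl n hn w hw v (hvn.trans hwn)
          obtain ⟨k, hk⟩ := exists_nat_ge (max N₀ N)
          refine ⟨k, ((S k).q : ℝ), ?_, ?_⟩
          · have h1 := le_sc_k k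
            have h2 := sc_le (S k).q (S k).q_pos
            linarith [(le_max_right N₀ N).trans hk]
          · obtain ⟨_, _, _, _, _, s', hs', hξ, _⟩ := hSs k
            rw [hξ]
            exact hN₀ (S k) s' hs'.1 (by linarith [le_sc_k k, (le_max_left N₀ N).trans hk])
        obtain ⟨e₀, N₀, he₀, hlev⟩ := dlevel n hn w hw hwn (d n) (hd n) (hd1 n) v hvn
        obtain ⟨k, hnk, hk1, hk2⟩ : ∃ k : ℕ, n < k + 1 ∧ e n k ≤ e₀ ∧ max N₀ N ≤ (k:ℝ) + 1 := by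
          obtain ⟨K, hK⟩ := exists_nat_ge (max (e0 n / e₀) (max N₀ N))
          refine ⟨max K n, by omega, ?_, ?_⟩
          · have hK2 : (K:ℝ) ≤ ((max K n : ℕ) : ℝ) := by exact_mod_cast le_max_left _ _
            have hK3 := (le_max_left _ _).trans hK
            show e0 n / (((max K n : ℕ) : ℝ) + 1) ≤ e₀
            rw [div_le_iff₀ (by positivity)]
            rw [div_le_iff₀ he₀] at hK3
            nlinarith
          · have hK2 : (K:ℝ) ≤ ((max K n : ℕ) : ℝ) := by exact_mod_cast le_max_left _ _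
            linarith [(le_max_right _ _).trans hK]
        have hQk : (k:ℝ) + 1 ≤ (sc (S k).q) ^ (e n k) := (hBf1 n k).trans (hQ n k hnk)
        obtain ⟨_, hsc, hs, hb, _, s', hs', hξ, hss⟩ := hSs k
        obtain ⟨X, hX1, hX2⟩ := hlev (S k) (e n k) (sc (S (k + 1)).q) (s k) s' ξ (hep n k) hk1
          (by linarith [(le_max_left N₀ N).trans hk2]) hsc.le hs hs'
          (fun h => hb ⟨n, hnk, Or.inr (Or.inl h)⟩) hξT hξ hss
        exact ⟨k, X, by linarith [(le_max_right N₀ N).trans hk2], hX2⟩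
    obtain ⟨-, h⟩ := hgoal
    exact h

  · -- uniform approximations by algebraic numbers
    obtain ⟨e₀, N₀, he₀, hlev⟩ := dlevU n hn w hw (d n) (hd n) (hd1 n) (d2 n) (hd2 n) (hd21 n) v hv
    obtain ⟨K, hKn, hK1, hK2⟩ : ∃ K : ℕ, n ≤ K ∧ e n K ≤ e₀ ∧ N₀ ≤ (K:ℝ) + 1 := by
      obtain ⟨K, hK⟩ := exists_nat_ge (max (e0 n / e₀) N₀)
      refine ⟨max K n, le_max_right _ _, ?_, ?_⟩
      · have hK2 : (K:ℝ) ≤ ((max K n : ℕ) : ℝ) := by exact_mod_cast le_max_left _ _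
        have hK3 := (le_max_left _ _).trans hK
        show e0 n / (((max K n : ℕ) : ℝ) + 1) ≤ e₀
        rw [div_le_iff₀ (by positivity)]
        rw [div_le_iff₀ he₀] at hK3
        nlinarith
      · have hK2 : (K:ℝ) ≤ ((max K n : ℕ) : ℝ) := by exact_mod_cast le_max_left _ _
        linarith [(le_max_right _ _).trans hK]
    have hB := Bn_ge n w
    have hQ1 : ∀ k : ℕ, n ≤ k → (k:ℝ) + 1 ≤ (sc (S k).q) ^ (Bn n w * e n k) := fun k hk => by
      refine ((hBf1 n k).trans (hQ n k (by omega))).trans (Real.rpow_le_rpow_of_exponent_le (one_le_sc _) ?_)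
      have := hep n k
      nlinarith
    refine ⟨(sc (S K).q) ^ (Bn n w * e n K), fun X hX => ?_⟩
    set Pk : ℕ → Prop := fun k => n ≤ k ∧ (sc (S k).q) ^ (Bn n w * e n k) ≤ X with hPk
    classical
    have hbd : ∀ k, Pk k → k + 1 ≤ ⌊X⌋₊ := by
      intro k hk
      refine Nat.le_floor ?_
      push_cast
      linarith [(hQ1 k hk.1).trans hk.2]
    have hKP : Pk K := ⟨hKn, hX⟩
    have hKb : K ≤ ⌊X⌋₊ := (Nat.le_succ K).trans (hbd K hKP)
    set k : ℕ := Nat.findGreatest Pk ⌊X⌋₊ with hk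
    have hkP : Pk k := Nat.findGreatest_spec hKb hKP
    have hKk : K ≤ k := Nat.le_findGreatest hKb hKP
    have hnk : ¬ Pk (k + 1) := by
      intro h
      have h1 : k + 1 ≤ ⌊X⌋₊ := (Nat.le_succ _).trans (hbd (k + 1) h)
      exact Nat.findGreatest_is_greatest (Nat.lt_succ_self k) h1 h
    have hlt : X ≤ (sc (S (k + 1)).q) ^ (Bn n w * e n (k + 1)) := by
      by_contra hcon
      push Not at hcon
      exact hnk ⟨by omega, hcon.le⟩
    obtain ⟨_, hsc, hs, hb, _, s', hs', hξ, hss⟩ := hSs k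
    have hKk' : (K:ℝ) ≤ k := by exact_mod_cast hKk
    refine hlev (S k) (e n k) (sc (S (k + 1)).q) (s k) s' ξ (hep n k) ((hanti n K k hKk).trans hK1) ?_
      hsc.le hs hs' (fun h => hb ⟨n, by omega, Or.inr (Or.inl h)⟩) (fun h => hb ⟨n, by omega, Or.inr (Or.inr h)⟩)
      hξT hξ hss X hkP.2 ?_
    · have h1 := (hBf1 n k).trans (hQ n k (by omega))
      linarith
    · exact hlt.trans (Real.rpow_le_rpow_of_exponent_le (one_le_sc _) (heB n (k + 1)))

end Pool.Agent.WnG
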