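import Pool.Agent.Lib.WnG.AllFinal
import Pool.Agent.Lib.WnF.LamV
import Pool.Agent.Lib.WnF.LamGe

/-!
# `λ_n` at the number of `exists_all2`
-/

set_option autoImplicit false

namespace Pool.Agent.WnG

open Pool.Agent.WnF (pv)
open Pool.Agent

/-- Khintchine's transference, upper bound of `λ_n` for numbers badly approximable by polynomials. -/
theorem lam_le_low (n : ℕ) (hn : 1 ≤ n) (ξ M : ℝ) (hM : (n:ℝ) ≤ M)
    (h : ∀ r : ℝ, M < r → ∃ X₀ : ℝ, ∀ X : ℝ, X₀ ≤ X → ∀ P : Fin (n + 1) → ℤ, P ≠ 0 →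
      (∀ i, |(P i : ℝ)| ≤ X) → X ^ (-r) < |pv P ξ|) :
    LamSpec.lam n ξ ≤ (((M + 1 - n) / n : ℝ) : EReal) := by
  have hnR : (1:ℝ) ≤ n := by exact_mod_cast hn
  have hn0 : (0:ℝ) < n := by linarith
  have hξ : 0 ≤ |ξ| := abs_nonneg ξ
  set θ := (M + 1 - n) / n with hθ
  have hθn : θ * n = M + 1 - n := by
    rw [hθ]
    field_simp
  have hθ0 : 0 < θ := by
    rw [hθ]
    apply div_pos (by linarith) hn0
  apply sSup_le
  rintro _ ⟨r, rfl, hr⟩
  rw [EReal.coe_le_coe_iff]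
  by_contra hcon
  rw [not_le] at hcon
  have hr0 : 0 < r := hθ0.trans hcon
  set δ : ℝ := n * (r + 1) - 1 - M with hδ
  have hδ0 : 0 < δ := by
    rw [hδ]
    have : n * θ < n * r := mul_lt_mul_of_pos_left hcon hn0
    nlinarith
  obtain ⟨X₀, hX₀⟩ := h (M + δ / 2) (by linarith)
  set C1 : ℝ := 2 * (|ξ| + 1) ^ n with hC1
  have hpow1 : 1 ≤ (|ξ| + 1) ^ n := one_le_pow₀ (by linarith)
  have hC11 : 1 ≤ C1 := by rw [hC1]; linarith
  set K : ℝ := ((n : ℝ) + 1) * C1 with hK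
  have hK1 : 1 ≤ K := by rw [hK]; nlinarith
  have hK0 : 0 < K := by linarith
  set Cst : ℝ := ((n : ℝ) + 1) * K ^ (r + 1) with hCst
  have hCst0 : 0 < Cst := by
    rw [hCst]
    have := Real.rpow_pos_of_pos hK0 (r + 1)
    positivity
  set Ym : ℝ := max X₀ (Cst ^ (2 / δ)) with hYm
  apply hr
  refine LamSpec.finite_of_bounded hr0.le (Ym ^ n) fun x hx => ?_
  have hx1 : (1:ℝ) ≤ |(x 0 : ℝ)| := by exact_mod_cast Int.one_le_abs hx.1
  set X : ℝ := |(x 0 : ℝ)| with hX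
  have hX0 : 0 < X := by linarith
  have hXr : X ^ (-r) ≤ 1 := Real.rpow_le_one_of_one_le_of_nonpos hx1 (by linarith)
  have hxb : ∀ i, |(x i : ℝ)| ≤ C1 * X := by
    intro i
    have h0X : X ≤ C1 * X := by nlinarith
    refine Fin.cases h0X (fun j => ?_) i
    have h3 := hx.2 j
    have h4 : |(x 0 : ℝ) * ξ ^ ((j : ℕ) + 1)| ≤ X * (|ξ| + 1) ^ n := by
      rw [abs_mul, abs_pow]
      apply mul_le_mul le_rfl _ (by positivity) hX0.le
      calc |ξ| ^ ((j:ℕ) + 1) ≤ (|ξ| + 1) ^ ((j:ℕ) + 1) :=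
            pow_le_pow_left₀ hξ (by linarith) _
        _ ≤ (|ξ| + 1) ^ n := pow_le_pow_right₀ (by linarith) (by omega)
    have h5 : (1 : ℝ) ≤ X * (|ξ| + 1) ^ n := by nlinarith
    calc |(x j.succ : ℝ)| = |(x 0 : ℝ) * ξ ^ ((j : ℕ) + 1)
          - ((x 0 : ℝ) * ξ ^ ((j : ℕ) + 1) - x j.succ)| := by congr 1; ring
      _ ≤ |(x 0 : ℝ) * ξ ^ ((j : ℕ) + 1)|
          + |(x 0 : ℝ) * ξ ^ ((j : ℕ) + 1) - x j.succ| := abs_sub _ _
      _ ≤ X * (|ξ| + 1) ^ n + 1 := by linarith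
      _ ≤ C1 * X := by rw [hC1]; linarith
  obtain ⟨P, hP0, hPx, hPb⟩ := WnF.LamVAux.siegel hn x (C1 * X) (by nlinarith) hxb
  set Y : ℝ := (((n : ℝ) + 1) * (C1 * X)) ^ (1 / (n : ℝ)) with hY
  have hKX : ((n : ℝ) + 1) * (C1 * X) = K * X := by rw [hK]; ring
  have hKX1 : 1 ≤ K * X := by nlinarith
  have hY1 : 1 ≤ Y := by
    rw [hY, hKX]
    exact Real.one_le_rpow hKX1 (by positivity)
  have hY0 : 0 < Y := by linarith
  have hYn : Y ^ n = K * X := by
    rw [hY, hKX, ← Real.rpow_natCast, ← Real.rpow_mul (by linarith)]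
    have : 1 / (n : ℝ) * n = 1 := by field_simp
    rw [this, Real.rpow_one]
  -- the value of `P` at `ξ`
  have hval : |pv P ξ| ≤ (n + 1) * Y * X ^ (-(r + 1)) := by
    have e1 : (x 0 : ℝ) * pv P ξ = ∑ i, (P i : ℝ) * ((x 0 : ℝ) * ξ ^ (i : ℕ) - x i) := by
      unfold pv
      rw [Finset.mul_sum]
      have e2 : ∑ i, (P i : ℝ) * ((x 0 : ℝ) * ξ ^ (i : ℕ) - x i) =
          ∑ i, (x 0 : ℝ) * ((P i : ℝ) * ξ ^ (i : ℕ)) - ∑ i, (x i : ℝ) * P i := by
        rw [← Finset.sum_sub_distrib]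
        exact Finset.sum_congr rfl fun i _ => by ring
      rw [e2, hPx, sub_zero]
    have e3 : X * |pv P ξ| ≤ ∑ i : Fin (n + 1), Y * X ^ (-r) := by
      rw [hX, ← abs_mul, e1]
      refine (Finset.abs_sum_le_sum_abs _ _).trans (Finset.sum_le_sum fun i _ => ?_)
      rw [abs_mul]
      refine mul_le_mul (hPb i) ?_ (abs_nonneg _) hY0.le
      refine Fin.cases ?_ (fun j => ?_) i
      · simp only [Fin.val_zero, pow_zero, mul_one, sub_self, abs_zero]
        exact (Real.rpow_pos_of_pos hX0 _).le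
      · have := hx.2 j
        simpa using this
    rw [Finset.sum_const, Finset.card_univ, Fintype.card_fin, nsmul_eq_mul] at e3
    push_cast at e3
    have e4 : X ^ (-(r + 1)) = X ^ (-r) / X := by
      rw [neg_add, Real.rpow_add hX0, Real.rpow_neg_one, div_eq_mul_inv]
    rw [e4, ← mul_div_assoc, le_div_iff₀ hX0]
    linarith
  have hYYm : Y ≤ Ym := by
    rcases lt_or_ge Y X₀ with hlt | hge
    · exact hlt.le.trans (le_max_left _ _)
    · have g4 : Y ^ (-(M + δ / 2)) ≤ (n + 1) * Y * X ^ (-(r + 1)) :=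
        (hX₀ Y hge P hP0 hPb).le.trans hval
      have g5 : X ^ (-(r + 1)) = K ^ (r + 1) * Y ^ (-(n * (r + 1))) := by
        have : X = Y ^ n / K := by rw [hYn]; field_simp
        rw [this, Real.div_rpow (by positivity) hK0.le, ← Real.rpow_natCast, ← Real.rpow_mul hY0.le,
          Real.rpow_neg hK0.le, div_inv_eq_mul, mul_comm]
        congr 2
        ring
      have g6 : Y ^ (-(M + δ / 2)) ≤ Cst * Y ^ (1 - n * (r + 1)) := by
        refine g4.trans (le_of_eq ?_)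
        rw [g5, hCst]
        have : Y ^ (1 - n * (r + 1)) = Y * Y ^ (-(n * (r + 1))) := by
          rw [sub_eq_add_neg, Real.rpow_add hY0, Real.rpow_one]
        rw [this]
        ring
      have g7 : Y ^ (δ / 2) ≤ Cst := by
        have e : Y ^ (δ / 2) = Y ^ (-(M + δ / 2)) * Y ^ (n * (r + 1) - 1) := by
          rw [← Real.rpow_add hY0]
          congr 1
          rw [hδ]
          ring
        rw [e]
        calc Y ^ (-(M + δ / 2)) * Y ^ (n * (r + 1) - 1)
            ≤ Cst * Y ^ (1 - n * (r + 1)) * Y ^ (n * (r + 1) - 1) :=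
              mul_le_mul_of_nonneg_right g6 (Real.rpow_pos_of_pos hY0 _).le
          _ = Cst := by
              rw [mul_assoc, ← Real.rpow_add hY0]
              have : (1 - n * (r + 1)) + (n * (r + 1) - 1) = 0 := by ring
              rw [this, Real.rpow_zero, mul_one]
      refine le_trans ?_ (le_max_right _ _)
      calc Y = (Y ^ (δ / 2)) ^ (2 / δ) := by
            rw [← Real.rpow_mul hY0.le]
            have : δ / 2 * (2 / δ) = 1 := by field_simp
            rw [this, Real.rpow_one]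
        _ ≤ Cst ^ (2 / δ) := Real.rpow_le_rpow (Real.rpow_pos_of_pos hY0 _).le g7 (by positivity)
  calc |(x 0 : ℝ)| = X := rfl
    _ ≤ K * X := by nlinarith
    _ = Y ^ n := hYn.symm
    _ ≤ Ym ^ n := pow_le_pow_left₀ hY0.le hYYm n

end Pool.Agent.WnG
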