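import Pool.Agent.Lib.WnG.AllFinal
import Pool.Agent.Lib.WnG.DAll
import Pool.Agent.Lib.WnG.Lam6
import Pool.Agent.Lib.WnF.DUpper
import Pool.Agent.Lib.WnF.LamV
import Pool.Agent.Lib.WnF.LamGe

/-!
# The six exponents of one number, for all `n`
-/

set_option autoImplicit false

namespace Pool.Agent.WnG

open Pool.Agent.WnF (wx hws Appr)
open Pool.Agent

theorem hws_le_wst {n : ℕ} {ξ : ℝ} (h0 : (0 : EReal) ≤ wst n ξ) : hws n ξ ≤ wst n ξ := by
  refine sSup_le ?_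
  rintro _ ⟨r, rfl, X₀, hX₀⟩
  rcases le_or_gt r 0 with hr | hr
  · exact le_trans (by exact_mod_cast hr) h0
  · exact le_sSup ⟨r, rfl, algs_of_appr hr fun N => ⟨max N X₀, le_max_left _ _, hX₀ _ (le_max_right _ _)⟩⟩

theorem hws_ge {n : ℕ} {w ξ : ℝ}
    (h : ∀ v : ℝ, v < vst n w → ∃ X₀ : ℝ, ∀ X : ℝ, X₀ ≤ X → Appr n ξ v X) :
    ((vst n w : ℝ) : EReal) ≤ hws n ξ := by
  refine le_of_forall_lt fun c hc => ?_
  obtain ⟨x, hx1, hx2⟩ := EReal.lt_iff_exists_real_btwn.1 hc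
  exact lt_of_lt_of_le hx1 (le_sSup ⟨x, rfl, h x (EReal.coe_lt_coe_iff.1 hx2)⟩)

theorem all_six (w : ℝ) (hw : 1 ≤ w) : ∃ ξ : ℝ, Transcendental ℚ ξ ∧ ∀ n : ℕ, 1 ≤ n →
    wx n ξ = ((max w n : ℝ) : EReal) ∧ wst n ξ = ((max w n : ℝ) : EReal) ∧
    LamSpec.lam n ξ = (((max w n - n + 1) / n : ℝ) : EReal) ∧
    hwn n ξ = ((n : ℝ) : EReal) ∧ hws n ξ = ((max w n / (max w n - n + 1) : ℝ) : EReal) ∧
    hlam n ξ = ((1 / n : ℝ) : EReal) := by
  obtain ⟨ξ, hξ, hξ1, hconv, hgood, happr, hunif⟩ := exists_all3 w hw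
  have hconv' : ∀ N : ℝ, ∃ p q : ℤ, N ≤ q ∧ 0 < q ∧ |p| ≤ q ∧ IsCoprime p q ∧
      |(q:ℝ) * ξ - p| ≤ 2 ^ (w - 1) * (q:ℝ) ^ (-w) := by
    intro N
    obtain ⟨p, q, a, b, c, d, -, f⟩ := hconv N
    exact ⟨p, q, a, b, c, d, f⟩
  have hconv2 : ∀ N : ℝ, ∃ p q : ℤ, N ≤ q ∧ 0 < |(q:ℝ) * ξ - p| ∧
      |(q:ℝ) * ξ - p| ≤ 2 ^ (w - 1) * (q:ℝ) ^ (-w) := by
    intro N
    obtain ⟨p, q, a, b, -, -, e, f⟩ := hconv N
    refine ⟨p, q, a, lt_of_lt_of_le ?_ e, f⟩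
    have : (0:ℝ) < q := by exact_mod_cast b
    positivity
  have hirr : Irrational ξ := hξ.irrational
  refine ⟨ξ, hξ, fun n hn => ?_⟩
  have hn1 : (1:ℝ) ≤ n := by exact_mod_cast hn
  have hn0 : (0:ℝ) < n := by linarith
  have hst : wst n ξ = ((max w n : ℝ) : EReal) :=
    le_antisymm (wst_le n hw hξ1 (hgood n)) (wst_ge hw (happr n hn))
  refine ⟨wx_val hn hw hξ hconv2 (hgood n), hst, ?_, ?_, ?_, ?_⟩
  · rcases le_total (n:ℝ) w with h | h
    · have hg : ∀ ε : ℝ, 0 < ε → ∃ H₀ : ℝ, ∀ H : ℝ, H₀ ≤ H → WnF.Good n w ξ ε H := by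
        intro ε hε
        obtain ⟨H₀, hH₀⟩ := hgood n ε hε
        refine ⟨H₀, fun H hH => ?_⟩
        have h1 := hH₀ H hH
        unfold Good at h1
        rw [sgp_of_le hw h] at h1
        exact h1
      rw [WnF.lam_val n hn w h ξ hconv2 hg, max_eq_left h]
      congr 2
      ring
    · rw [max_eq_right h]
      have e : ((n:ℝ) - n + 1) / n = 1 / n := by ring_nf
      rw [e]
      refine le_antisymm ?_ (WnF.lam_ge n hn ξ hirr)
      have h2 := lam_le_low n hn ξ n le_rfl fun r hr => by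
        obtain ⟨X₀, -, h1⟩ := good_low n hw (hgood n) (r := r) (by rw [max_eq_right h]; exact hr)
        exact ⟨X₀, h1⟩
      have e2 : ((n:ℝ) + 1 - n) / n = 1 / n := by ring_nf
      rwa [e2] at h2
  · refine le_antisymm ?_ (hwn_ge hn hξ)
    rcases le_total (n:ℝ) w with h | h
    · exact hwn_le_conv h hξ1 hconv'
    · exact hwn_le_good hw h (hgood n)
  · have hge := hws_ge (hunif n hn)
    unfold vst at hge
    by_cases h : (n:ℝ) ≤ w
    · rw [if_pos h] at hge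
      rw [max_eq_left h]
      have e : w - n + 1 = w + 1 - n := by ring
      rw [e]
      exact le_antisymm (WnF.hws_le n hn w h ξ (1 / 3) _ hξ1 (by norm_num) hconv) hge
    · rw [if_neg h] at hge
      have h' : w ≤ n := (not_le.1 h).le
      rw [max_eq_right h'] at hst ⊢
      have e : (n:ℝ) / (n - n + 1) = n := by rw [sub_self, zero_add, div_one]
      rw [e]
      refine le_antisymm ?_ hge
      rw [← hst]
      refine hws_le_wst ?_
      rw [hst]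
      exact_mod_cast hn0.le
  · refine le_antisymm ?_ (hlam_ge hn ξ)
    rcases le_total (n:ℝ) w with h | h
    · exact hlam_le_conv hn h hξ1 hconv'
    · refine hlam_le_low n hn ξ hirr fun r hr => ?_
      obtain ⟨X₀, -, h1⟩ := good_low n hw (hgood n) (r := r) (by rw [max_eq_right h]; exact hr)
      exact ⟨X₀, h1⟩

end Pool.Agent.WnG
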