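import Pool.Agent.Lib.WnF.KMa

/-!
# Lower bounds for the suprema of the minors, degrees above `w` included

For `n ≤ w` this is `WnF.low`.  For `n > w` and `j` linearly independent integer vectors, `i = n + 1 - j`: by `lowmax` there is a minor
`≥ c max (Q^(ij) H^(-j), H^i Q^(-i(i+w-n)))`; if the first number is `< 1` then `Q^i < H`, and the second one is `(H / Q^(i+w-n))^i ≥ 1`.
-/

set_option autoImplicit false

open Set Module

namespace Pool.Agent.WnG

open Pool.Agent.WnF hiding low psi_sup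
open Pool.Agent.WnF.KMaAux

/-- The number `max (0, (w - n)/(w + 1))`. -/
noncomputable def sgp (n : ℕ) (w : ℝ) : ℝ := max 0 (sg n w)

theorem sgp_nonneg (n : ℕ) (w : ℝ) : 0 ≤ sgp n w := le_max_left _ _

theorem sgp_of_le {n : ℕ} {w : ℝ} (hw : 1 ≤ w) (h : (n:ℝ) ≤ w) : sgp n w = sg n w := by
  unfold sgp sg
  exact max_eq_right (div_nonneg (by linarith) (by linarith))

theorem sgp_of_ge {n : ℕ} {w : ℝ} (hw : 1 ≤ w) (h : w ≤ (n:ℝ)) : sgp n w = 0 := by
  unfold sgp sg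
  exact max_eq_left (div_nonpos_of_nonpos_of_nonneg (by linarith) (by linarith))

theorem sgp_lt_one {n : ℕ} {w : ℝ} (hw : 1 ≤ w) : sgp n w < 1 := by
  have h0 : (0:ℝ) ≤ n := Nat.cast_nonneg n
  refine max_lt one_pos ?_
  unfold sg
  rw [div_lt_one (by linarith)]
  linarith

theorem low (n : ℕ) (w : ℝ) (hw : 1 ≤ w) : ∃ c : ℝ, 0 < c ∧ c ≤ 1 ∧
    ∀ Q H : ℝ, 1 ≤ Q → 1 ≤ H → ∀ (j : ℕ) (b : Fin j → Fin (n + 1) → ℤ),
    LinearIndependent ℚ (fun c => cst (b c)) →
    ∃ x ∈ sq, ∃ r : Fin j → Option (Fin (n + 1)),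
      (c * H ^ (-sgp n w)) ^ j ≤ |(mx (fun a => row n w Q H x (r a)) b).det| := by
  rcases le_total (n:ℝ) w with hnw | hnw
  · rw [sgp_of_le hw hnw]
    exact WnF.low n w hw hnw
  · rw [sgp_of_ge hw hnw]
    obtain ⟨c, hc, hc1, h⟩ := lowmax n w hw
    refine ⟨c, hc, hc1, ?_⟩
    intro Q H hQ hH j b hb
    rcases Nat.eq_zero_or_pos j with rfl | hj
    · refine ⟨(0, 0), ⟨by simp, by simp⟩, Fin.elim0, ?_⟩
      rw [Matrix.det_fin_zero]
      simp
    · obtain ⟨x, hx, r, hr⟩ := h Q H hQ hH j b hj hb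
      refine ⟨x, hx, r, le_trans ?_ hr⟩
      have hjn : j ≤ n + 1 := LowAux.card_le hb
      have hQ0 : 0 < Q := by linarith
      have hH0 : 0 < H := by linarith
      have hj0 : (0 : ℝ) < j := by exact_mod_cast hj
      set i : ℝ := (n:ℝ) + 1 - j with hi
      have hi0 : 0 ≤ i := by
        rw [hi]
        have : (j : ℝ) ≤ n + 1 := by exact_mod_cast hjn
        linarith
      have hmax : 1 ≤ max (Q ^ (i * j) * H ^ (-(j:ℝ))) (H ^ i * Q ^ (-(i * (i + (w - n))))) := by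
        rcases le_or_gt 1 (Q ^ (i * j) * H ^ (-(j:ℝ))) with h1 | h1
        · exact h1.trans (le_max_left _ _)
        · refine le_trans ?_ (le_max_right _ _)
          have h2 : Q ^ i ≤ H := by
            by_contra hcon
            push Not at hcon
            have h3 : H ^ (j:ℝ) ≤ (Q ^ i) ^ (j:ℝ) := Real.rpow_le_rpow hH0.le hcon.le hj0.le
            rw [← Real.rpow_mul hQ0.le] at h3
            rw [Real.rpow_neg hH0.le, ← div_eq_mul_inv, div_lt_one (Real.rpow_pos_of_pos hH0 _)] at h1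
            linarith
          have h4 : Q ^ (i * (i + (w - n))) ≤ H ^ i := by
            calc Q ^ (i * (i + (w - n))) ≤ Q ^ (i * i) :=
                  Real.rpow_le_rpow_of_exponent_le hQ (mul_le_mul_of_nonneg_left (by linarith) hi0)
              _ = (Q ^ i) ^ i := Real.rpow_mul hQ0.le i i
              _ ≤ H ^ i := Real.rpow_le_rpow (Real.rpow_nonneg hQ0.le _) h2 hi0
          rw [Real.rpow_neg hQ0.le, ← div_eq_mul_inv, le_div_iff₀ (Real.rpow_pos_of_pos hQ0 _), one_mul]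
          exact h4
      have hfirst : (c * H ^ (-(0:ℝ))) ^ j ≤ c * 1 := by
        rw [neg_zero, Real.rpow_zero]
        simp only [mul_one]
        calc c ^ j ≤ c ^ 1 := pow_le_pow_of_le_one hc.le hc1 hj
          _ = c := pow_one c
      exact hfirst.trans (mul_le_mul_of_nonneg_left hmax hc.le)

theorem psi_sup (n : ℕ) (w : ℝ) (hw : 1 ≤ w) : ∃ c : ℝ, 0 < c ∧ c ≤ 1 ∧
    ∀ Q H : ℝ, 1 ≤ Q → 1 ≤ H → ∀ W : Submodule ℚ (Fin (n + 1) → ℚ),
    ∃ x ∈ sq, (c * H ^ (-sgp n w)) ^ (finrank ℚ W) ≤ psi (row n w Q H x) W := by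
  obtain ⟨c, hc, hc1, h⟩ := low n w hw
  refine ⟨c, hc, hc1, fun Q H hQ hH W => ?_⟩
  obtain ⟨x, hx, r, hr⟩ := h Q H hQ hH (finrank ℚ W) (bas W) (exists_minimal W).choose_spec.2.1
  exact ⟨x, hx, hr.trans (le_psi _ W r)⟩

end Pool.Agent.WnG
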