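import Pool.Agent.Lib.WnF.KM
import Pool.Agent.Lib.WnG.Low

/-!
# Quantitative nondivergence, degrees above `w` included

The proof of `WnF.km` with `max (0, σ)` in place of `σ`.
-/

set_option autoImplicit false

open MeasureTheory Set Module

namespace Pool.Agent.WnG

open Pool.Agent.WnF hiding psi_sup km
open Pool.Agent.WnF.KMAux

theorem km (n : ℕ) (w : ℝ) (hw : 1 ≤ w) : ∃ A α c : ℝ, 0 < A ∧ 0 < α ∧ 0 < c ∧
    ∀ Q H θ : ℝ, 1 ≤ Q → 1 ≤ H → 0 < θ → θ ≤ 1 →
      volume {x : ℝ × ℝ | x ∈ sq ∧ ∃ v : Fin (n + 1) → ℤ, v ≠ 0 ∧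
        Small n w Q H (c * θ * H ^ (-sgp n w)) x v} ≤ ENNReal.ofReal (A * θ ^ α) := by
  classical
  obtain ⟨C0, hC0, hgood⟩ := psi_good n
  obtain ⟨c0, hc0, hc01, hchild⟩ := psi_child n
  obtain ⟨c1, hc1, hc11, hsup⟩ := psi_sup n w hw
  set α : ℝ := 1 / (2 * (((n * (n + 1) : ℕ) : ℝ) + 1)) with hα
  have hα0 : 0 < α := by rw [hα]; positivity
  have hn1 : (0:ℝ) < n + 1 := by positivity
  set c : ℝ := c0 ^ (n + 2) * c1 / (2 * (n + 1)) with hc
  have hcpos : 0 < c := by rw [hc]; positivity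
  have hc1' : c ≤ 1 := by
    rw [hc, div_le_one (by positivity)]
    have h1 : c0 ^ (n + 2) ≤ 1 := pow_le_one₀ hc0.le hc01
    have h2 : c0 ^ (n + 2) * c1 ≤ 1 := by
      calc c0 ^ (n + 2) * c1 ≤ 1 * 1 := mul_le_mul h1 hc11 hc1.le zero_le_one
        _ = 1 := one_mul 1
    have h3 : (0:ℝ) ≤ n := Nat.cast_nonneg n
    linarith
  refine ⟨(n + 2) * C0, α, c, by positivity, hα0, hcpos, ?_⟩
  intro Q H θ hQ hH hθ hθ1
  have hH0 : 0 < H := by linarith
  set ρ : ℝ := H ^ (-sgp n w) with hρ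
  have hρ0 : 0 < ρ := Real.rpow_pos_of_pos hH0 _
  have hσ0 : 0 ≤ sgp n w := sgp_nonneg n w
  have hρ1 : ρ ≤ 1 := Real.rpow_le_one_of_one_le_of_nonpos hH (by linarith)
  set δ : ℝ := c1 * ρ with hδ
  have hδ0 : 0 < δ := by rw [hδ]; positivity
  set R : ℤ := ⌈((n:ℝ) + 1) * 2 ^ n * H * Q ^ n⌉ with hR
  set ψ : Submodule ℚ (Fin (n + 1) → ℚ) → ℝ × ℝ → ℝ :=
    fun W x => psi (row n w Q H x) W / δ ^ (finrank ℚ W) with hψ
  have hδW : ∀ W : Submodule ℚ (Fin (n + 1) → ℚ), 0 < δ ^ (finrank ℚ W) := fun W => by positivity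
  have hmain := absKM (Ω := ℝ × ℝ) (γ := ℤ × ℤ) (volume : Measure (ℝ × ℝ)) cl cl_measurable
    (fun k x y h => cl_nest k x y h) (PP n R) (fun W => finrank ℚ W)
    (fun s t hst => Submodule.finrank_lt_finrank_of_lt hst) ψ
    (ENNReal.ofReal (C0 * θ ^ α)) c0 θ hc0 hc01 hθ hθ1
    (by
      intro W _ x t hxt
      have hopen := psi_cont n w Q H W (t * δ ^ (finrank ℚ W))
      have hx : x ∈ {x : ℝ × ℝ | psi (row n w Q H x) W < t * δ ^ (finrank ℚ W)} := by
        rw [hψ] at hxt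
        exact (div_lt_iff₀ (hδW W)).1 hxt
      obtain ⟨k, hk⟩ := cl_small x _ hopen hx
      refine ⟨k, fun y hy => ?_⟩
      rw [hψ]
      exact (div_lt_iff₀ (hδW W)).2 (hk y hy))
    (by
      intro W _ k x M hM hy
      obtain ⟨y, hy1, hy2⟩ := hy
      have h1 := hgood w Q H W k x (M * δ ^ (finrank ℚ W)) θ (mul_pos hM (hδW W)) hθ hθ1
        ⟨y, hy1, by rw [hψ] at hy2; exact (le_div_iff₀ (hδW W)).1 hy2⟩
      have e : {y | cl k y = cl k x ∧ ψ W y < θ * M} =
          {y | cl k y = cl k x ∧ psi (row n w Q H y) W < θ * (M * δ ^ (finrank ℚ W))} := by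
        ext z
        simp only [mem_ofPred_eq, hψ]
        rw [div_lt_iff₀ (hδW W), mul_assoc]
      rw [e]
      exact h1)
    (by
      intro W _ k x M hM hy
      obtain ⟨y, hy1, hy2⟩ := hy
      obtain ⟨z, hz1, hz2⟩ := hchild w Q H W k x (M * δ ^ (finrank ℚ W)) (mul_pos hM (hδW W))
        ⟨y, hy1, by rw [hψ] at hy2; exact (le_div_iff₀ (hδW W)).1 hy2⟩
      refine ⟨z, hz1, ?_⟩
      rw [hψ]
      refine (le_div_iff₀ (hδW W)).2 ?_
      rw [mul_assoc]
      exact hz2)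
    (n + 2) 1 one_pos (PP n R) (Finset.Subset.refl _)
    (by
      have hsub : (PP n R).image (fun W : Submodule ℚ (Fin (n + 1) → ℚ) => finrank ℚ W) ⊆
          Finset.range (n + 2) := by
        intro m hm
        rw [Finset.mem_image] at hm
        obtain ⟨W, -, rfl⟩ := hm
        rw [Finset.mem_range]
        have := finrank_le n W
        omega
      have := Finset.card_le_card hsub
      rwa [Finset.card_range] at this)
    0 (0, 0)
    (by
      intro W _
      obtain ⟨x, hx, hx2⟩ := hsup Q H hQ hH W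
      refine ⟨x, ?_, ?_⟩
      · rw [← cl_zero] at hx
        exact hx
      · rw [hψ]
        exact (le_div_iff₀ (hδW W)).2 (by rw [one_mul]; exact hx2))
  have hcell : volume {y | cl 0 y = cl 0 ((0:ℝ), (0:ℝ))} = 1 := by
    rw [cl_zero, volume_sq]
  rw [hcell] at hmain
  simp only [mul_one] at hmain
  have hsubset : {x : ℝ × ℝ | x ∈ sq ∧ ∃ v : Fin (n + 1) → ℤ, v ≠ 0 ∧
        Small n w Q H (c * θ * ρ) x v} ⊆
      {y | cl 0 y = cl 0 (0, 0) ∧ ¬ Marked (PP n R) ψ (c0 ^ (n + 2)) θ 1 y} := by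
    rintro y ⟨hy, v, hv0, hv⟩
    refine ⟨?_, ?_⟩
    · have : y ∈ {y | cl 0 y = cl 0 ((0:ℝ), (0:ℝ))} := by rw [cl_zero]; exact hy
      exact this
    · rintro ⟨F, hFP, hF, hF1, hF2⟩
      have hτ1 : c * θ * ρ ≤ 1 := by
        calc c * θ * ρ ≤ 1 * 1 * 1 := by
              refine mul_le_mul (mul_le_mul hc1' hθ1 hθ.le zero_le_one) hρ1 hρ0.le (by norm_num)
          _ = 1 := by norm_num
      have hv1 : Small n w Q H 1 (y.1, y.2) v := fun r => (hv r).trans_le hτ1
      have hyκ : y.1 ∈ Icc (0:ℝ) 1 := ⟨hy.1.1, hy.1.2.le⟩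
      have hbd : ∀ e, |v e| ≤ R := by
        intro e
        have h1 := small_bound n w Q H y.1 y.2 hQ hH hyκ v hv1 e
        have h2 := h1.trans (Int.le_ceil _)
        have h3 : ((|v e| : ℤ) : ℝ) ≤ (R : ℝ) := by
          rw [Int.cast_abs]
          exact h2
        exact Int.cast_le.1 h3
      obtain ⟨j, hj, hlo⟩ := marked_bound (row n w Q H y) (PP n R) F hF
        (fun j => θ * c0 ^ (n + 2) * δ ^ j) (fun j => δ ^ j)
        (by
          intro W hW
          obtain ⟨h1, h2⟩ := hF1 W hW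
          simp only [hψ] at h1 h2
          rw [le_div_iff₀ (hδW W)] at h1
          rw [div_le_iff₀ (hδW W)] at h2
          refine ⟨?_, ?_⟩
          · linarith
          · linarith)
        (by
          intro W hW hWF hcomp
          have h1 := hF2 W hW hWF (fun f hf => hcomp f hf)
          simp only [hψ] at h1
          rw [le_div_iff₀ (hδW W)] at h1
          change θ * c0 ^ (n + 2) * δ ^ (finrank ℚ W) ≤ _
          have h3 : θ * c0 ^ (n + 2) * δ ^ (finrank ℚ W) ≤ c0 ^ (n + 2) * δ ^ (finrank ℚ W) := by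
            have h4 : 0 < c0 ^ (n + 2) * δ ^ (finrank ℚ W) := by
              have := hδW W
              positivity
            nlinarith
          exact h3.trans h1)
        (by simp) v hv0 (fun W hW => sup_mem hbd (hFP hW)) (single_mem hbd) (c * θ * ρ)
        (fun r => (hv r).le)
      have hδj : 0 < δ ^ j := by positivity
      have hjn : (j : ℝ) ≤ n := by exact_mod_cast hj
      have k1 : θ * c0 ^ (n + 2) * δ ^ (j + 1) = (θ * ρ * δ ^ j) * (c0 ^ (n + 2) * c1) := by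
        rw [pow_succ, hδ]; ring
      have k2 : ((j : ℝ) + 1) * (c * θ * ρ) * δ ^ j = (θ * ρ * δ ^ j) * (((j : ℝ) + 1) * c) := by
        ring
      rw [k1, k2] at hlo
      have k3 := le_of_mul_le_mul_left hlo (by positivity)
      have k4 : ((j : ℝ) + 1) * c ≤ (n + 1) * c := mul_le_mul_of_nonneg_right (by linarith) hcpos.le
      have k5 : ((n : ℝ) + 1) * c = c0 ^ (n + 2) * c1 / 2 := by
        rw [hc]; field_simp
      have k6 : 0 < c0 ^ (n + 2) * c1 := by positivity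
      linarith
  refine (measure_mono hsubset).trans (hmain.trans (le_of_eq ?_))
  have e1 : (((n + 2 : ℕ) : ENNReal)) = ENNReal.ofReal ((n : ℝ) + 2) := by
    have : ((n : ℝ) + 2) = ((n + 2 : ℕ) : ℝ) := by push_cast; ring
    rw [this, ENNReal.ofReal_natCast]
  rw [e1, ← ENNReal.ofReal_mul (by positivity)]
  congr 1
  ring

end Pool.Agent.WnG
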