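import Pool.Agent.Lib.WnF.Step

/-!
# The selection theorem with a different rare predicate at every stage

The proof of `WnF.selection`; and finitely many rare predicates together are rare.
-/

set_option autoImplicit false

open MeasureTheory Set

namespace Pool.Agent.WnG

open Pool.Agent.WnF (Rare St sc sq BadR one_le_sc)
open Pool.Agent.WnF

theorem selection (w : ℝ) (hw : 1 ≤ w) (Bd : ℕ → ℝ → ℝ × ℝ → Prop)
    (hBd : ∀ k : ℕ, Rare (Bd k)) (N : ℕ → ℝ) :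
    ∃ ξ : ℝ, Transcendental ℚ ξ ∧ ∃ (S : ℕ → St) (s : ℕ → ℝ), ∀ k,
      N k ≤ sc (S k).q ∧ sc (S k).q < sc (S (k + 1)).q ∧ s k ∈ Icc (0:ℝ) 1 ∧
      ¬ Bd k (sc (S k).q) ((S k).κ, s k) ∧ ξ ∈ (S k).J w ∧
      ∃ s' ∈ Icc (0:ℝ) 1, ξ = (S k).mob ((S k).E w * (2 + s')) ∧
        |s' - s k| ≤ 1 / sc (S (k + 1)).q := by
  obtain ⟨y, hy⟩ := (Algebraic.countable ℚ ℝ).exists_eq_range ⟨0, isAlgebraic_zero⟩
  obtain ⟨S0, hS0, hN0⟩ := init w hw (Bd 0) (hBd 0) (N 0)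
  have : Nonempty St := ⟨S0⟩
  have hstep : ∀ (k : ℕ) (S : St), ¬ BadR (Bd k) S.q S.q' → ∃ (S' : St) (s : ℝ),
      s ∈ Icc (0:ℝ) 1 ∧ ¬ BadR (Bd (k + 1)) S'.q S'.q' ∧
      max (N (k + 1)) (2 * sc S.q) ≤ sc S'.q ∧
      ¬ Bd k (sc S.q) (S.κ, s) ∧ ∀ ξ ∈ S'.J w, ξ ≠ y k ∧
        ∃ s' ∈ Icc (0:ℝ) 1, ξ = S.mob (S.E w * (2 + s')) ∧ |s' - s| ≤ 1 / sc S'.q :=
    fun k S hS => step w hw (Bd k) (Bd (k + 1)) (hBd (k + 1)) S hS (y k) _
  choose! nx sv hnx using hstep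
  let T : ℕ → St := fun k => Nat.rec S0 (fun k S => nx k S) k
  have hT0 : T 0 = S0 := rfl
  have hT : ∀ k, T (k + 1) = nx k (T k) := fun k => rfl
  have hgood : ∀ k, ¬ BadR (Bd k) (T k).q (T k).q' := by
    intro k
    induction k with
    | zero => exact hS0
    | succ k ih =>
      rw [hT]
      exact (hnx k (T k) ih).2.1
  have hN : ∀ k, N k ≤ sc (T k).q := by
    intro k
    cases k with
    | zero => exact hN0
    | succ k =>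
      rw [hT]
      exact (le_max_left _ _).trans (hnx k (T k) (hgood k)).2.2.1
  have hsub : ∀ k, (T (k + 1)).J w ⊆ (T k).J w := by
    intro k ξ hξ
    rw [hT] at hξ
    obtain ⟨-, s', hs', h1, -⟩ := (hnx k (T k) (hgood k)).2.2.2.2 ξ hξ
    have hE : 1 ≤ (T k).E w := (T k).one_le_E w hw
    refine ⟨(T k).E w * (2 + s'), ⟨?_, ?_⟩, h1.symm⟩
    · nlinarith [hs'.1]
    · nlinarith [hs'.2]
  obtain ⟨ξ, hξ⟩ := IsCompact.nonempty_iInter_of_sequence_nonempty_isCompact_isClosed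
    (fun k => (T k).J w) hsub (fun k => ((T k).J_compact w hw).2) ((T 0).J_compact w hw).1
    (fun k => ((T k).J_compact w hw).1.isClosed)
  rw [mem_iInter] at hξ
  refine ⟨ξ, ?_, T, fun k => sv k (T k), fun k => ?_⟩
  · intro halg
    have h1 : ξ ∈ {x : ℝ | IsAlgebraic ℚ x} := halg
    rw [hy] at h1
    obtain ⟨k, hk⟩ := h1
    have h2 := hξ (k + 1)
    have h3 : ξ ∈ (nx k (T k)).J w := h2
    exact ((hnx k (T k) (hgood k)).2.2.2.2 ξ h3).1 hk.symm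
  · have hk := hnx k (T k) (hgood k)
    refine ⟨hN k, ?_, hk.1, hk.2.2.2.1, hξ k, ?_⟩
    · rw [hT]
      have h1 := (le_max_right _ _).trans hk.2.2.1
      have h2 := one_le_sc (T k).q
      linarith
    · have h3 : ξ ∈ (nx k (T k)).J w := hξ (k + 1)
      exact (hk.2.2.2.2 ξ h3).2

/-- Two rare predicates. -/
theorem rare_or {B1 B2 : ℝ → ℝ × ℝ → Prop} (h1 : Rare B1) (h2 : Rare B2) :
    Rare (fun Q x => B1 Q x ∨ B2 Q x) := by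
  obtain ⟨C1, b1, hb1, h1⟩ := h1
  obtain ⟨C2, b2, hb2, h2⟩ := h2
  refine ⟨|C1| + |C2|, min b1 b2, lt_min hb1 hb2, fun Q hQ => ?_⟩
  have hQ0 : 0 < Q := by linarith
  have e : {x : ℝ × ℝ | x ∈ sq ∧ ∃ κ' : ℝ, |κ' - x.1| ≤ 1 / (8 * Q ^ 2) ∧
      (B1 Q (κ', x.2) ∨ B2 Q (κ', x.2))} ⊆
      {x : ℝ × ℝ | x ∈ sq ∧ ∃ κ' : ℝ, |κ' - x.1| ≤ 1 / (8 * Q ^ 2) ∧ B1 Q (κ', x.2)} ∪
      {x : ℝ × ℝ | x ∈ sq ∧ ∃ κ' : ℝ, |κ' - x.1| ≤ 1 / (8 * Q ^ 2) ∧ B2 Q (κ', x.2)} := by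
    rintro x ⟨hx, κ', hκ, h | h⟩
    · exact Or.inl ⟨hx, κ', hκ, h⟩
    · exact Or.inr ⟨hx, κ', hκ, h⟩
  refine (measure_mono e).trans ((measure_union_le _ _).trans ((add_le_add (h1 Q hQ) (h2 Q hQ)).trans ?_))
  have k1 : C1 * Q ^ (-b1) ≤ |C1| * Q ^ (-(min b1 b2)) := by
    have h3 : Q ^ (-b1) ≤ Q ^ (-(min b1 b2)) :=
      Real.rpow_le_rpow_of_exponent_le hQ (neg_le_neg (min_le_left _ _))
    have h4 : 0 ≤ Q ^ (-b1) := Real.rpow_nonneg hQ0.le _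
    calc C1 * Q ^ (-b1) ≤ |C1| * Q ^ (-b1) := mul_le_mul_of_nonneg_right (le_abs_self _) h4
      _ ≤ _ := mul_le_mul_of_nonneg_left h3 (abs_nonneg _)
  have k2 : C2 * Q ^ (-b2) ≤ |C2| * Q ^ (-(min b1 b2)) := by
    have h3 : Q ^ (-b2) ≤ Q ^ (-(min b1 b2)) :=
      Real.rpow_le_rpow_of_exponent_le hQ (neg_le_neg (min_le_right _ _))
    have h4 : 0 ≤ Q ^ (-b2) := Real.rpow_nonneg hQ0.le _
    calc C2 * Q ^ (-b2) ≤ |C2| * Q ^ (-b2) := mul_le_mul_of_nonneg_right (le_abs_self _) h4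
      _ ≤ _ := mul_le_mul_of_nonneg_left h3 (abs_nonneg _)
  have hpos : 0 ≤ Q ^ (-(min b1 b2)) := Real.rpow_nonneg hQ0.le _
  calc ENNReal.ofReal (C1 * Q ^ (-b1)) + ENNReal.ofReal (C2 * Q ^ (-b2))
      ≤ ENNReal.ofReal (|C1| * Q ^ (-(min b1 b2))) + ENNReal.ofReal (|C2| * Q ^ (-(min b1 b2))) :=
        add_le_add (ENNReal.ofReal_le_ofReal k1) (ENNReal.ofReal_le_ofReal k2)
    _ = ENNReal.ofReal ((|C1| + |C2|) * Q ^ (-(min b1 b2))) := by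
        rw [← ENNReal.ofReal_add (mul_nonneg (abs_nonneg _) hpos) (mul_nonneg (abs_nonneg _) hpos), add_mul]

/-- Finitely many rare predicates. -/
theorem rare_lt {B : ℕ → ℝ → ℝ × ℝ → Prop} (h : ∀ n, Rare (B n)) (m : ℕ) :
    Rare (fun Q x => ∃ n, n < m ∧ B n Q x) := by
  induction m with
  | zero =>
    refine ⟨0, 1, one_pos, fun Q _ => ?_⟩
    have e : {x : ℝ × ℝ | x ∈ sq ∧ ∃ κ' : ℝ, |κ' - x.1| ≤ 1 / (8 * Q ^ 2) ∧
        ∃ n, n < 0 ∧ B n Q (κ', x.2)} = ∅ := by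
      rw [Set.eq_empty_iff_forall_notMem]
      rintro x ⟨_, _, _, n, hn, _⟩
      exact absurd hn (Nat.not_lt_zero n)
    rw [e, measure_empty]
    exact zero_le
  | succ m ih =>
    have e : (fun (Q : ℝ) (x : ℝ × ℝ) => ∃ n, n < m + 1 ∧ B n Q x) =
        fun Q x => (∃ n, n < m ∧ B n Q x) ∨ B m Q x := by
      funext Q x
      apply propext
      constructor
      · rintro ⟨n, hn, hB⟩
        rcases Nat.lt_succ_iff_lt_or_eq.1 hn with h1 | rfl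
        · exact Or.inl ⟨n, h1, hB⟩
        · exact Or.inr hB
      · rintro (⟨n, hn, hB⟩ | hB)
        · exact ⟨n, by omega, hB⟩
        · exact ⟨m, by omega, hB⟩
    rw [e]
    exact rare_or ih (h m)

end Pool.Agent.WnG
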