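import Pool.Agent.Lib.WnF.DKM
import Pool.Agent.Lib.WnF.DExp
import Pool.Agent.Lib.WnF.DStab
import Pool.Agent.Lib.WnG.Sel

/-!
# The dually bad points are rare, degrees above `w`

The proof of `WnF.dkm` does not use `n ≤ w`.  For `w ≤ n` the condition `hm` of `dkm` holds with `m = 1` at every scale `H ≥ 1`:
if `H ≤ Q^i` the first number is `≥ 1`; if `Q^i ≤ H` the second one is `(H Q^(-(i+w-n)))^i ≥ 1`.
-/

set_option autoImplicit false

open MeasureTheory Set Module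

namespace Pool.Agent.WnG

open Pool.Agent.WnF hiding dkm mcond
open Pool.Agent.WnF.DKMAux

theorem dkm (n : ℕ) (w : ℝ) (hw : 1 ≤ w) : ∃ A α c : ℝ, 0 < A ∧ 0 < α ∧ 0 < c ∧
    ∀ Q H m θ : ℝ, 1 ≤ Q → 1 ≤ H → 0 < m → m ≤ 1 →
      (∀ i : ℕ, 1 ≤ i → i ≤ n → m ^ i ≤ max (Q ^ ((i:ℝ) * ((n:ℝ) + 1 - i)) * H ^ (-((n:ℝ) + 1 - i)))
        (H ^ (i:ℝ) * Q ^ (-((i:ℝ) * (i + (w - n)))))) →
      0 < θ → θ ≤ 1 →
      volume {x : ℝ × ℝ | x ∈ sq ∧ ∃ y : Fin (n + 1) → ℤ, y ≠ 0 ∧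
        DSmall n w Q H (c * θ * m) x y} ≤ ENNReal.ofReal (A * θ ^ α) := by
  classical
  obtain ⟨C0, hC0, hgood⟩ := psi_good n
  obtain ⟨c0, hc0, hc01, hchild⟩ := psi_child n
  obtain ⟨c1, hc1, hc11, hlow⟩ := lowmax n w hw
  obtain ⟨C2, hC2, htop⟩ := psi_top n w hw
  have hC20 : 0 < C2 := by linarith
  set α : ℝ := 1 / (2 * (((n * (n + 1) : ℕ) : ℝ) + 1)) with hα
  have hα0 : 0 < α := by rw [hα]; positivity
  have hn1 : (0:ℝ) < n + 2 := by positivity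
  set c : ℝ := c0 ^ (n + 2) * c1 ^ 2 / (2 * (n + 2) * C2) with hc
  have hcpos : 0 < c := by rw [hc]; positivity
  have hc1' : c ≤ 1 := by
    rw [hc, div_le_one (by positivity)]
    have h1 : c0 ^ (n + 2) ≤ 1 := pow_le_one₀ hc0.le hc01
    have h1' : c1 ^ 2 ≤ 1 := pow_le_one₀ hc1.le hc11
    have h2 : c0 ^ (n + 2) * c1 ^ 2 ≤ 1 := by
      calc c0 ^ (n + 2) * c1 ^ 2 ≤ 1 * 1 := mul_le_mul h1 h1' (by positivity) zero_le_one
        _ = 1 := one_mul 1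
    have h3 : (0:ℝ) ≤ n := Nat.cast_nonneg n
    have h4 : 1 ≤ 2 * ((n:ℝ) + 2) := by linarith
    have h5 : 1 * 1 ≤ 2 * ((n:ℝ) + 2) * C2 := mul_le_mul h4 hC2 zero_le_one (by linarith)
    linarith
  refine ⟨(n + 2) * C0, α, c, by positivity, hα0, hcpos, ?_⟩
  intro Q H m θ hQ hH hm0 hm1 hm hθ hθ1
  have hH0 : 0 < H := by linarith
  have hsup := sup_thr n (w := w) hc1 hc11 (Q := Q) (H := H) hm0 hm hm1 (hlow Q H hQ hH)
  set R : ℤ := ⌈((n:ℝ) + 1) * 2 ^ n * Q ^ n + 3 ^ n * H ^ n⌉ with hR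
  set ψ : Submodule ℚ (Fin (n + 1) → ℚ) → ℝ × ℝ → ℝ :=
    fun W x => psi (row n w Q H x) W / thr n c1 m (finrank ℚ W) with hψ
  have hδW : ∀ W : Submodule ℚ (Fin (n + 1) → ℚ), 0 < thr n c1 m (finrank ℚ W) :=
    fun W => thr_pos n hc1 hm0 _
  have hmain := absKM (Ω := ℝ × ℝ) (γ := ℤ × ℤ) (volume : Measure (ℝ × ℝ)) cl cl_measurable
    (fun k x y h => cl_nest k x y h) (PP n R) (fun W => finrank ℚ W)
    (fun s t hst => Submodule.finrank_lt_finrank_of_lt hst) ψ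
    (ENNReal.ofReal (C0 * θ ^ α)) c0 θ hc0 hc01 hθ hθ1
    (by
      intro W _ x t hxt
      have hopen := psi_cont n w Q H W (t * thr n c1 m (finrank ℚ W))
      have hx : x ∈ {x : ℝ × ℝ | psi (row n w Q H x) W < t * thr n c1 m (finrank ℚ W)} := by
        rw [hψ] at hxt
        exact (div_lt_iff₀ (hδW W)).1 hxt
      obtain ⟨k, hk⟩ := cl_small x _ hopen hx
      refine ⟨k, fun y hy => ?_⟩
      rw [hψ]
      exact (div_lt_iff₀ (hδW W)).2 (hk y hy))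
    (by
      intro W _ k x M hM hy
      obtain ⟨y, hy1, hy2⟩ := hy
      have h1 := hgood w Q H W k x (M * thr n c1 m (finrank ℚ W)) θ (mul_pos hM (hδW W)) hθ hθ1
        ⟨y, hy1, by rw [hψ] at hy2; exact (le_div_iff₀ (hδW W)).1 hy2⟩
      have e : {y | cl k y = cl k x ∧ ψ W y < θ * M} =
          {y | cl k y = cl k x ∧
            psi (row n w Q H y) W < θ * (M * thr n c1 m (finrank ℚ W))} := by
        ext z
        simp only [mem_ofPred_eq, hψ]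
        rw [div_lt_iff₀ (hδW W), mul_assoc]
      rw [e]
      exact h1)
    (by
      intro W _ k x M hM hy
      obtain ⟨y, hy1, hy2⟩ := hy
      obtain ⟨z, hz1, hz2⟩ := hchild w Q H W k x (M * thr n c1 m (finrank ℚ W))
        (mul_pos hM (hδW W)) ⟨y, hy1, by rw [hψ] at hy2; exact (le_div_iff₀ (hδW W)).1 hy2⟩
      refine ⟨z, hz1, ?_⟩
      rw [hψ]
      refine (le_div_iff₀ (hδW W)).2 ?_
      rw [mul_assoc]
      exact hz2)
    (n + 2) 1 one_pos (PP n R) (Finset.Subset.refl _)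
    (by
      have hsub : (PP n R).image (fun W : Submodule ℚ (Fin (n + 1) → ℚ) => finrank ℚ W) ⊆
          Finset.range (n + 2) := by
        intro m hm
        rw [Finset.mem_image] at hm
        obtain ⟨W, -, rfl⟩ := hm
        rw [Finset.mem_range]
        have := finrank_le n W
        omega
      have := Finset.card_le_card hsub
      rwa [Finset.card_range] at this)
    0 (0, 0)
    (by
      intro W _
      obtain ⟨x, hx, hx2⟩ := hsup W
      refine ⟨x, ?_, ?_⟩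
      · rw [← cl_zero] at hx
        exact hx
      · rw [hψ]
        exact (le_div_iff₀ (hδW W)).2 (by rw [one_mul]; exact hx2))
  have hcell : volume {y | cl 0 y = cl 0 ((0:ℝ), (0:ℝ))} = 1 := by
    rw [cl_zero, volume_sq]
  rw [hcell] at hmain
  simp only [mul_one] at hmain
  have hsubset : {x : ℝ × ℝ | x ∈ sq ∧ ∃ y : Fin (n + 1) → ℤ, y ≠ 0 ∧
        DSmall n w Q H (c * θ * m) x y} ⊆
      {y | cl 0 y = cl 0 (0, 0) ∧ ¬ Marked (PP n R) ψ (c0 ^ (n + 2)) θ 1 y} := by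
    rintro y ⟨hy, v, hv0, hv⟩
    refine ⟨?_, ?_⟩
    · have : y ∈ {y | cl 0 y = cl 0 ((0:ℝ), (0:ℝ))} := by rw [cl_zero]; exact hy
      exact this
    · rintro ⟨F, hFP, hF, hF1, hF2⟩
      obtain ⟨u, hu, hyu⟩ := hv
      have hτ1 : c * θ * m ≤ 1 := by
        calc c * θ * m ≤ 1 * 1 * 1 := by
              refine mul_le_mul (mul_le_mul hc1' hθ1 hθ.le zero_le_one) hm1 hm0.le (by norm_num)
          _ = 1 := by norm_num
      have hv1 : DSmall n w Q H 1 y v := ⟨u, fun r => (hu r).trans_le hτ1, hyu⟩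
      have hbd : ∀ e, |v e| ≤ R := by
        intro e
        have h1 := box_bound hw hQ hH hy hv1 e
        have h2 := h1.trans (Int.le_ceil _)
        have h3 : ((|v e| : ℤ) : ℝ) ≤ (R : ℝ) := by
          rw [Int.cast_abs]
          exact h2
        exact Int.cast_le.1 h3
      obtain ⟨j, hj, hlo⟩ := dmarked_bound (row n w Q H y) (PP n R) F hF
        (fun j => θ * c0 ^ (n + 2) * thr n c1 m j) (fun j => C2 / c1 * thr n c1 m j)
        (by
          intro W hW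
          obtain ⟨h1, h2⟩ := hF1 W hW
          simp only [hψ] at h1 h2
          rw [le_div_iff₀ (hδW W)] at h1
          rw [div_le_iff₀ (hδW W)] at h2
          refine ⟨?_, ?_⟩
          · linarith
          · have h3 : 1 ≤ C2 / c1 := by
              rw [le_div_iff₀ hc1]
              linarith
            have h4 := hδW W
            change psi (row n w Q H y) W ≤ C2 / c1 * thr n c1 m (finrank ℚ W)
            nlinarith)
        (by
          intro W hW hWF hcomp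
          have h1 := hF2 W hW hWF (fun f hf => hcomp f hf)
          simp only [hψ] at h1
          rw [le_div_iff₀ (hδW W)] at h1
          change θ * c0 ^ (n + 2) * thr n c1 m (finrank ℚ W) ≤ _
          have h3 : θ * c0 ^ (n + 2) * thr n c1 m (finrank ℚ W) ≤
              c0 ^ (n + 2) * thr n c1 m (finrank ℚ W) := by
            have h4 : 0 < c0 ^ (n + 2) * thr n c1 m (finrank ℚ W) := by
              have := hδW W
              positivity
            nlinarith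
          exact h3.trans h1)
        (by
          change psi (row n w Q H y) ⊤ ≤ C2 / c1 * thr n c1 m (n + 1)
          have h1 : thr n c1 m (n + 1) = c1 := by
            unfold thr
            simp
          rw [h1, div_mul_cancel₀ _ hc1.ne']
          exact htop Q H hQ hH y hy)
        v hv0 (fun W hW => inf_mem hbd (hFP hW)) (single_mem hbd) (c * θ * m)
        u (fun r => (hu r).le) hyu
      have hδj : 0 < thr n c1 m (j + 1) := thr_pos n hc1 hm0 _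
      have hcard : (Fintype.card (Option (Fin (n + 1))) : ℝ) = n + 2 := by
        rw [Fintype.card_option, Fintype.card_fin]
        push_cast
        ring
      have k1 : θ * c0 ^ (n + 2) * thr n c1 m j =
          (θ * m * thr n c1 m (j + 1)) * (c0 ^ (n + 2) * c1) := by
        rw [thr_step n c1 m hj]; ring
      have k2 : (Fintype.card (Option (Fin (n + 1))) : ℝ) * (c * θ * m) *
          (C2 / c1 * thr n c1 m (j + 1)) =
          (θ * m * thr n c1 m (j + 1)) * ((n + 2) * c * (C2 / c1)) := by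
        rw [hcard]; ring
      rw [k1, k2] at hlo
      have k3 := le_of_mul_le_mul_left hlo (by positivity)
      have k5 : ((n : ℝ) + 2) * c * (C2 / c1) = c0 ^ (n + 2) * c1 / 2 := by
        rw [hc]; field_simp
      have k6 : 0 < c0 ^ (n + 2) * c1 := by positivity
      linarith
  refine (measure_mono hsubset).trans (hmain.trans (le_of_eq ?_))
  have e1 : (((n + 2 : ℕ) : ENNReal)) = ENNReal.ofReal ((n : ℝ) + 2) := by
    have : ((n : ℝ) + 2) = ((n + 2 : ℕ) : ℝ) := by push_cast; ring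
    rw [this, ENNReal.ofReal_natCast]
  rw [e1, ← ENNReal.ofReal_mul (by positivity)]
  congr 1
  ring


theorem mcond (n : ℕ) (w : ℝ) (hwn : w ≤ (n:ℝ)) (Q H : ℝ) (hQ : 1 ≤ Q) (hH : 1 ≤ H)
    (i : ℕ) (hi : 1 ≤ i) (hin : i ≤ n) :
    (1:ℝ) ^ i ≤ max (Q ^ ((i:ℝ) * ((n:ℝ) + 1 - i)) * H ^ (-((n:ℝ) + 1 - i)))
      (H ^ (i:ℝ) * Q ^ (-((i:ℝ) * (i + (w - n))))) := by
  have hQ0 : 0 < Q := by linarith
  have hH0 : 0 < H := by linarith
  have hi1 : (1:ℝ) ≤ i := by exact_mod_cast hi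
  have hin' : (i:ℝ) ≤ n := by exact_mod_cast hin
  rw [one_pow]
  rcases le_total H (Q ^ (i:ℝ)) with h | h
  · refine le_max_of_le_left ?_
    rw [Real.rpow_mul hQ0.le, Real.rpow_neg hH0.le, ← div_eq_mul_inv, one_le_div (Real.rpow_pos_of_pos hH0 _)]
    exact Real.rpow_le_rpow hH0.le h (by linarith)
  · refine le_max_of_le_right ?_
    rw [Real.rpow_neg hQ0.le, ← div_eq_mul_inv, one_le_div (Real.rpow_pos_of_pos hQ0 _)]
    calc Q ^ ((i:ℝ) * (i + (w - n))) ≤ Q ^ ((i:ℝ) * i) :=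
          Real.rpow_le_rpow_of_exponent_le hQ (mul_le_mul_of_nonneg_left (by linarith) (by linarith))
      _ = (Q ^ (i:ℝ)) ^ (i:ℝ) := Real.rpow_mul hQ0.le _ _
      _ ≤ H ^ (i:ℝ) := Real.rpow_le_rpow (Real.rpow_nonneg hQ0.le _) h (by linarith)

/-- Dually bad points for the degrees `n ≥ w`. -/
def DBad (n : ℕ) (w c ε Q : ℝ) (x : ℝ × ℝ) : Prop :=
  1 ≤ n ∧ w ≤ (n:ℝ) ∧ ∃ h : ℕ, Q ^ ε ≤ 2 ^ h ∧
    ∃ y : Fin (n + 1) → ℤ, y ≠ 0 ∧ DSmall n w Q (2 ^ h) (c * ((2:ℝ) ^ h) ^ (-ε)) x y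

namespace DBadMAux

theorem small_mono {n : ℕ} {w Q H τ τ' : ℝ} {x : ℝ × ℝ} {v : Fin (n + 1) → ℤ} (h : τ ≤ τ')
    (hv : DSmall n w Q H τ x v) : DSmall n w Q H τ' x v := by
  obtain ⟨u, hu, hy⟩ := hv
  exact ⟨u, fun r => (hu r).trans_le h, hy⟩

/-- the bad set is covered by the sets of `dkm` -/
theorem cover {n : ℕ} {w c c1 C ε Q : ℝ} (hC : 1 ≤ C) (hc : c * C ≤ c1)
    (hst : ∀ Q H τ κ κ' s : ℝ, 1 ≤ Q → 1 ≤ H → |κ - κ'| * Q ^ 2 ≤ 1 →
      ∀ v : Fin (n + 1) → ℤ, DSmall n w Q H τ (κ', s) v → DSmall n w Q H (C * τ) (κ, s) v)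
    (hQ : 1 ≤ Q) {h0 : ℕ} (hh0 : ∀ h : ℕ, Q ^ ε ≤ 2 ^ h → h0 ≤ h) :
    {x : ℝ × ℝ | x ∈ sq ∧ ∃ κ' : ℝ, |κ' - x.1| ≤ 1 / (8 * Q ^ 2) ∧ DBad n w c ε Q (κ', x.2)} ⊆
      ⋃ j : ℕ, {x : ℝ × ℝ | x ∈ sq ∧ ∃ v : Fin (n + 1) → ℤ, v ≠ 0 ∧
        DSmall n w Q (2 ^ (h0 + j)) (c1 * ((2 : ℝ) ^ (h0 + j)) ^ (-ε) * 1) x v} := by
  rintro ⟨κ, s⟩ ⟨hx, κ', hκ, -, -, h, hh, v, hv0, hv⟩
  obtain ⟨j, rfl⟩ := Nat.exists_eq_add_of_le (hh0 h hh)
  refine mem_iUnion.2 ⟨j, hx, v, hv0, ?_⟩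
  have hH : (1 : ℝ) ≤ 2 ^ (h0 + j) := one_le_pow₀ (by norm_num)
  have hk : |κ - κ'| * Q ^ 2 ≤ 1 := by
    rw [abs_sub_comm]
    have h1 : |κ' - κ| * Q ^ 2 ≤ 1 / (8 * Q ^ 2) * Q ^ 2 :=
      mul_le_mul_of_nonneg_right hκ (by positivity)
    have h2 : 1 / (8 * Q ^ 2) * Q ^ 2 = 1 / 8 := by field_simp
    linarith
  have h3 := hst Q (2 ^ (h0 + j)) _ κ κ' s hQ hH hk v hv
  refine small_mono ?_ h3
  rw [mul_one]
  calc C * (c * ((2 : ℝ) ^ (h0 + j)) ^ (-ε)) = (c * C) * ((2 : ℝ) ^ (h0 + j)) ^ (-ε) := by ring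
    _ ≤ c1 * ((2 : ℝ) ^ (h0 + j)) ^ (-ε) := mul_le_mul_of_nonneg_right hc (by positivity)

end DBadMAux

open DBadMAux in
theorem dbad_rare (n : ℕ) (w : ℝ) (hw : 1 ≤ w) : ∃ c : ℝ, 0 < c ∧ c ≤ 1 ∧
    ∀ ε : ℝ, 0 < ε → Rare (DBad n w c ε) := by
  by_cases hcase : 1 ≤ n ∧ w ≤ (n:ℝ)
  swap
  · refine ⟨1, one_pos, le_rfl, fun ε _ => ⟨0, 1, one_pos, fun Q _ => ?_⟩⟩
    have e : {x : ℝ × ℝ | x ∈ sq ∧ ∃ κ' : ℝ, |κ' - x.1| ≤ 1 / (8 * Q ^ 2) ∧ DBad n w 1 ε Q (κ', x.2)} = ∅ := by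
      rw [Set.eq_empty_iff_forall_notMem]
      rintro x ⟨_, _, _, h1, h2, _⟩
      exact hcase ⟨h1, h2⟩
    rw [e, measure_empty]
    exact zero_le
  obtain ⟨hn, hwn⟩ := hcase
  obtain ⟨A, α, c1, hA, hα, hc1, hkm⟩ := dkm n w hw
  obtain ⟨C, hC, hst⟩ := dstab_kap n w
  have hC0 : 0 < C := by linarith
  refine ⟨min 1 (c1 / C), lt_min one_pos (by positivity), min_le_left _ _, ?_⟩
  intro ε hε
  have hc : min 1 (c1 / C) * C ≤ c1 := by
    calc min 1 (c1 / C) * C ≤ c1 / C * C := mul_le_mul_of_nonneg_right (min_le_right _ _) hC0.le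
      _ = c1 := by field_simp
  set r : ℝ := (2 : ℝ) ^ (-(ε * α)) with hr
  have hr0 : 0 < r := by positivity
  have hr1 : r < 1 := Real.rpow_lt_one_of_one_lt_of_neg (by norm_num) (by
    have : 0 < ε * α := by positivity
    linarith)
  refine ⟨A / (1 - r), ε * (ε * α), by positivity, ?_⟩
  intro Q hQ
  have hQ0 : 0 < Q := by linarith
  have hex : ∃ h : ℕ, Q ^ ε ≤ 2 ^ h := by
    obtain ⟨h, hh⟩ := pow_unbounded_of_one_lt (Q ^ ε) (one_lt_two (α := ℝ))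
    exact ⟨h, hh.le⟩
  classical
  set h0 : ℕ := Nat.find hex with hh0
  have hfind : Q ^ ε ≤ 2 ^ h0 := Nat.find_spec hex
  refine (measure_mono (cover hC hc hst hQ fun h hh => Nat.find_min' hex hh)).trans ?_
  refine (measure_iUnion_le _).trans ?_
  have hterm : ∀ j : ℕ, volume {x : ℝ × ℝ | x ∈ sq ∧ ∃ v : Fin (n + 1) → ℤ, v ≠ 0 ∧
      DSmall n w Q (2 ^ (h0 + j)) (c1 * ((2 : ℝ) ^ (h0 + j)) ^ (-ε) * 1) x v} ≤
        ENNReal.ofReal (A * r ^ h0 * r ^ j) := by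
    intro j
    have hH : (1 : ℝ) ≤ 2 ^ (h0 + j) := one_le_pow₀ (by norm_num)
    have hk := hkm Q (2 ^ (h0 + j)) 1
      (((2 : ℝ) ^ (h0 + j)) ^ (-ε)) hQ hH one_pos le_rfl
      (fun i hi hin => mcond n w hwn Q _ hQ hH i hi hin) (by positivity)
      (Real.rpow_le_one_of_one_le_of_nonpos hH (by linarith))
    refine hk.trans (le_of_eq ?_)
    congr 1
    rw [mul_assoc, ← pow_add, hr, ← Real.rpow_natCast (2 : ℝ) (h0 + j),
      ← Real.rpow_mul (by positivity), ← Real.rpow_mul (by positivity),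
      ← Real.rpow_natCast _ (h0 + j), ← Real.rpow_mul (by positivity)]
    congr 2
    ring
  refine (ENNReal.tsum_le_tsum hterm).trans ?_
  have hsum : Summable fun j : ℕ => A * r ^ h0 * r ^ j :=
    (summable_geometric_of_lt_one hr0.le hr1).mul_left _
  rw [← ENNReal.ofReal_tsum_of_nonneg (fun j => by positivity) hsum, tsum_mul_left,
    tsum_geometric_of_lt_one hr0.le hr1]
  apply ENNReal.ofReal_le_ofReal
  have h1r : 0 < 1 - r := by linarith
  have hrh : r ^ h0 ≤ Q ^ (-(ε * (ε * α))) := by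
    have e1 : r ^ h0 = ((2 : ℝ) ^ h0) ^ (-(ε * α)) := by
      rw [hr, ← Real.rpow_natCast _ h0, ← Real.rpow_mul (by norm_num), ← Real.rpow_natCast 2 h0,
        ← Real.rpow_mul (by norm_num)]
      congr 1
      ring
    have e2 : Q ^ (-(ε * (ε * α))) = (Q ^ ε) ^ (-(ε * α)) := by
      rw [← Real.rpow_mul hQ0.le]
      congr 1
      ring
    rw [e1, e2]
    apply Real.rpow_le_rpow_of_nonpos (by positivity) hfind
    have : 0 < ε * α := by positivity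
    linarith
  calc A * r ^ h0 * (1 - r)⁻¹ = A / (1 - r) * r ^ h0 := by ring
    _ ≤ A / (1 - r) * Q ^ (-(ε * (ε * α))) :=
        mul_le_mul_of_nonneg_left hrh (by positivity)

end Pool.Agent.WnG
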