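import Pool.Agent.Lib.WnG.DBadM
import Pool.Agent.Lib.WnG.Concl
import Pool.Agent.Lib.WnF.DLevel

/-!
# One number for all degrees: approximations by algebraic numbers

`exists_all2`: the number of `exists_all`, with the dually bad points of the degrees `w ≤ n ≤ k` avoided as well at stage `k`.  For
`v < w` the convergents, for `v < n` (`n ≥ w`) the polynomial of `dualQ`, `root` at the scale `H = 2^h`, `Q^ε ≤ H < 2 Q^ε`.
-/

set_option autoImplicit false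

open MeasureTheory Set

namespace Pool.Agent.WnG

open Pool.Agent.WnF (Small St sc pv stab_eta dualP one_le_sc sc_le dist_conv Appr hp DSmall dstab_eta dualQ root lt_two_sc)
open Pool.Agent.WnF.DLevelAux (ev q_pos xi_bounds rational one_le_hp)

theorem appr_mono {n : ℕ} {ξ v v' X : ℝ} (hvv : v ≤ v') (hX : 1 ≤ X) (h : Appr n ξ v' X) : Appr n ξ v X := by
  obtain ⟨R, hR1, hR2, hR3, α, hα1, hα2, hα3⟩ := h
  refine ⟨R, hR1, hR2, hR3, α, hα1, hα2, hα3.trans ?_⟩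
  have h1 := one_le_hp R hR1.ne_zero
  exact mul_le_mul_of_nonneg_left (Real.rpow_le_rpow_of_exponent_le hX (neg_le_neg hvv)) (by positivity)

/-- the convergents -/
theorem ratl (n : ℕ) (hn : 1 ≤ n) (w : ℝ) (hw : 1 ≤ w) (v : ℝ) (hv : v < w) : ∃ N₀ : ℝ,
    ∀ (S : St) (s' : ℝ), 0 ≤ s' → N₀ ≤ sc S.q → Appr n (S.mob (S.E w * (2 + s'))) v S.q := by
  set v' : ℝ := max v 0 with hv'
  have hv'0 : 0 ≤ v' := le_max_right _ _
  have hv'w : v' < w := max_lt hv (by linarith)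
  obtain ⟨N₀, hN1, hN₀⟩ := ev ((2:ℝ) ^ v') (w - v') (by linarith)
  refine ⟨N₀, fun S s' hs' hS => ?_⟩
  have hQ1 := one_le_sc S.q
  have hq1 : (1:ℝ) ≤ S.q := by exact_mod_cast q_pos S
  refine appr_mono (le_max_left v 0) hq1 (rational n hn w hw S s' v' S.q hs' le_rfl ?_)
  have h1 : (S.q:ℝ) ≤ 2 * sc S.q := (lt_two_sc S.q (q_pos S)).le
  calc (S.q:ℝ) ^ v' ≤ (2 * sc S.q) ^ v' := Real.rpow_le_rpow (by linarith) h1 hv'0
    _ = 2 ^ v' * (sc S.q) ^ v' := Real.mul_rpow (by norm_num) (by linarith)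
    _ ≤ (sc S.q) ^ (w - v') * (sc S.q) ^ v' := mul_le_mul_of_nonneg_right (hN₀ _ hS) (by positivity)
    _ = (sc S.q) ^ w := by
      rw [← Real.rpow_add (by linarith)]
      congr 1
      ring

theorem caseL (n : ℕ) (hn : 1 ≤ n) (w : ℝ) (hw : 1 ≤ w) (hwn : w ≤ (n:ℝ)) (c : ℝ) (hc : 0 < c) (hc1 : c ≤ 1) :
    ∃ K C1 A N1 : ℝ, 1 ≤ K ∧ 0 < C1 ∧ 2 ≤ A ∧
    ∀ (S : St) (ε s s' ξ : ℝ) (h : ℕ), 0 < ε → s ∈ Icc (0:ℝ) 1 → s' ∈ Icc (0:ℝ) 1 →
      ¬ DBad n w c ε (sc S.q) (S.κ, s) → Transcendental ℚ ξ → ξ = S.mob (S.E w * (2 + s')) →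
      (sc S.q) ^ ε ≤ 2 ^ h →
      C1 * ((2:ℝ) ^ h) ^ (n + 1) * |s' - s| ≤ 1 → N1 ≤ (2:ℝ) ^ h →
      ∃ R : Polynomial ℤ, Irreducible R ∧ R.natDegree ≤ n ∧
        hp R ≤ A * ((2:ℝ) ^ h) ^ (1 + ε) ∧
        ∃ α : ℝ, Polynomial.aeval α R = 0 ∧ 0 < |ξ - α| ∧
          |ξ - α| ≤ K * (((2:ℝ) ^ h) ^ (n + 1))⁻¹ := by
  obtain ⟨C1, hC1, hst⟩ := dstab_eta n w hw
  obtain ⟨C2, hC2, hdq⟩ := dualQ n hn w hw
  obtain ⟨K, hK, hrt⟩ := root n C2 hC2
  have hKC : 1 ≤ K * C2 := by nlinarith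
  refine ⟨K * C2, C1, 2 * K / c, K * C2, hKC, hC1, ?_, ?_⟩
  · rw [le_div_iff₀ hc]
    nlinarith
  intro S ε s s' ξ h hε hs hs' hbad htr hξ hQe hC1H hN
  have hQ1 := one_le_sc S.q
  set H : ℝ := (2:ℝ) ^ h with hH
  have hH1 : 1 ≤ H := one_le_pow₀ (by norm_num)
  have hH0 : 0 < H := by linarith
  set τ0 : ℝ := c * H ^ (-ε) with hτ0
  have hτ00 : 0 < τ0 := by positivity
  have hκ : S.κ ∈ Icc (0:ℝ) 1 := by
    have hq1 := q_pos S
    have hq0 : (0:ℝ) < S.q := by exact_mod_cast (by omega : 0 < S.q)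
    have h1 : (0:ℝ) ≤ S.q' := by exact_mod_cast S.q'0
    have h2 : (S.q':ℝ) ≤ S.q := by exact_mod_cast S.q'q.le
    unfold St.κ
    exact ⟨by positivity, by rw [div_le_one hq0]; exact h2⟩
  have hno : ∀ y : Fin (n + 1) → ℤ, y ≠ 0 → ¬ DSmall n w (sc S.q) H (τ0 / 2) (S.κ, s') y := by
    intro y hy hsm
    obtain ⟨u, hu, hyu⟩ := hst (sc S.q) H (τ0 / 2) S.κ s s' hQ1 hH1 hκ hs hs' y hsm
    refine hbad ⟨hn, hwn, h, hQe, y, hy, u, fun r => (hu r).trans_le ?_, hyu⟩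
    rw [abs_sub_comm s s']
    have h1 : 1 + C1 * H ^ (n + 1) * |s' - s| ≤ 2 := by linarith
    calc τ0 / 2 * (1 + C1 * H ^ (n + 1) * |s' - s|) ≤ τ0 / 2 * 2 :=
          mul_le_mul_of_nonneg_left h1 (by positivity)
      _ = τ0 := by ring
  obtain ⟨P, hP1, hP2, hP3⟩ := hdq S H (τ0 / 2) s' hH1 (by positivity) hs' hno
  rw [← hξ] at hP2 hP3
  have hξ1 : |ξ| ≤ 1 := by
    rw [hξ]
    exact (xi_bounds S w hw s' hs'.1).1
  have hτ1 : τ0 ≤ 1 := by
    have : H ^ (-ε) ≤ 1 := Real.rpow_le_one_of_one_le_of_nonpos hH1 (by linarith)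
    rw [hτ0]
    have h0 : 0 < H ^ (-ε) := by positivity
    nlinarith
  have hY1 : 1 ≤ H / (τ0 / 2) := by
    rw [le_div_iff₀ (by positivity)]
    linarith
  have hKP : K * |pv P ξ| ≤ H / (τ0 / 2) := by
    have h1 : K * |pv P ξ| ≤ K * (C2 / (τ0 / 2 * H ^ n)) := mul_le_mul_of_nonneg_left hP2 (by linarith)
    refine h1.trans ?_
    have h2 : K * (C2 / (τ0 / 2 * H ^ n)) = K * C2 / (τ0 / 2 * H ^ n) := by ring
    rw [h2, div_le_div_iff₀ (by positivity) (by positivity)]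
    have h3 : 1 ≤ H ^ n := one_le_pow₀ hH1
    have h4 : K * C2 ≤ H * H ^ n := hN.trans (le_mul_of_one_le_right hH0.le h3)
    calc K * C2 * (τ0 / 2) ≤ H * H ^ n * (τ0 / 2) := mul_le_mul_of_nonneg_right h4 (by positivity)
      _ = _ := by ring
  obtain ⟨R, hR1, hR2, hR3, α, hα1, hα2⟩ := hrt ξ (H / (τ0 / 2)) P hξ1 hY1 hP1 hP3 hKP
  refine ⟨R, hR1, hR2, hR3.trans (le_of_eq ?_), α, hα1, ?_, ?_⟩
  · have e1 : H ^ (1 + ε) = H * H ^ ε := by
      rw [show 1 + ε = ε + 1 by ring, Real.rpow_add_one hH0.ne']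
      ring
    rw [e1, hτ0, Real.rpow_neg hH0.le]
    have h0 : 0 < H ^ ε := by positivity
    field_simp
  · rw [abs_pos, sub_ne_zero]
    rintro rfl
    exact htr (IsAlgebraic.extendScalars (R := ℤ) (RingHom.injective_int _)
      ⟨R, hR1.ne_zero, hα1⟩)
  · refine hα2.trans ?_
    have h1 : K * |pv P ξ| ≤ K * (C2 / (τ0 / 2 * H ^ n)) := mul_le_mul_of_nonneg_left hP2 (by linarith)
    calc K * |pv P ξ| / (H / (τ0 / 2)) ≤ K * (C2 / (τ0 / 2 * H ^ n)) / (H / (τ0 / 2)) :=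
          div_le_div_of_nonneg_right h1 (by positivity)
      _ = K * C2 * (H ^ (n + 1))⁻¹ := by
          rw [pow_succ]
          field_simp

/-- One level, degrees `n ≥ w`. -/
theorem dlevel (n : ℕ) (hn : 1 ≤ n) (w : ℝ) (hw : 1 ≤ w) (hwn : w ≤ (n:ℝ)) (c : ℝ) (hc : 0 < c) (hc1 : c ≤ 1)
    (v : ℝ) (hv : v < n) : ∃ e₀ N₀ : ℝ, 0 < e₀ ∧
    ∀ (S : St) (ε Q' s s' ξ : ℝ), 0 < ε → ε ≤ e₀ → N₀ ≤ (sc S.q) ^ ε → sc S.q ≤ Q' →
      s ∈ Icc (0:ℝ) 1 → s' ∈ Icc (0:ℝ) 1 → ¬ DBad n w c ε (sc S.q) (S.κ, s) →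
      Transcendental ℚ ξ → ξ = S.mob (S.E w * (2 + s')) → |s' - s| ≤ 1 / Q' →
      ∃ X : ℝ, (sc S.q) ^ ε ≤ X ∧ Appr n ξ v X := by
  have hn1 : (1:ℝ) ≤ n := by exact_mod_cast hn
  obtain ⟨K, C1, A, N1, hK, hC1, hA, hL⟩ := caseL n hn w hw hwn c hc hc1
  set v' : ℝ := max v 0 with hv'd
  have hv'0 : 0 ≤ v' := le_max_right _ _
  have hv' : v' < n := max_lt hv (by linarith)
  obtain ⟨g, hg⟩ : ∃ g : ℝ, g = n - v' := ⟨_, rfl⟩
  have hg0 : 0 < g := by linarith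
  obtain ⟨Na, _, hNa⟩ := ev (K * A * A ^ v') (g / 2) (by linarith)
  refine ⟨min (1 / ((n:ℝ) + 2)) (g / (2 * (1 + v'))), max (max Na N1) (C1 * 2 ^ (n + 1)), ?_, ?_⟩
  · exact lt_min (by positivity) (by positivity)
  intro S ε Q' s s' ξ hε hεe hN hQQ' hs hs' hbad htr hξ hss
  have hQ1 := one_le_sc S.q
  set Q : ℝ := sc S.q with hQ
  have hQ0 : 0 < Q := by linarith
  have hQe1 : 1 ≤ Q ^ ε := Real.one_le_rpow hQ1 hε.le
  have hεn : ε * ((n:ℝ) + 2) ≤ 1 := by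
    have h1 : ε ≤ 1 / ((n:ℝ) + 2) := hεe.trans (min_le_left _ _)
    rwa [le_div_iff₀ (by positivity)] at h1
  have hεg : ε * (1 + v') ≤ g / 2 := by
    have h1 : ε ≤ g / (2 * (1 + v')) := hεe.trans (min_le_right _ _)
    rw [le_div_iff₀ (by positivity)] at h1
    linarith
  obtain ⟨h, hh1, hh2⟩ := ConclAux.exists_pow hQe1
  set H : ℝ := (2:ℝ) ^ h with hH
  have hH1 : 1 ≤ H := hQe1.trans hh1
  have hH0 : 0 < H := by linarith
  have hA0 : 0 < A := by linarith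
  have hQ'0 : 0 < Q' := by linarith
  have hC1H : C1 * H ^ (n + 1) * |s' - s| ≤ 1 := by
    have h1 : H ^ (n + 1) ≤ 2 ^ (n + 1) * (Q ^ ε) ^ (n + 1) := by
      rw [← mul_pow]
      exact pow_le_pow_left₀ hH0.le hh2 _
    have h2 : C1 * H ^ (n + 1) ≤ Q' := by
      calc C1 * H ^ (n + 1) ≤ C1 * (2 ^ (n + 1) * (Q ^ ε) ^ (n + 1)) := mul_le_mul_of_nonneg_left h1 hC1.le
        _ = (C1 * 2 ^ (n + 1)) * (Q ^ ε) ^ (n + 1) := by ring
        _ ≤ Q ^ ε * (Q ^ ε) ^ (n + 1) :=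
            mul_le_mul_of_nonneg_right ((le_max_right _ _).trans hN) (by positivity)
        _ = (Q ^ ε) ^ (n + 2) := by ring
        _ = Q ^ (ε * ((n:ℝ) + 2)) := by
            rw [← Real.rpow_natCast, ← Real.rpow_mul hQ0.le]
            push_cast
            rfl
        _ ≤ Q ^ (1:ℝ) := Real.rpow_le_rpow_of_exponent_le hQ1 hεn
        _ = Q := Real.rpow_one Q
        _ ≤ Q' := hQQ'
    calc C1 * H ^ (n + 1) * |s' - s| ≤ Q' * (1 / Q') :=
          mul_le_mul h2 hss (abs_nonneg _) hQ'0.le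
      _ = 1 := by field_simp
  obtain ⟨R, hR1, hR2, hR3, α, hα1, hα2, hα3⟩ := hL S ε s s' ξ h hε hs hs' hbad htr hξ hh1
    hC1H ((((le_max_right _ _).trans (le_max_left _ _)).trans hN).trans hh1)
  have hHa : H ≤ H ^ (1 + ε) := Real.self_le_rpow_of_one_le hH1 (by linarith)
  have hX1 : 1 ≤ A * H ^ (1 + ε) := by nlinarith
  refine ⟨A * H ^ (1 + ε), ?_, appr_mono (le_max_left v 0) hX1 ⟨R, hR1, hR2, hR3, α, hα1, hα2, hα3.trans ?_⟩⟩
  · nlinarith
  · have h1 := one_le_hp R hR1.ne_zero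
    have h3 : (A * H ^ (1 + ε))⁻¹ ≤ (hp R)⁻¹ := inv_anti₀ (by linarith) hR3
    refine le_trans ?_ (mul_le_mul_of_nonneg_right h3 (by positivity))
    rw [Real.rpow_neg (by positivity), ← mul_inv, ← div_eq_mul_inv, div_le_iff₀ (by positivity), inv_mul_eq_div,
      le_div_iff₀ (by positivity)]
    have e1 : (A * H ^ (1 + ε)) ^ v' = A ^ v' * H ^ ((1 + ε) * v') := by
      rw [Real.mul_rpow hA0.le (by positivity), ← Real.rpow_mul (by positivity)]
    rw [e1]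
    have h5 : K * A * A ^ v' ≤ H ^ (g / 2) := hNa H ((((le_max_left _ _).trans (le_max_left _ _)).trans hN).trans hh1)
    calc K * (A * H ^ (1 + ε) * (A ^ v' * H ^ ((1 + ε) * v')))
        = (K * A * A ^ v') * (H ^ (1 + ε) * H ^ ((1 + ε) * v')) := by ring
      _ ≤ H ^ (g / 2) * (H ^ (1 + ε) * H ^ ((1 + ε) * v')) := mul_le_mul_of_nonneg_right h5 (by positivity)
      _ = H ^ (g / 2 + ((1 + ε) + (1 + ε) * v')) := by
          rw [Real.rpow_add hH0 (g / 2), Real.rpow_add hH0 (1 + ε)]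
      _ ≤ H ^ ((n:ℝ) + 1) := by
          apply Real.rpow_le_rpow_of_exponent_le hH1
          have e2 : (1 + ε) + (1 + ε) * v' = n + 1 - g + ε * (1 + v') := by
            rw [hg]
            ring
          linarith
      _ = H ^ (n + 1) := by
          rw [← Real.rpow_natCast]
          push_cast
          rfl

open ConclAux

/-- One number for all degrees, with approximations by algebraic numbers. -/
theorem exists_all2 (w : ℝ) (hw : 1 ≤ w) : ∃ ξ : ℝ, Transcendental ℚ ξ ∧ |ξ| ≤ 1 ∧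
    (∀ N : ℝ, ∃ p q : ℤ, N ≤ q ∧ 0 < q ∧ |p| ≤ q ∧ IsCoprime p q ∧
      1 / 3 * (q:ℝ) ^ (-w) ≤ |(q:ℝ) * ξ - p| ∧ |(q:ℝ) * ξ - p| ≤ 2 ^ (w - 1) * (q:ℝ) ^ (-w)) ∧
    (∀ n : ℕ, ∀ ε : ℝ, 0 < ε → ∃ H₀ : ℝ, ∀ H : ℝ, H₀ ≤ H → Good n w ξ ε H) ∧
    ∀ n : ℕ, 1 ≤ n → ∀ v : ℝ, v < max w n → ∀ N : ℝ, ∃ X : ℝ, N ≤ X ∧ Appr n ξ v X := by
  choose c1 hc1 hc1' hrare using fun n : ℕ => bad_rare n w hw
  choose d hd hd1 hdrare using fun n : ℕ => dbad_rare n w hw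
  choose C hC hst using fun n : ℕ => stab_eta n w hw
  choose c2 hc2 hdu using fun n : ℕ => dualP n w hw
  set e0 : ℕ → ℝ := fun n => (1 - sgp n w) / (n + 3) with he0
  have he0p : ∀ n, 0 < e0 n := fun n => div_pos (by linarith [sgp_lt_one (n := n) hw]) (by positivity)
  set e : ℕ → ℕ → ℝ := fun n k => e0 n / (k + 1) with he
  have hep : ∀ n k : ℕ, 0 < e n k := fun n k => div_pos (he0p n) (by positivity)
  have hek : ∀ n k : ℕ, e n k ≤ e0 n := fun n k => div_le_self (he0p n).le (by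
    have : (0:ℝ) ≤ k := Nat.cast_nonneg k
    linarith)
  have hee : ∀ n : ℕ, ((n:ℝ) + 3) * e0 n = 1 - sgp n w := fun n => by
    rw [he0]
    field_simp
  have hek1 : ∀ n k : ℕ, ((n:ℝ) + 3) * e n k ≤ 1 - sgp n w := fun n k => by
    rw [← hee]
    exact mul_le_mul_of_nonneg_left (hek n k) (by positivity)
  have hanti : ∀ n k l : ℕ, k ≤ l → e n l ≤ e n k := fun n k l hkl => by
    have : (k:ℝ) ≤ l := by exact_mod_cast hkl
    exact div_le_div_of_nonneg_left (he0p n).le (by positivity) (by linarith)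
  set Bf : ℕ → ℕ → ℝ := fun n k => max ((k:ℝ) + 1) (max (2 * C n * 2 ^ (n + 3) / c1 n)
    ((2 ^ (n + 2) / (c1 n * c2 n)) ^ (1 / (2 * e n k)))) with hBf
  have hBf1 : ∀ n k : ℕ, (k:ℝ) + 1 ≤ Bf n k := fun n k => le_max_left _ _
  have hBf2 : ∀ n k : ℕ, 2 * C n * 2 ^ (n + 3) / c1 n ≤ Bf n k := fun n k =>
    (le_max_left _ _).trans (le_max_right _ _)
  have hBf3 : ∀ n k : ℕ, (2 ^ (n + 2) / (c1 n * c2 n)) ^ (1 / (2 * e n k)) ≤ Bf n k := fun n k =>
    (le_max_right _ _).trans (le_max_right _ _)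
  have hBfp : ∀ n k : ℕ, 1 ≤ Bf n k := fun n k => by
    have : (0:ℝ) ≤ k := Nat.cast_nonneg k
    linarith [hBf1 n k]
  obtain ⟨ξ, hξT, S, s, hSs⟩ := selection w hw
    (fun k Q x => ∃ n, n < k + 1 ∧ (BadPt n w (c1 n) (e n k) Q x ∨ DBad n w (d n) (e n k) Q x))
    (fun k => rare_lt (fun n => rare_or (hrare n (e n k) (hep n k)) (hdrare n (e n k) (hep n k))) (k + 1))
    (fun k => ∑ n ∈ Finset.range (k + 1), Bf n k ^ (1 / e n k))
  -- heights
  have hN : ∀ n k, n < k + 1 → Bf n k ^ (1 / e n k) ≤ sc (S k).q := by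
    intro n k hn
    refine le_trans ?_ (hSs k).1
    exact Finset.single_le_sum (f := fun n => Bf n k ^ (1 / e n k))
      (fun m _ => Real.rpow_nonneg (zero_le_one.trans (hBfp m k)) _) (Finset.mem_range.2 hn)
  have hQ : ∀ n k, n < k + 1 → Bf n k ≤ (sc (S k).q) ^ (e n k) := by
    intro n k hn
    have h1 := hN n k hn
    have h2 : (0:ℝ) ≤ Bf n k := zero_le_one.trans (hBfp n k)
    calc Bf n k = (Bf n k ^ (1 / e n k)) ^ (e n k) := by
          rw [← Real.rpow_mul h2, one_div_mul_cancel (hep n k).ne', Real.rpow_one]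
      _ ≤ _ := Real.rpow_le_rpow (Real.rpow_nonneg h2 _) h1 (hep n k).le
  have le_sc_k : ∀ k : ℕ, (k:ℝ) + 1 ≤ sc (S k).q := by
    intro k
    have h1 := hN 0 k (Nat.succ_pos k)
    have he1 : e 0 k ≤ 1 := by
      have h5 := hek1 0 k
      have h6 := hep 0 k
      have h7 := sgp_nonneg 0 w
      push_cast at h5
      linarith
    have h3 : Bf 0 k ≤ Bf 0 k ^ (1 / e 0 k) := by
      conv_lhs => rw [← Real.rpow_one (Bf 0 k)]
      refine Real.rpow_le_rpow_of_exponent_le (hBfp 0 k) ?_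
      rw [le_div_iff₀ (hep 0 k)]
      linarith
    have h4 := hBf1 0 k
    linarith
  refine ⟨ξ, hξT, ?_, fun N => ?_, fun n ε hε => ?_, fun n hn v hv N => ?_⟩
  · obtain ⟨_, _, _, _, _, s', hs', hξ, _⟩ := hSs 0
    rw [hξ]
    exact (xi_bounds (S 0) w hw s' hs'.1).1
  · obtain ⟨k, hk⟩ := exists_nat_ge N
    have h0 := (S k).q_pos
    have hp0 := (S k).p0
    have hpq := (S k).pq
    have hdet := (S k).det
    refine ⟨(S k).p, (S k).q, ?_, by omega, ?_, ?_, ?_, ?_⟩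
    · have h2 := sc_le (S k).q (S k).q_pos
      linarith [le_sc_k k]
    · rw [abs_of_nonneg hp0]
      exact hpq.le
    · exact ⟨(S k).q', -(S k).p', by linear_combination hdet⟩
    · exact WnF.DConclAux.conv_lower (S k) w hw ξ (hSs k).2.2.2.2.1
    · exact (dist_conv (S k) w hw ξ (hSs k).2.2.2.2.1).2
  · -- the level
    obtain ⟨K, hKn, hK⟩ : ∃ K : ℕ, n ≤ K ∧ 3 * e n K ≤ ε := by
      obtain ⟨K, hK⟩ := exists_nat_ge (3 * e0 n / ε)
      refine ⟨max K n, le_max_right _ _, ?_⟩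
      have hK2 : (K:ℝ) ≤ ((max K n : ℕ) : ℝ) := by exact_mod_cast le_max_left _ _
      have h0 := he0p n
      show 3 * (e0 n / (((max K n : ℕ) : ℝ) + 1)) ≤ ε
      rw [← mul_div_assoc, div_le_iff₀ (by positivity)]
      rw [div_le_iff₀ hε] at hK
      nlinarith
    refine ⟨(sc (S K).q) ^ (e n K), fun H hH => ?_⟩
    have hH1 : 1 ≤ H := (hBfp n K).trans ((hQ n K (by omega)).trans hH)
    set Pk : ℕ → Prop := fun k => n ≤ k ∧ (sc (S k).q) ^ (e n k) ≤ H with hPk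
    classical
    set k : ℕ := Nat.findGreatest Pk ⌊H⌋₊ with hk
    have hbd : ∀ k, Pk k → k + 1 ≤ ⌊H⌋₊ := by
      intro k hk
      refine Nat.le_floor ?_
      push_cast
      exact (hBf1 n k).trans ((hQ n k (by have := hk.1; omega)).trans hk.2)
    have hKP : Pk K := ⟨hKn, hH⟩
    have hKb : K ≤ ⌊H⌋₊ := (Nat.le_succ K).trans (hbd K hKP)
    have hkP : Pk k := Nat.findGreatest_spec hKb hKP
    have hKk : K ≤ k := Nat.le_findGreatest hKb hKP
    have hnk : ¬ Pk (k + 1) := by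
      intro h
      have h1 : k + 1 ≤ ⌊H⌋₊ := (Nat.le_succ _).trans (hbd (k + 1) h)
      exact Nat.findGreatest_is_greatest (Nat.lt_succ_self k) h1 h
    have hnk1 : n < k + 1 := by omega
    have hlt : H ≤ (sc (S (k + 1)).q) ^ (e n (k + 1)) := by
      by_contra hcon
      push Not at hcon
      exact hnk ⟨by omega, hcon.le⟩
    obtain ⟨_, _, hs, hb, _, s', hs', hξ, hss⟩ := hSs k
    have hb' : ¬ BadPt n w (c1 n) (e n k) (sc (S k).q) ((S k).κ, s k) :=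
      fun h => hb ⟨n, hnk1, Or.inl h⟩
    have hσ0 := sgp_nonneg n w
    refine good_mono hH1 (le_trans (by linarith [hanti n K k hKk]) hK)
      (level (hc1 n) (hc1' n) (hC n) (hc2 n) (hst n) (hdu n) (hep n k) (hek1 n k)
        ((hek1 n (k + 1)).trans (by linarith))
        (S k) hs hs' hb' hξ (one_le_sc _) hss hkP.2 hlt hH1 ((hBf2 n k).trans ((hQ n k hnk1).trans hkP.2)) ?_)
    have h1 := (hBf3 n k).trans ((hQ n k hnk1).trans hkP.2)
    have hcc : 0 < c1 n * c2 n := mul_pos (hc1 n) (hc2 n)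
    have h2 : (0:ℝ) ≤ 2 ^ (n + 2) / (c1 n * c2 n) := by positivity
    calc 2 ^ (n + 2) / (c1 n * c2 n) = ((2 ^ (n + 2) / (c1 n * c2 n)) ^ (1 / (2 * e n k))) ^ (2 * e n k) := by
          have : 2 * e n k ≠ 0 := by
            have := hep n k
            positivity
          rw [← Real.rpow_mul h2, one_div_mul_cancel this, Real.rpow_one]
      _ ≤ H ^ (2 * e n k) := Real.rpow_le_rpow (Real.rpow_nonneg h2 _) h1 (by
          have := hep n k
          positivity)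

  · -- approximations by algebraic numbers
    have hgoal : ∃ _k : ℕ, ∃ X : ℝ, N ≤ X ∧ Appr n ξ v X := by
      rcases lt_max_iff.1 hv with hvw | hvn
      · obtain ⟨N₀, hN₀⟩ := ratl n hn w hw v hvw
        obtain ⟨k, hk⟩ := exists_nat_ge (max N₀ N)
        refine ⟨k, ((S k).q : ℝ), ?_, ?_⟩
        · have h1 := le_sc_k k
          have h2 := sc_le (S k).q (S k).q_pos
          linarith [(le_max_right N₀ N).trans hk]
        · obtain ⟨_, _, _, _, _, s', hs', hξ, _⟩ := hSs k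
          rw [hξ]
          exact hN₀ (S k) s' hs'.1 (by linarith [le_sc_k k, (le_max_left N₀ N).trans hk])
      · by_cases hwn : w ≤ (n:ℝ)
        swap
        · push Not at hwn
          obtain ⟨N₀, hN₀⟩ := ratl n hn w hw v (hvn.trans hwn)
          obtain ⟨k, hk⟩ := exists_nat_ge (max N₀ N)
          refine ⟨k, ((S k).q : ℝ), ?_, ?_⟩
          · have h1 := le_sc_k k
            have h2 := sc_le (S k).q (S k).q_pos
            linarith [(le_max_right N₀ N).trans hk]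
          · obtain ⟨_, _, _, _, _, s', hs', hξ, _⟩ := hSs k
            rw [hξ]
            exact hN₀ (S k) s' hs'.1 (by linarith [le_sc_k k, (le_max_left N₀ N).trans hk])
        obtain ⟨e₀, N₀, he₀, hlev⟩ := dlevel n hn w hw hwn (d n) (hd n) (hd1 n) v hvn
        obtain ⟨k, hnk, hk1, hk2⟩ : ∃ k : ℕ, n < k + 1 ∧ e n k ≤ e₀ ∧ max N₀ N ≤ (k:ℝ) + 1 := by
          obtain ⟨K, hK⟩ := exists_nat_ge (max (e0 n / e₀) (max N₀ N))
          refine ⟨max K n, by omega, ?_, ?_⟩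
          · have hK2 : (K:ℝ) ≤ ((max K n : ℕ) : ℝ) := by exact_mod_cast le_max_left _ _
            have hK3 := (le_max_left _ _).trans hK
            show e0 n / (((max K n : ℕ) : ℝ) + 1) ≤ e₀
            rw [div_le_iff₀ (by positivity)]
            rw [div_le_iff₀ he₀] at hK3
            nlinarith
          · have hK2 : (K:ℝ) ≤ ((max K n : ℕ) : ℝ) := by exact_mod_cast le_max_left _ _
            linarith [(le_max_right _ _).trans hK]
        have hQk : (k:ℝ) + 1 ≤ (sc (S k).q) ^ (e n k) := (hBf1 n k).trans (hQ n k hnk)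
        obtain ⟨_, hsc, hs, hb, _, s', hs', hξ, hss⟩ := hSs k
        obtain ⟨X, hX1, hX2⟩ := hlev (S k) (e n k) (sc (S (k + 1)).q) (s k) s' ξ (hep n k) hk1
          (by linarith [(le_max_left N₀ N).trans hk2]) hsc.le hs hs'
          (fun h => hb ⟨n, hnk, Or.inr h⟩) hξT hξ hss
        exact ⟨k, X, by linarith [(le_max_right N₀ N).trans hk2], hX2⟩
    obtain ⟨-, h⟩ := hgoal
    exact h

end Pool.Agent.WnG
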