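import Pool.Agent.Lib.WnF.WVal

/-!
# The uniform exponents
-/

set_option autoImplicit false

namespace Pool.Agent.WnG

open Pool.Agent.WnF

/-- There are integers `x_0, …, x_n` with `0 < |x_0| ≤ X` and `max_{1 ≤ j ≤ n} |x_0 ξ^j - x_j| ≤ X^{-r}`. -/
def SimAp (n : ℕ) (ξ r X : ℝ) : Prop :=
  ∃ x : Fin (n + 1) → ℤ, x 0 ≠ 0 ∧ |(x 0 : ℝ)| ≤ X ∧
    ∀ j : Fin n, |(x 0 : ℝ) * ξ ^ ((j : ℕ) + 1) - x j.succ| ≤ X ^ (-r)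

/-- The exponent `λ̂_n(ξ)`. -/
noncomputable def hlam (n : ℕ) (ξ : ℝ) : EReal :=
  sSup {l : EReal | ∃ r : ℝ, l = r ∧ ∃ X₀ : ℝ, ∀ X : ℝ, X₀ ≤ X → SimAp n ξ r X}

/-- There are integers `x_0, …, x_n` with `max_j |x_j| ≤ X` and `0 < |x_n ξ^n + … + x_0| ≤ X^{-r}`. -/
def PolAp (n : ℕ) (ξ r X : ℝ) : Prop :=
  ∃ x : Fin (n + 1) → ℤ, (∀ j, |(x j : ℝ)| ≤ X) ∧
    0 < |∑ j : Fin (n + 1), (x j : ℝ) * ξ ^ (j : ℕ)| ∧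
    |∑ j : Fin (n + 1), (x j : ℝ) * ξ ^ (j : ℕ)| ≤ X ^ (-r)

/-- The exponent `ŵ_n(ξ)`. -/
noncomputable def hwn (n : ℕ) (ξ : ℝ) : EReal :=
  sSup {l : EReal | ∃ r : ℝ, l = r ∧ ∃ X₀ : ℝ, ∀ X : ℝ, X₀ ≤ X → PolAp n ξ r X}

end Pool.Agent.WnG
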