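import Pool.Agent.Lib.WnG.Val4

/-!
# The rational approximations give `w_n^* ≥ w`
-/

set_option autoImplicit false

open Set

namespace Pool.Agent.WnG

open Pool.Agent.WnF (hp pv)

namespace StConvAux

open Pool.Agent.WnF.DUpperAux

theorem hp_le (p q : ℤ) (hq : 0 < q) (hpq : |p| ≤ q) :
    hp (Polynomial.C q * Polynomial.X + Polynomial.C (-p)) ≤ q := by
  have hq0 : (0:ℝ) < q := by exact_mod_cast hq
  refine ciSup_le fun i => ?_
  rcases i with _ | i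
  · simp only [Polynomial.coeff_add, Polynomial.coeff_C_mul, Polynomial.coeff_X_zero, mul_zero,
      Polynomial.coeff_C_zero, zero_add, Int.cast_neg, abs_neg]
    exact_mod_cast hpq
  · rcases i with _ | i
    · simp only [zero_add, Polynomial.coeff_add, Polynomial.coeff_C_mul, Polynomial.coeff_X_one,
        mul_one, Polynomial.coeff_C_succ, add_zero]
      rw [abs_of_nonneg hq0.le]
    · simp only [Polynomial.coeff_add, Polynomial.coeff_C_mul, Polynomial.coeff_C_succ, add_zero]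
      rw [Polynomial.coeff_X_of_ne_one (by omega)]
      simp only [mul_zero, Int.cast_zero, abs_zero]
      exact hq0.le

theorem mem {n : ℕ} (hn : 1 ≤ n) {r ξ : ℝ} (hr0 : 0 < r) (p q : ℤ) (hq : 0 < q)
    (hpq : |p| ≤ q) (hco : IsCoprime p q) (h0 : 0 < |(q:ℝ) * ξ - p|)
    (h1 : |(q:ℝ) * ξ - p| ≤ (q:ℝ) ^ (-r)) :
    ((p:ℂ) / (q:ℂ)) ∈ algs n ξ r ∧ ‖(ξ : ℂ) - (p:ℂ) / (q:ℂ)‖ ≤ (q:ℝ) ^ (-r - 1) := by
  have hq0 : (0:ℝ) < q := by exact_mod_cast hq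
  have hqC : (q:ℂ) ≠ 0 := by exact_mod_cast hq.ne'
  set R : Polynomial ℤ := Polynomial.C q * Polynomial.X + Polynomial.C (-p) with hR
  have hirr : Irreducible R :=
    Polynomial.irreducible_C_mul_X_add_C hq.ne' (hco.symm.neg_right).isRelPrime
  have hhp : hp R ≤ q := hp_le p q hq hpq
  have hhp1 := one_le_hp R hirr.ne_zero
  have hnorm : ‖(ξ : ℂ) - (p:ℂ) / (q:ℂ)‖ = |(q:ℝ) * ξ - p| / q := by
    have e : (ξ : ℂ) - (p:ℂ) / (q:ℂ) = (((ξ - p / q : ℝ)) : ℂ) := by push_cast; rfl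
    rw [e, Complex.norm_real, Real.norm_eq_abs]
    have e2 : ξ - (p:ℝ) / q = ((q:ℝ) * ξ - p) / q := by field_simp
    rw [e2, abs_div, abs_of_pos hq0]
  have hle : ‖(ξ : ℂ) - (p:ℂ) / (q:ℂ)‖ ≤ (q:ℝ) ^ (-r - 1) := by
    rw [hnorm, Real.rpow_sub_one hq0.ne']
    exact div_le_div_of_nonneg_right h1 hq0.le
  refine ⟨⟨R, hirr, (Polynomial.natDegree_linear_le).trans hn, ?_, ?_, ?_⟩, hle⟩
  · rw [hR, map_add, map_mul, Polynomial.aeval_C, Polynomial.aeval_X, Polynomial.aeval_C]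
    simp only [algebraMap_int_eq, eq_intCast, Int.cast_neg]
    rw [mul_div_cancel₀ _ hqC]
    ring
  · rw [hnorm]
    exact div_pos h0 hq0
  · refine hle.trans ?_
    exact Real.rpow_le_rpow_of_nonpos (by linarith) hhp (by linarith)

end StConvAux

open StConvAux

theorem algs_conv {n : ℕ} (hn : 1 ≤ n) {w r ξ : ℝ} (hw : 1 ≤ w) (hr0 : 0 < r) (hr : r < w)
    (hξ1 : |ξ| ≤ 1)
    (hconv : ∀ N : ℝ, ∃ p q : ℤ, N ≤ q ∧ 0 < q ∧ |p| ≤ q ∧ IsCoprime p q ∧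
      1 / 3 * (q:ℝ) ^ (-w) ≤ |(q:ℝ) * ξ - p| ∧ |(q:ℝ) * ξ - p| ≤ 2 ^ (w - 1) * (q:ℝ) ^ (-w)) :
    (algs n ξ r).Infinite := by
  have _ := hw
  have _ := hξ1
  have hwr : 0 < w - r := sub_pos.2 hr
  have h2 : (0:ℝ) < 2 ^ (w - 1) := Real.rpow_pos_of_pos (by norm_num) _
  have key : ∀ N : ℝ, ∃ α ∈ algs n ξ r, ∃ q : ℝ, N ≤ q ∧ 1 ≤ q ∧
      ‖(ξ : ℂ) - α‖ ≤ q ^ (-r - 1) := by
    intro N
    obtain ⟨p, q, h3, h4, h5, h6, h7, h8⟩ := hconv (max N ((2 ^ (w - 1)) ^ (1 / (w - r))))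
    have hq0 : (0:ℝ) < q := by exact_mod_cast h4
    have hq1 : (1:ℝ) ≤ q := by exact_mod_cast h4
    have h9 : (2:ℝ) ^ (w - 1) ≤ (q:ℝ) ^ (w - r) := by
      have := Real.rpow_le_rpow (Real.rpow_pos_of_pos h2 _).le ((le_max_right _ _).trans h3) hwr.le
      rw [← Real.rpow_mul h2.le, one_div_mul_cancel hwr.ne', Real.rpow_one] at this
      exact this
    have h10 : |(q:ℝ) * ξ - p| ≤ (q:ℝ) ^ (-r) := by
      refine h8.trans ?_
      calc (2:ℝ) ^ (w - 1) * (q:ℝ) ^ (-w) ≤ (q:ℝ) ^ (w - r) * (q:ℝ) ^ (-w) :=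
            mul_le_mul_of_nonneg_right h9 (Real.rpow_pos_of_pos hq0 _).le
        _ = (q:ℝ) ^ (-r) := by
            rw [← Real.rpow_add hq0]
            congr 1
            ring
    have h11 : 0 < |(q:ℝ) * ξ - p| := by
      refine lt_of_lt_of_le ?_ h7
      have := Real.rpow_pos_of_pos hq0 (-w)
      positivity
    obtain ⟨hm, hle⟩ := mem hn hr0 p q h4 h5 h6 h11 h10
    exact ⟨_, hm, q, (le_max_left _ _).trans h3, hq1, hle⟩
  intro hfin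
  obtain ⟨α₀, hα₀, -⟩ := key 0
  obtain ⟨a, ha, hmin⟩ := Set.exists_min_image (algs n ξ r) (fun α => ‖(ξ : ℂ) - α‖) hfin
    ⟨α₀, hα₀⟩
  have hpos : 0 < ‖(ξ : ℂ) - a‖ := by
    obtain ⟨P, _, _, _, h, _⟩ := ha
    exact h
  obtain ⟨α, hα, q, hq, hq1, hle⟩ := key (1 / ‖(ξ : ℂ) - a‖ + 1)
  have hq0 : 0 < q := by linarith
  have h3 := hmin α hα
  have h4 : q ^ (-r - 1) ≤ q⁻¹ := by
    rw [← Real.rpow_neg_one]
    exact Real.rpow_le_rpow_of_exponent_le hq1 (by linarith)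
  have h5 : q⁻¹ < ‖(ξ : ℂ) - a‖ := by
    rw [inv_lt_comm₀ hq0 hpos, ← one_div]
    linarith
  have h6 : ‖(ξ : ℂ) - a‖ < ‖(ξ : ℂ) - a‖ := (h3.trans (hle.trans h4)).trans_lt h5
  exact lt_irrefl _ h6

end Pool.Agent.WnG
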