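import Pool.Agent.Lib.WnG.DAll
import Pool.Agent.Lib.WnG.AllFinal

/-!
# The exponent `ŵ_n^*` of the number of `exists_all3`, and five exponents together
-/

set_option autoImplicit false

namespace Pool.Agent.WnG

open Pool.Agent.WnF (wx hws Appr)

theorem vst_eq (n : ℕ) (w : ℝ) : vst n w = max w n / (max w n - n + 1) := by
  unfold vst
  split_ifs with h
  · rw [max_eq_left h]
    congr 1
    ring
  · rw [max_eq_right (le_of_lt (not_le.1 h))]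
    rw [sub_self, zero_add, div_one]

theorem hws_le_max {n : ℕ} {w ξ : ℝ} (hw : 1 ≤ w) (h : wst n ξ ≤ ((max w n : ℝ) : EReal)) :
    hws n ξ ≤ ((max w n : ℝ) : EReal) := by
  refine sSup_le ?_
  rintro _ ⟨r, rfl, X₀, hX⟩
  rcases le_or_gt r 0 with h0 | h0
  · refine EReal.coe_le_coe_iff.2 (h0.trans ?_)
    have := le_max_left w (n:ℝ)
    linarith
  · have h5 : ((r : ℝ) : EReal) ≤ wst n ξ := le_sSup ⟨_, rfl, algs_of_appr h0 fun N =>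
      ⟨max N X₀, le_max_left _ _, hX _ (le_max_right _ _)⟩⟩
    exact h5.trans h

theorem hws_ge_vst {n : ℕ} {w ξ : ℝ}
    (h : ∀ v : ℝ, v < vst n w → ∃ X₀ : ℝ, ∀ X : ℝ, X₀ ≤ X → Appr n ξ v X) :
    ((vst n w : ℝ) : EReal) ≤ hws n ξ := by
  refine le_of_forall_lt fun c hc => ?_
  obtain ⟨x, hx1, hx2⟩ := EReal.lt_iff_exists_real_btwn.1 hc
  have hx2' : x < vst n w := EReal.coe_lt_coe_iff.1 hx2
  exact lt_of_lt_of_le hx1 (le_sSup ⟨x, rfl, h x hx2'⟩)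

/-- `w_n`, `w_n^*`, `ŵ_n`, `λ̂_n` and `ŵ_n^*` of one number for all `n`, together with the convergents. -/
theorem all_five (w : ℝ) (hw : 1 ≤ w) : ∃ ξ : ℝ, Transcendental ℚ ξ ∧ |ξ| ≤ 1 ∧
    (∀ N : ℝ, ∃ p q : ℤ, N ≤ q ∧ 0 < q ∧ |p| ≤ q ∧ IsCoprime p q ∧
      1 / 3 * (q:ℝ) ^ (-w) ≤ |(q:ℝ) * ξ - p| ∧ |(q:ℝ) * ξ - p| ≤ 2 ^ (w - 1) * (q:ℝ) ^ (-w)) ∧
    (∀ n : ℕ, ∀ ε : ℝ, 0 < ε → ∃ H₀ : ℝ, ∀ H : ℝ, H₀ ≤ H → Good n w ξ ε H) ∧ ∀ n : ℕ, 1 ≤ n →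
    wx n ξ = ((max w n : ℝ) : EReal) ∧ wst n ξ = ((max w n : ℝ) : EReal) ∧
    hwn n ξ = ((n : ℝ) : EReal) ∧ hlam n ξ = ((1 / n : ℝ) : EReal) ∧
    hws n ξ = ((max w n / (max w n - n + 1) : ℝ) : EReal) := by
  obtain ⟨ξ, hξ, hξ1, hconv, hgood, happr, hhat⟩ := exists_all3 w hw
  have hconv' : ∀ N : ℝ, ∃ p q : ℤ, N ≤ q ∧ 0 < q ∧ |p| ≤ q ∧ IsCoprime p q ∧
      |(q:ℝ) * ξ - p| ≤ 2 ^ (w - 1) * (q:ℝ) ^ (-w) := by
    intro N
    obtain ⟨p, q, a, b, c, d, -, f⟩ := hconv N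
    exact ⟨p, q, a, b, c, d, f⟩
  have hirr : Irrational ξ := hξ.irrational
  refine ⟨ξ, hξ, hξ1, hconv, hgood, fun n hn => ?_⟩
  have hst : wst n ξ = ((max w n : ℝ) : EReal) :=
    le_antisymm (wst_le n hw hξ1 (hgood n)) (wst_ge hw (happr n hn))
  refine ⟨?_, hst, ?_, ?_, ?_⟩
  · refine wx_val hn hw hξ (fun N => ?_) (hgood n)
    obtain ⟨p, q, a, b, -, -, e, f⟩ := hconv N
    refine ⟨p, q, a, lt_of_lt_of_le ?_ e, f⟩
    have : (0:ℝ) < q := by exact_mod_cast b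
    positivity
  · refine le_antisymm ?_ (hwn_ge hn hξ)
    rcases le_total (n:ℝ) w with h | h
    · exact hwn_le_conv h hξ1 hconv'
    · exact hwn_le_good hw h (hgood n)
  · refine le_antisymm ?_ (hlam_ge hn ξ)
    rcases le_total (n:ℝ) w with h | h
    · exact hlam_le_conv hn h hξ1 hconv'
    · refine hlam_le_low n hn ξ hirr fun r hr => ?_
      obtain ⟨X₀, -, h1⟩ := good_low n hw (hgood n) (r := r) (by rw [max_eq_right h]; exact hr)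
      exact ⟨X₀, h1⟩
  · rw [← vst_eq]
    refine le_antisymm ?_ (hws_ge_vst (hhat n hn))
    by_cases h : (n:ℝ) ≤ w
    · have e : vst n w = w / (w + 1 - n) := by unfold vst; rw [if_pos h]
      rw [e]
      exact Pool.Agent.WnF.hws_le n hn w h ξ (1 / 3) _ hξ1 (by norm_num) hconv
    · have e : vst n w = max w n := by
        unfold vst
        rw [if_neg h, max_eq_right (le_of_lt (not_le.1 h))]
      rw [e]
      exact hws_le_max hw hst.le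

end Pool.Agent.WnG
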