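import Pool.Agent.Lib.WnG.Concl
import Pool.Agent.Lib.WnG.Defs

/-!
# The values of `w_n`

`good_low`: with `M = max (w, n)` and `σ = max (0, (w-n)/(w+1))` we have `n + σ = M (1 - σ)`; so for `r > M` and `ε` small a nonzero integer
polynomial `P` of height `≤ X`, `X` large, satisfies `|P(ξ)| > X^(-r)` (`Good` with `H = X^(1/(1-σ-ε))`).
`dir_pol`: Dirichlet by the pigeonhole principle.
-/

set_option autoImplicit false

open Set

namespace Pool.Agent.WnG

open Pool.Agent.WnF (pv polys wx ht sg)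

theorem ratio (n : ℕ) {w : ℝ} (hw : 1 ≤ w) : n + sgp n w = max w n * (1 - sgp n w) := by
  rcases le_total (n:ℝ) w with h | h
  · rw [sgp_of_le hw h, max_eq_left h]
    unfold sg
    have : w + 1 ≠ 0 := by linarith
    field_simp
    ring
  · rw [sgp_of_ge hw h, max_eq_right h]
    ring

theorem good_low (n : ℕ) {w ξ : ℝ} (hw : 1 ≤ w)
    (h2 : ∀ ε : ℝ, 0 < ε → ∃ H₀ : ℝ, ∀ H : ℝ, H₀ ≤ H → Good n w ξ ε H) {r : ℝ} (hr : max w n < r) :
    ∃ X₀ : ℝ, 1 < X₀ ∧ ∀ X : ℝ, X₀ ≤ X → ∀ P : Fin (n + 1) → ℤ, P ≠ 0 → (∀ i, |(P i : ℝ)| ≤ X) →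
      X ^ (-r) < |pv P ξ| := by
  have hn0 : (0:ℝ) ≤ n := Nat.cast_nonneg n
  set M : ℝ := max w n with hM
  have hM1 : 1 ≤ M := hw.trans (le_max_left _ _)
  have hr1 : 0 < 1 + r := by linarith
  set σ := sgp n w with hσ
  have hσ0 : 0 ≤ σ := sgp_nonneg n w
  have hσ1 : σ < 1 := sgp_lt_one hw
  have hratio : n + σ = M * (1 - σ) := ratio n hw
  set t : ℝ := 1 - σ with ht'
  have ht0 : 0 < t := by linarith
  set ε : ℝ := (r - M) * t / (2 * (1 + r)) with hε
  have hε0 : 0 < ε := by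
    rw [hε]
    have : 0 < r - M := by linarith
    positivity
  have hε1 : ε * (2 * (1 + r)) = (r - M) * t := by
    rw [hε]
    field_simp
  have hε2 : ε ≤ t / 2 := by
    have h3 : ε * (2 * (1 + r)) ≤ (t / 2) * (2 * (1 + r)) := by
      rw [hε1]
      nlinarith
    exact le_of_mul_le_mul_right h3 (by positivity)
  have hd0 : 0 < 1 - σ - ε := by linarith
  have hd1 : 1 - σ - ε ≤ 1 := by linarith
  have hlt : (n + σ + ε) / (1 - σ - ε) < r := by
    rw [div_lt_iff₀ hd0, hratio]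
    nlinarith
  obtain ⟨H₀, hH₀⟩ := h2 ε hε0
  refine ⟨max H₀ 2, lt_of_lt_of_le (by norm_num) (le_max_right _ _), ?_⟩
  intro X hX P hP hPX
  have hh1 : H₀ ≤ X := (le_max_left _ _).trans hX
  have hh2 : 2 ≤ X := (le_max_right _ _).trans hX
  have hh0 : 0 < X := by linarith
  set H : ℝ := X ^ (1 / (1 - σ - ε)) with hH
  have hHh : X ≤ H := by
    have h3 : X ^ (1 : ℝ) ≤ X ^ (1 / (1 - σ - ε)) := by
      apply Real.rpow_le_rpow_of_exponent_le (by linarith)
      rw [le_div_iff₀ hd0]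
      linarith
    rwa [Real.rpow_one] at h3
  have hgood := hH₀ H (by linarith) P hP (by
    intro i
    have h3 : H ^ (1 - sgp n w - ε) = X := by
      rw [← hσ, hH, ← Real.rpow_mul hh0.le]
      have h4 : 1 / (1 - σ - ε) * (1 - σ - ε) = 1 := by field_simp
      rw [h4, Real.rpow_one]
    rw [h3]
    exact hPX i)
  rw [← hσ] at hgood
  have h3 : H ^ (-(n + σ + ε)) = X ^ (-((n + σ + ε) / (1 - σ - ε))) := by
    rw [hH, ← Real.rpow_mul hh0.le]
    congr 1
    field_simp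
  rw [h3] at hgood
  have h4 : X ^ (-r) < X ^ (-((n + σ + ε) / (1 - σ - ε))) :=
    Real.rpow_lt_rpow_of_exponent_lt (by linarith) (by linarith)
  linarith

/-- a nonzero integer polynomial does not vanish at a transcendental number -/
theorem pv_ne {n : ℕ} {ξ : ℝ} (hξ : Transcendental ℚ ξ) {P : Fin (n + 1) → ℤ} (hP : P ≠ 0) :
    pv P ξ ≠ 0 := by
  intro h0
  set p : Polynomial ℚ := ∑ i : Fin (n + 1), Polynomial.C ((P i : ℤ) : ℚ) * Polynomial.X ^ (i : ℕ) with hp
  have h1 : Polynomial.aeval ξ p = 0 := by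
    rw [hp, map_sum, ← h0]
    unfold pv
    refine Finset.sum_congr rfl fun i _ => ?_
    rw [map_mul, Polynomial.aeval_C, map_pow, Polynomial.aeval_X]
    simp
  have h2 : p = 0 := by
    by_contra hp0
    exact hξ ⟨p, hp0, h1⟩
  apply hP
  funext j
  have h3 : p.coeff (j : ℕ) = ((P j : ℤ) : ℚ) := by
    rw [hp, Polynomial.finset_sum_coeff, Finset.sum_eq_single j]
    · rw [Polynomial.coeff_C_mul_X_pow, if_pos rfl]
    · intro i _ hij
      rw [Polynomial.coeff_C_mul_X_pow, if_neg]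
      intro h
      exact hij (Fin.ext h.symm)
    · intro h
      exact absurd (Finset.mem_univ j) h
  rw [h2, Polynomial.coeff_zero] at h3
  have h4 : ((P j : ℤ) : ℚ) = 0 := h3.symm
  exact_mod_cast h4

/-- Dirichlet's theorem for integer polynomials. -/
theorem dir_pol (n : ℕ) (hn : 1 ≤ n) (ξ : ℝ) : ∃ C : ℝ, 0 < C ∧ ∀ X : ℝ, 1 ≤ X →
    ∃ P : Fin (n + 1) → ℤ, P ≠ 0 ∧ (∀ i, |(P i : ℝ)| ≤ X) ∧ |pv P ξ| ≤ C * X ^ (-(n:ℝ)) := by
  classical
  set A : ℝ := (1 + |ξ|) ^ n with hA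
  have hξ0 : 0 ≤ |ξ| := abs_nonneg ξ
  have hA1 : 1 ≤ A := one_le_pow₀ (by linarith)
  refine ⟨2 * (n + 1) * A * 2 ^ n, by positivity, ?_⟩
  intro X hX
  set N : ℕ := ⌊X⌋₊ with hN
  have hN1 : 1 ≤ N := Nat.le_floor (by exact_mod_cast hX)
  have hNr : (1:ℝ) ≤ N := by exact_mod_cast hN1
  have hNX : (N:ℝ) ≤ X := Nat.floor_le (by linarith)
  have hXN : X ≤ 2 * N := by
    have := Nat.lt_floor_add_one X
    rw [← hN] at this
    linarith
  set B : ℝ := (n + 1) * N * A with hB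
  have hB0 : 0 < B := by positivity
  set K : ℕ := N ^ (n + 1) with hK
  have hK1 : 1 ≤ K := Nat.one_le_pow _ _ hN1
  have hKr : (1:ℝ) ≤ K := by exact_mod_cast hK1
  set v : (Fin (n + 1) → Fin (N + 1)) → ℝ := fun a => ∑ i, ((a i : ℕ) : ℝ) * ξ ^ (i : ℕ) with hv
  have hvB : ∀ a, |v a| ≤ B := by
    intro a
    calc |v a| ≤ ∑ i : Fin (n + 1), |((a i : ℕ) : ℝ) * ξ ^ (i : ℕ)| := Finset.abs_sum_le_sum_abs _ _
      _ ≤ ∑ _i : Fin (n + 1), (N : ℝ) * A := by
          refine Finset.sum_le_sum fun i _ => ?_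
          rw [abs_mul, abs_pow]
          have h1 : |((a i : ℕ) : ℝ)| ≤ N := by
            rw [Nat.abs_cast]
            have := (a i).2
            exact_mod_cast Nat.le_of_lt_succ this
          have h2 : |ξ| ^ (i : ℕ) ≤ A := by
            calc |ξ| ^ (i : ℕ) ≤ (1 + |ξ|) ^ (i : ℕ) := pow_le_pow_left₀ hξ0 (by linarith) _
              _ ≤ A := pow_le_pow_right₀ (by linarith) (Nat.le_of_lt_succ i.2)
          exact mul_le_mul h1 h2 (by positivity) (by positivity)
      _ = B := by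
          rw [Finset.sum_const, Finset.card_univ, Fintype.card_fin, nsmul_eq_mul, hB]
          push_cast
          ring
  set f : (Fin (n + 1) → Fin (N + 1)) → ℕ := fun a => ⌊(v a + B) * K / (2 * B)⌋₊ with hf
  have hcard : (Finset.range (K + 1)).card < (Finset.univ : Finset (Fin (n + 1) → Fin (N + 1))).card := by
    rw [Finset.card_range, Finset.card_univ, Fintype.card_fun, Fintype.card_fin, Fintype.card_fin, hK]
    have h1 : N ^ (n + 1) + 1 < N ^ n * (N + 1) + 1 := by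
      have : 0 < N ^ n := Nat.pow_pos hN1
      have h2 : N ^ n * (N + 1) = N ^ (n + 1) + N ^ n := by ring
      omega
    have h2 : N ^ n * (N + 1) + 1 ≤ (N + 1) ^ n * (N + 1) := by
      have h3 : N ^ n + 1 ≤ (N + 1) ^ n := by
        have : N ^ n < (N + 1) ^ n := Nat.pow_lt_pow_left (Nat.lt_succ_self N) (by omega)
        omega
      calc N ^ n * (N + 1) + 1 ≤ N ^ n * (N + 1) + (N + 1) := by omega
        _ = (N ^ n + 1) * (N + 1) := by ring
        _ ≤ _ := Nat.mul_le_mul_right _ h3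
    calc N ^ (n + 1) + 1 < N ^ n * (N + 1) + 1 := h1
      _ ≤ (N + 1) ^ n * (N + 1) := h2
      _ = (N + 1) ^ (n + 1) := (pow_succ _ _).symm
  have hmaps : ∀ a ∈ (Finset.univ : Finset (Fin (n + 1) → Fin (N + 1))), f a ∈ Finset.range (K + 1) := by
    intro a _
    rw [Finset.mem_range, Nat.lt_succ_iff]
    refine Nat.floor_le_of_le ?_
    rw [div_le_iff₀ (by positivity)]
    have := (abs_le.1 (hvB a)).2
    nlinarith
  obtain ⟨a, _, a', _, hne, hfa⟩ := Finset.exists_ne_map_eq_of_card_lt_of_maps_to hcard hmaps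
  refine ⟨fun i => ((a i : ℕ) : ℤ) - ((a' i : ℕ) : ℤ), ?_, ?_, ?_⟩
  · intro h0
    apply hne
    funext i
    have h1 := congrFun h0 i
    simp only [Pi.zero_apply] at h1
    apply Fin.ext
    omega
  · intro i
    have h1 := Nat.le_of_lt_succ (a i).2
    have h2 := Nat.le_of_lt_succ (a' i).2
    have h1' : ((a i : ℕ) : ℝ) ≤ N := by exact_mod_cast h1
    have h2' : ((a' i : ℕ) : ℝ) ≤ N := by exact_mod_cast h2
    have h3 : (0:ℝ) ≤ ((a i : ℕ) : ℝ) := Nat.cast_nonneg _
    have h4 : (0:ℝ) ≤ ((a' i : ℕ) : ℝ) := Nat.cast_nonneg _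
    push_cast
    rw [abs_le]
    constructor <;> linarith
  · have hpv : pv (fun i => ((a i : ℕ) : ℤ) - ((a' i : ℕ) : ℤ)) ξ = v a - v a' := by
      unfold pv
      rw [hv]
      simp only
      rw [← Finset.sum_sub_distrib]
      refine Finset.sum_congr rfl fun i _ => ?_
      push_cast
      ring
    rw [hpv]
    set c : ℝ := K / (2 * B) with hc
    have hc0 : 0 < c := by positivity
    have hdist : |(v a + B) * K / (2 * B) - (v a' + B) * K / (2 * B)| < 1 := by
      have hfa' : ⌊(v a + B) * K / (2 * B)⌋₊ = ⌊(v a' + B) * K / (2 * B)⌋₊ := hfa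
      have n1 : 0 ≤ (v a + B) * K / (2 * B) := by
        have := (abs_le.1 (hvB a)).1
        have h5 : 0 ≤ v a + B := by linarith
        positivity
      have n2 : 0 ≤ (v a' + B) * K / (2 * B) := by
        have := (abs_le.1 (hvB a')).1
        have h5 : 0 ≤ v a' + B := by linarith
        positivity
      have f1 := Nat.floor_le n1
      have f2 := Nat.floor_le n2
      have g1 := Nat.lt_floor_add_one ((v a + B) * K / (2 * B))
      have g2 := Nat.lt_floor_add_one ((v a' + B) * K / (2 * B))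
      rw [hfa'] at f1 g1
      rw [abs_lt]
      constructor <;> linarith
    have h5 : (v a + B) * K / (2 * B) - (v a' + B) * K / (2 * B) = (v a - v a') * c := by
      rw [hc]; ring
    rw [h5, abs_mul, abs_of_pos hc0] at hdist
    have h6 : |v a - v a'| ≤ 1 / c := by
      rw [le_div_iff₀ hc0]
      exact hdist.le
    refine h6.trans ?_
    have h7 : 1 / c = 2 * (n + 1) * A * ((N:ℝ) ^ n)⁻¹ := by
      rw [hc, hB, hK]
      push_cast
      have hN0 : (N:ℝ) ≠ 0 := by linarith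
      field_simp
      ring
    rw [h7]
    have h8 : ((N:ℝ) ^ n)⁻¹ ≤ 2 ^ n * X ^ (-(n:ℝ)) := by
      rw [Real.rpow_neg (by linarith), Real.rpow_natCast, ← div_eq_mul_inv, inv_eq_one_div,
        div_le_div_iff₀ (by positivity) (by positivity), one_mul, ← mul_pow]
      exact pow_le_pow_left₀ (by linarith) hXN n
    calc 2 * (n + 1) * A * ((N:ℝ) ^ n)⁻¹ ≤ 2 * (n + 1) * A * (2 ^ n * X ^ (-(n:ℝ))) := by gcongr
      _ = _ := by ring

end Pool.Agent.WnG
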