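import Pool.Agent.Lib.WnG.Val

/-!
# The values of `w_n` and `ŵ_n`

The lower bound `w ≤ w_n` from the convergents is copied from `WnF.WVal` (private lemmas there).
-/

set_option autoImplicit false

open Set

namespace Pool.Agent.WnG

open Pool.Agent.WnF (pv polys wx ht sg)

namespace ValAux

theorem le_ht {m : ℕ} (P : Fin (m + 1) → ℤ) (i : Fin (m + 1)) : |(P i : ℝ)| ≤ ht P :=
  le_ciSup (f := fun i => |(P i : ℝ)|) (Set.finite_range _).bddAbove i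

theorem ht_le {m : ℕ} {P : Fin (m + 1) → ℤ} {B : ℝ} (h : ∀ i, |(P i : ℝ)| ≤ B) :
    ht P ≤ B := ciSup_le h

theorem finite_ht (m : ℕ) (B : ℝ) : {P : Fin (m + 1) → ℤ | ht P ≤ B}.Finite := by
  refine (Set.finite_Icc (fun _ : Fin (m + 1) => -⌈B⌉) (fun _ => ⌈B⌉)).subset fun P hP => ?_
  have h1 : ∀ i, |P i| ≤ ⌈B⌉ := by
    intro i
    have h2 : |(P i : ℝ)| ≤ ⌈B⌉ := ((le_ht P i).trans hP).trans (Int.le_ceil B)
    exact_mod_cast h2
  rw [Set.mem_Icc]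
  exact ⟨fun i => (abs_le.1 (h1 i)).1, fun i => (abs_le.1 (h1 i)).2⟩

/-- the linear polynomial `q X - p` -/
def lin (m : ℕ) (p q : ℤ) : Fin (m + 1) → ℤ :=
  fun i => if (i : ℕ) = 0 then -p else if (i : ℕ) = 1 then q else 0

theorem pv_lin {m : ℕ} (hm : 1 ≤ m) (p q : ℤ) (ξ : ℝ) :
    pv (lin m p q) ξ = q * ξ - p := by
  obtain ⟨k, rfl⟩ := Nat.exists_eq_add_of_le' hm
  unfold pv lin
  rw [Fin.sum_univ_succ, Fin.sum_univ_succ, Finset.sum_eq_zero]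
  · simp
    ring
  · intro i _
    simp

theorem lin_one {m : ℕ} (hm : 1 ≤ m) (p q : ℤ) :
    lin m p q ⟨1, by omega⟩ = q := by
  unfold lin
  simp

theorem lower {m : ℕ} (hm : 1 ≤ m) {w r ξ : ℝ} (hr : 0 < r) (hrw : r < w) (hw : 1 ≤ w)
    (h1 : ∀ N : ℝ, ∃ p q : ℤ, N ≤ q ∧ 0 < |(q:ℝ) * ξ - p| ∧
      |(q:ℝ) * ξ - p| ≤ 2 ^ (w - 1) * (q:ℝ) ^ (-w)) : (polys m ξ r).Infinite := by
  have hξ : 0 ≤ |ξ| := abs_nonneg ξ
  obtain ⟨N1, hN1⟩ := Filter.eventually_atTop.1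
    ((tendsto_rpow_atTop (sub_pos.2 hrw)).eventually_ge_atTop
      ((2:ℝ) ^ (w - 1) * (|ξ| + 1) ^ r))
  intro hfin
  have h2 : ((fun P : Fin (m + 1) → ℤ => P ⟨1, by omega⟩) '' (polys m ξ r)).Finite :=
    hfin.image _
  obtain ⟨B, hB⟩ := h2.bddAbove
  obtain ⟨p, q, hq, hpos, hle⟩ := h1 (max (max N1 2) (B + 1))
  have hq1 : N1 ≤ q := ((le_max_left _ _).trans (le_max_left _ _)).trans hq
  have hq2 : (2 : ℝ) ≤ q := ((le_max_right _ _).trans (le_max_left _ _)).trans hq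
  have hq3 : (B : ℝ) + 1 ≤ q := (le_max_right _ _).trans hq
  have hq0 : (0 : ℝ) < q := by linarith
  have hkey := hN1 q hq1
  -- the error is at most one
  have herr : |(q:ℝ) * ξ - p| ≤ 1 := by
    refine hle.trans ?_
    rw [Real.rpow_neg hq0.le, ← div_eq_mul_inv, div_le_one (by positivity)]
    calc (2:ℝ) ^ (w - 1) ≤ (2:ℝ) ^ w := Real.rpow_le_rpow_of_exponent_le (by norm_num) (by linarith)
      _ ≤ (q:ℝ) ^ w := Real.rpow_le_rpow (by norm_num) hq2 (by linarith)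
  have hp : |(p : ℝ)| ≤ (|ξ| + 1) * q := by
    have h3 : |(p : ℝ)| ≤ |(q:ℝ) * ξ| + |(q:ℝ) * ξ - p| := by
      have e2 : (p:ℝ) = q * ξ - (q * ξ - p) := by ring
      calc |(p:ℝ)| = |q * ξ - (q * ξ - p)| := by rw [← e2]
        _ ≤ _ := abs_sub _ _
    rw [abs_mul, abs_of_pos hq0] at h3
    nlinarith
  have hht : ht (lin m p q) ≤ (|ξ| + 1) * q := by
    refine ht_le fun i => ?_
    unfold lin
    split_ifs
    · push_cast
      rw [abs_neg]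
      exact hp
    · rw [abs_of_pos hq0]
      nlinarith
    · rw [Int.cast_zero, abs_zero]
      positivity
  have hht1 : (q : ℝ) ≤ ht (lin m p q) := by
    have h3 := le_ht (lin m p q) ⟨1, by omega⟩
    rw [lin_one hm, abs_of_pos hq0] at h3
    exact h3
  have hmem : lin m p q ∈ polys m ξ r := by
    refine ⟨by rw [pv_lin hm]; exact hpos, ?_⟩
    rw [pv_lin hm]
    refine hle.trans ?_
    have h3 : ((|ξ| + 1) * q) ^ (-r) ≤ ht (lin m p q) ^ (-r) :=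
      Real.rpow_le_rpow_of_nonpos (by linarith) hht (by linarith)
    refine le_trans ?_ h3
    rw [Real.mul_rpow (by positivity) hq0.le]
    have h4 : (q:ℝ) ^ (-w) = (q:ℝ) ^ (-r) * ((q:ℝ) ^ (w - r))⁻¹ := by
      rw [← Real.rpow_neg hq0.le, ← Real.rpow_add hq0]
      congr 1
      ring
    have h5 : (|ξ| + 1) ^ (-r) = ((|ξ| + 1) ^ r)⁻¹ := Real.rpow_neg (by positivity) r
    have h6 : 0 < (q:ℝ) ^ (w - r) := by positivity
    have h7 : 0 < (|ξ| + 1) ^ r := by positivity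
    rw [h4, h5]
    have h8 : (2:ℝ) ^ (w - 1) * ((q:ℝ) ^ (w - r))⁻¹ ≤ ((|ξ| + 1) ^ r)⁻¹ := by
      rw [← div_eq_mul_inv, div_le_iff₀ h6, inv_mul_eq_div, le_div_iff₀ h7]
      exact hkey
    calc (2:ℝ) ^ (w - 1) * ((q:ℝ) ^ (-r) * ((q:ℝ) ^ (w - r))⁻¹)
        = ((2:ℝ) ^ (w - 1) * ((q:ℝ) ^ (w - r))⁻¹) * (q:ℝ) ^ (-r) := by ring
      _ ≤ ((|ξ| + 1) ^ r)⁻¹ * (q:ℝ) ^ (-r) := by gcongr
  have h3 := hB ⟨lin m p q, hmem, rfl⟩
  have h4 : lin m p q ⟨1, by omega⟩ = q := lin_one hm p q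
  have h5 : q ≤ B := by
    rw [← h4]
    exact h3
  have h6 : (q : ℝ) ≤ B := by exact_mod_cast h5
  linarith

end ValAux

open ValAux

theorem wx_le (n : ℕ) {w ξ : ℝ} (hw : 1 ≤ w)
    (h2 : ∀ ε : ℝ, 0 < ε → ∃ H₀ : ℝ, ∀ H : ℝ, H₀ ≤ H → Good n w ξ ε H) :
    wx n ξ ≤ ((max w n : ℝ) : EReal) := by
  refine sSup_le ?_
  rintro _ ⟨r, rfl, hinf⟩
  rw [EReal.coe_le_coe_iff]
  by_contra hr
  push Not at hr
  obtain ⟨X₀, hX₀, h⟩ := good_low n hw h2 hr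
  have hex : ∃ P ∈ polys n ξ r, X₀ < ht P := by
    by_contra hcon
    push Not at hcon
    exact hinf ((finite_ht n X₀).subset fun P hP => hcon P hP)
  obtain ⟨P, hP, hPh⟩ := hex
  have hP0 : P ≠ 0 := by
    rintro rfl
    have h5 := hP.1
    have h4 : pv (0 : Fin (n + 1) → ℤ) ξ = 0 := by
      unfold pv
      simp
    rw [h4, abs_zero] at h5
    exact lt_irrefl _ h5
  have h3 := h (ht P) hPh.le P hP0 (fun i => le_ht P i)
  exact absurd hP.2 (not_le.2 h3)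

theorem dir_inf {n : ℕ} (hn : 1 ≤ n) {ξ : ℝ} (hξ : Transcendental ℚ ξ) {r : ℝ} (hr0 : 0 < r)
    (hr : r < n) : (polys n ξ r).Infinite := by
  obtain ⟨C, hC, hdir⟩ := dir_pol n hn ξ
  intro hfin
  -- the values of the finitely many polynomials are bounded below
  obtain ⟨δ, hδ, hδ'⟩ : ∃ δ : ℝ, 0 < δ ∧ ∀ P ∈ polys n ξ r, δ ≤ |pv P ξ| := by
    rcases (polys n ξ r).eq_empty_or_nonempty with h | h
    · exact ⟨1, one_pos, fun P hP => by rw [h] at hP; exact absurd hP (Set.notMem_empty P)⟩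
    · obtain ⟨P0, hP0, hmin⟩ := Set.exists_min_image (polys n ξ r) (fun P => |pv P ξ|) hfin h
      exact ⟨|pv P0 ξ|, hP0.1, hmin⟩
  obtain ⟨N1, hN1⟩ := Filter.eventually_atTop.1
    ((tendsto_rpow_atTop (sub_pos.2 hr)).eventually_ge_atTop C)
  obtain ⟨N2, hN2⟩ := Filter.eventually_atTop.1
    ((tendsto_rpow_atTop hr0).eventually_gt_atTop (1 / δ))
  set X : ℝ := max (max N1 N2) 1 with hX
  have hX1 : 1 ≤ X := le_max_right _ _
  have hX0 : 0 < X := by linarith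
  have e1 := hN1 X ((le_max_left _ _).trans (le_max_left _ _))
  have e2 := hN2 X ((le_max_right _ _).trans (le_max_left _ _))
  obtain ⟨P, hP, hPX, hPv⟩ := hdir X hX1
  have e3 : |pv P ξ| ≤ X ^ (-r) := by
    refine hPv.trans ?_
    have h4 : X ^ (-r) = X ^ ((n:ℝ) - r) * X ^ (-(n:ℝ)) := by
      rw [← Real.rpow_add hX0]; congr 1; ring
    rw [h4]
    exact mul_le_mul_of_nonneg_right e1 (Real.rpow_nonneg hX0.le _)
  have hht : ht P ≤ X := ht_le hPX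
  have hht0 : 0 < ht P := by
    obtain ⟨i, hi⟩ : ∃ i, P i ≠ 0 := by
      by_contra hcon
      push Not at hcon
      exact hP (funext hcon)
    refine lt_of_lt_of_le ?_ (le_ht P i)
    rw [abs_pos]
    exact_mod_cast hi
  have hmem : P ∈ polys n ξ r := by
    refine ⟨abs_pos.2 (pv_ne hξ hP), e3.trans ?_⟩
    exact Real.rpow_le_rpow_of_nonpos hht0 hht (by linarith)
  have h5 := hδ' P hmem
  have h6 : X ^ (-r) < δ := by
    rw [Real.rpow_neg hX0.le, inv_lt_comm₀ (by positivity) hδ, ← one_div]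
    exact e2
  linarith

theorem wx_val {n : ℕ} (hn : 1 ≤ n) {w ξ : ℝ} (hw : 1 ≤ w) (hξ : Transcendental ℚ ξ)
    (h1 : ∀ N : ℝ, ∃ p q : ℤ, N ≤ q ∧ 0 < |(q:ℝ) * ξ - p| ∧
      |(q:ℝ) * ξ - p| ≤ 2 ^ (w - 1) * (q:ℝ) ^ (-w))
    (h2 : ∀ ε : ℝ, 0 < ε → ∃ H₀ : ℝ, ∀ H : ℝ, H₀ ≤ H → Good n w ξ ε H) :
    wx n ξ = ((max w n : ℝ) : EReal) := by
  have hnR : (1 : ℝ) ≤ n := by exact_mod_cast hn
  refine le_antisymm (wx_le n hw h2) ?_
  refine le_of_forall_lt fun c hc => ?_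
  obtain ⟨x, hx1, hx2⟩ := EReal.lt_iff_exists_real_btwn.1 hc
  have hx2' : x < max w n := EReal.coe_lt_coe_iff.1 hx2
  have hM : 1 ≤ max w (n:ℝ) := hw.trans (le_max_left _ _)
  have h3 : max x (max w n / 2) < max w n := max_lt hx2' (by linarith)
  have h4 : 0 < max x (max w n / 2) := lt_of_lt_of_le (by linarith) (le_max_right _ _)
  have h5 : ((max x (max w n / 2) : ℝ) : EReal) ≤ wx n ξ := by
    refine le_sSup ⟨_, rfl, ?_⟩
    rcases le_total (n:ℝ) w with h | h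
    · rw [max_eq_left h] at h3 h4 ⊢
      exact lower hn h4 h3 hw h1
    · rw [max_eq_right h] at h3 h4 ⊢
      exact dir_inf hn hξ h4 h3
  refine lt_of_lt_of_le (lt_of_lt_of_le hx1 ?_) h5
  exact EReal.coe_le_coe_iff.2 (le_max_left _ _)

theorem hwn_ge {n : ℕ} (hn : 1 ≤ n) {ξ : ℝ} (hξ : Transcendental ℚ ξ) :
    ((n : ℝ) : EReal) ≤ hwn n ξ := by
  obtain ⟨C, hC, hdir⟩ := dir_pol n hn ξ
  refine le_of_forall_lt fun c hc => ?_
  obtain ⟨r, hr1, hr2⟩ := EReal.lt_iff_exists_real_btwn.1 hc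
  rw [EReal.coe_lt_coe_iff] at hr2
  refine lt_of_lt_of_le hr1 (le_sSup ⟨r, rfl, ?_⟩)
  obtain ⟨N1, hN1⟩ := Filter.eventually_atTop.1
    ((tendsto_rpow_atTop (sub_pos.2 hr2)).eventually_ge_atTop C)
  refine ⟨max N1 1, fun X hX => ?_⟩
  have hX1 : 1 ≤ X := (le_max_right _ _).trans hX
  have hX0 : 0 < X := by linarith
  have e1 := hN1 X ((le_max_left _ _).trans hX)
  obtain ⟨P, hP, hPX, hPv⟩ := hdir X hX1
  refine ⟨P, hPX, abs_pos.2 (pv_ne hξ hP), ?_⟩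
  refine hPv.trans ?_
  have h4 : X ^ (-r) = X ^ ((n:ℝ) - r) * X ^ (-(n:ℝ)) := by
    rw [← Real.rpow_add hX0]; congr 1; ring
  rw [h4]
  exact mul_le_mul_of_nonneg_right e1 (Real.rpow_nonneg hX0.le _)

theorem hwn_le_good {n : ℕ} {w ξ : ℝ} (hw : 1 ≤ w) (hwn' : w ≤ n)
    (h2 : ∀ ε : ℝ, 0 < ε → ∃ H₀ : ℝ, ∀ H : ℝ, H₀ ≤ H → Good n w ξ ε H) :
    hwn n ξ ≤ ((n : ℝ) : EReal) := by
  refine sSup_le ?_
  rintro _ ⟨r, rfl, X₁, hX₁⟩
  rw [EReal.coe_le_coe_iff]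
  by_contra hr
  push Not at hr
  obtain ⟨X₀, hX₀, h⟩ := good_low n hw h2 (r := r) (by rw [max_eq_right hwn']; exact hr)
  obtain ⟨P, hP1, hP2, hP3⟩ := hX₁ (max X₀ X₁) (le_max_right _ _)
  have hP0 : P ≠ 0 := by
    rintro rfl
    simp at hP2
  have h3 := h (max X₀ X₁) (le_max_left _ _) P hP0 hP1
  exact absurd hP3 (not_le.2 h3)

end Pool.Agent.WnG
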